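import Pool.Agent.Helper89.EM.Dom

/-!
# The defect network, first shape
-/

set_option autoImplicit false
set_option linter.unusedVariables false

namespace Pool.Agent.Helper89.EM

theorem ed_intro {P Q : Prop} [Decidable P] [Decidable Q] {d : ℤ}
    (h : (P ∧ Q ∧ (d = 2 ∨ d = -2)) ∨ (¬ (P ∧ Q) ∧ (d = 1 ∨ d = -1))) :
    Ed (decide P) (decide Q) d := by
  rcases h with ⟨h1, h2, h3⟩ | ⟨h1, h3⟩
  · rcases h3 with rfl | rfl
    · exact ⟨1, Or.inl rfl, by simp [h1, h2]⟩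
    · exact ⟨-1, Or.inr rfl, by simp [h1, h2]⟩
  · have h4 : (decide P && decide Q) = false := by
      rw [Bool.and_eq_false_iff, decide_eq_false_iff_not, decide_eq_false_iff_not]
      tauto
    rcases h3 with rfl | rfl
    · exact ⟨1, Or.inl rfl, by simp [h4]⟩
    · exact ⟨-1, Or.inr rfl, by simp [h4]⟩

/-- sign -/
def sgn (b : ℤ) : ℤ := if b % 2 = 0 then 1 else -1

namespace N1

/-- isolated inner vertices -/
def isT (A g c i b : ℤ) : Prop :=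
  b = 0 ∨ (b = A ∧ i ≤ g - 2) ∨ (i = g ∧ b = 1) ∨ (i = g ∧ b = c + A - 1)

instance (A g c i b : ℤ) : Decidable (isT A g c i b) := by
  unfold isT
  infer_instance

/-- outer vertices of depth one -/
def isN (A g c i b : ℤ) : Prop :=
  (i = g ∧ 2 ≤ b ∧ b ≤ c + A - 2) ∨ (i = g - 1 ∧ b = A) ∨ (i = g + 1 ∧ b = c)

instance (A g c i b : ℤ) : Decidable (isN A g c i b) := by
  unfold isN
  infer_instance

/-- the flips -/
def flp (A g c i b : ℤ) : ℤ :=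
  if b = 0 ∨ (b = A ∧ i ≤ g - 1) ∨ (i = g + 1 ∧ b = c) then 1 else 0

/-- inner heights -/
def yv (A g c i b : ℤ) : ℤ :=
  if isT A g c i b then
    (if A + 2 ≤ b then 1 + (i + flp A g c i b) % 2 else (i + 1 + flp A g c i b) % 2)
  else if i = g then (if A + 2 ≤ b then 2 + sgn b else -sgn b)
  else if i % 2 = 1 then 1 + sgn b
  else (if A + 2 ≤ b then 2 - sgn b else sgn b)

/-- outer heights -/
def xv (A g c i b : ℤ) : ℤ :=
  if isN A g c i b then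
    (if i = g then (if A + 2 ≤ b then 2 - sgn b else sgn b)
    else (if A + 2 ≤ b then 2 + sgn b else 1))
  else (if A + 2 ≤ b then 1 + (i + 1 + flp A g c i b) % 2 else (i + flp A g c i b) % 2)

theorem v1 {A T g c : ℤ} (hA : A % 2 = 1) (hA3 : 3 ≤ A) (hT : T % 2 = 0) (hg : g % 2 = 1)
    (hg3 : 3 ≤ g) (hgT : g ≤ T - 1) (hc : A + 3 ≤ c)
    (i b : ℤ) (h : Dm A T 2 g c i b) (h' : Dm A T 2 g c i (b + 1)) :
    (¬ isT A g c i b ∧ ¬ isT A g c i (b + 1) ∧ (yv A g c i (b + 1) - yv A g c i b = 2 ∨ yv A g c i (b + 1) - yv A g c i b = -2)) ∨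
    (¬ (¬ isT A g c i b ∧ ¬ isT A g c i (b + 1)) ∧ (yv A g c i (b + 1) - yv A g c i b = 1 ∨ yv A g c i (b + 1) - yv A g c i b = -1)) := by
  obtain ⟨h1, h2, h3, h4⟩ := h
  obtain ⟨_, _, h3', h4'⟩ := h'
  by_cases t1 : isT A g c i b
  · by_cases t2 : isT A g c i (b + 1)
    · right
      refine ⟨fun h => h.1 t1, ?_⟩
      unfold yv
      rw [if_pos t2, if_pos t1]
      unfold isT at t1 t2
      unfold flp
      rcases t1 with t1 | ⟨t1, t1x⟩ | ⟨t1, t1x⟩ | ⟨t1, t1x⟩ <;>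
        rcases t2 with t2 | ⟨t2, t2x⟩ | ⟨t2, t2x⟩ | ⟨t2, t2x⟩ <;> first | (exfalso; omega) | (split_ifs <;> omega)
    · right
      refine ⟨fun h => h.1 t1, ?_⟩
      unfold yv
      rw [if_neg t2, if_pos t1]
      unfold isT at t1 t2
      unfold flp sgn
      rcases t1 with t1 | ⟨t1, t1x⟩ | ⟨t1, t1x⟩ | ⟨t1, t1x⟩ <;> split_ifs <;> omega
  · by_cases t2 : isT A g c i (b + 1)
    · right
      refine ⟨fun h => h.2 t2, ?_⟩
      unfold yv
      rw [if_pos t2, if_neg t1]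
      unfold isT at t1 t2
      unfold flp sgn
      rcases t2 with t2 | ⟨t2, t2x⟩ | ⟨t2, t2x⟩ | ⟨t2, t2x⟩ <;> split_ifs <;> omega
    · left
      refine ⟨t1, t2, ?_⟩
      unfold yv
      rw [if_neg t2, if_neg t1]
      unfold isT at t1 t2
      unfold sgn
      split_ifs <;> omega

theorem v2 {A T g c : ℤ} (hA : A % 2 = 1) (hA3 : 3 ≤ A) (hT : T % 2 = 0) (hg : g % 2 = 1)
    (hg3 : 3 ≤ g) (hgT : g ≤ T - 1) (hc : A + 3 ≤ c)
    (i : ℤ) (h1 : 2 + g ≤ i) (h2 : i < 2 + T) :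
    (¬ isT A g c i (c - 1) ∧ ¬ isT A g c (i - g) 0 ∧ (yv A g c (i - g) 0 + 1 - yv A g c i (c - 1) = 2 ∨ yv A g c (i - g) 0 + 1 - yv A g c i (c - 1) = -2)) ∨
    (¬ (¬ isT A g c i (c - 1) ∧ ¬ isT A g c (i - g) 0) ∧ (yv A g c (i - g) 0 + 1 - yv A g c i (c - 1) = 1 ∨ yv A g c (i - g) 0 + 1 - yv A g c i (c - 1) = -1)) := by
  by_cases t1 : isT A g c i (c - 1)
  · by_cases t2 : isT A g c (i - g) 0
    · right
      refine ⟨fun h => h.1 t1, ?_⟩
      unfold yv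
      rw [if_pos t2, if_pos t1]
      unfold isT at t1 t2
      unfold flp
      rcases t1 with t1 | ⟨t1, t1x⟩ | ⟨t1, t1x⟩ | ⟨t1, t1x⟩ <;>
        rcases t2 with t2 | ⟨t2, t2x⟩ | ⟨t2, t2x⟩ | ⟨t2, t2x⟩ <;> (exfalso; omega)
    · right
      refine ⟨fun h => h.1 t1, ?_⟩
      unfold yv
      rw [if_neg t2, if_pos t1]
      unfold isT at t1 t2
      unfold flp sgn
      rcases t1 with t1 | ⟨t1, t1x⟩ | ⟨t1, t1x⟩ | ⟨t1, t1x⟩ <;> split_ifs <;> omega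
  · by_cases t2 : isT A g c (i - g) 0
    · right
      refine ⟨fun h => h.2 t2, ?_⟩
      unfold yv
      rw [if_pos t2, if_neg t1]
      unfold isT at t1 t2
      unfold flp sgn
      rcases t2 with t2 | ⟨t2, t2x⟩ | ⟨t2, t2x⟩ | ⟨t2, t2x⟩ <;> split_ifs <;> omega
    · left
      refine ⟨t1, t2, ?_⟩
      unfold yv
      rw [if_neg t2, if_neg t1]
      unfold isT at t1 t2
      unfold sgn
      split_ifs <;> omega

theorem v3 {A T g c : ℤ} (hA : A % 2 = 1) (hA3 : 3 ≤ A) (hT : T % 2 = 0) (hg : g % 2 = 1)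
    (hg3 : 3 ≤ g) (hgT : g ≤ T - 1) (hc : A + 3 ≤ c)
    (i : ℤ) (h1 : 2 ≤ i) (h2 : i < 2 + g) :
    (¬ isT A g c i (c + A - 1) ∧ ¬ isT A g c (i - g + T) 0 ∧ (yv A g c (i - g + T) 0 + 1 - yv A g c i (c + A - 1) = 2 ∨ yv A g c (i - g + T) 0 + 1 - yv A g c i (c + A - 1) = -2)) ∨
    (¬ (¬ isT A g c i (c + A - 1) ∧ ¬ isT A g c (i - g + T) 0) ∧ (yv A g c (i - g + T) 0 + 1 - yv A g c i (c + A - 1) = 1 ∨ yv A g c (i - g + T) 0 + 1 - yv A g c i (c + A - 1) = -1)) := by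
  by_cases t1 : isT A g c i (c + A - 1)
  · by_cases t2 : isT A g c (i - g + T) 0
    · right
      refine ⟨fun h => h.1 t1, ?_⟩
      unfold yv
      rw [if_pos t2, if_pos t1]
      unfold isT at t1 t2
      unfold flp
      rcases t1 with t1 | ⟨t1, t1x⟩ | ⟨t1, t1x⟩ | ⟨t1, t1x⟩ <;>
        rcases t2 with t2 | ⟨t2, t2x⟩ | ⟨t2, t2x⟩ | ⟨t2, t2x⟩ <;> first | (exfalso; omega) | (split_ifs <;> omega)
    · right
      refine ⟨fun h => h.1 t1, ?_⟩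
      unfold yv
      rw [if_neg t2, if_pos t1]
      unfold isT at t1 t2
      unfold flp sgn
      rcases t1 with t1 | ⟨t1, t1x⟩ | ⟨t1, t1x⟩ | ⟨t1, t1x⟩ <;> split_ifs <;> omega
  · by_cases t2 : isT A g c (i - g + T) 0
    · right
      refine ⟨fun h => h.2 t2, ?_⟩
      unfold yv
      rw [if_pos t2, if_neg t1]
      unfold isT at t1 t2
      unfold flp sgn
      rcases t2 with t2 | ⟨t2, t2x⟩ | ⟨t2, t2x⟩ | ⟨t2, t2x⟩ <;> split_ifs <;> omega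
    · left
      refine ⟨t1, t2, ?_⟩
      unfold yv
      rw [if_neg t2, if_neg t1]
      unfold isT at t1 t2
      unfold sgn
      split_ifs <;> omega

theorem u1 {A T g c : ℤ} (hA : A % 2 = 1) (hA3 : 3 ≤ A) (hT : T % 2 = 0) (hg : g % 2 = 1)
    (hg3 : 3 ≤ g) (hgT : g ≤ T - 1) (hc : A + 3 ≤ c)
    (i b : ℤ) (h : Dm A T 2 g c i b) (h' : Dm A T 2 g c (i + 1) b) :
    (isN A g c i b ∧ isN A g c (i + 1) b ∧ (xv A g c (i + 1) b - xv A g c i b = 2 ∨ xv A g c (i + 1) b - xv A g c i b = -2)) ∨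
    (¬ (isN A g c i b ∧ isN A g c (i + 1) b) ∧ (xv A g c (i + 1) b - xv A g c i b = 1 ∨ xv A g c (i + 1) b - xv A g c i b = -1)) := by
  obtain ⟨h1, h2, h3, h4⟩ := h
  obtain ⟨_, h2', _, h4'⟩ := h'
  by_cases t1 : isN A g c i b
  · by_cases t2 : isN A g c (i + 1) b
    · left
      refine ⟨t1, t2, ?_⟩
      unfold xv
      rw [if_pos t2, if_pos t1]
      unfold isN at t1 t2
      unfold sgn
      rcases t1 with ⟨t1, t1x, t1y⟩ | ⟨t1, t1x⟩ | ⟨t1, t1x⟩ <;>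
        rcases t2 with ⟨t2, t2x, t2y⟩ | ⟨t2, t2x⟩ | ⟨t2, t2x⟩ <;> first | (exfalso; omega) | (split_ifs <;> omega)
    · right
      refine ⟨fun h => t2 h.2, ?_⟩
      unfold xv
      rw [if_neg t2, if_pos t1]
      unfold isN at t1 t2
      unfold flp sgn
      rcases t1 with ⟨t1, t1x, t1y⟩ | ⟨t1, t1x⟩ | ⟨t1, t1x⟩ <;> split_ifs <;> omega
  · by_cases t2 : isN A g c (i + 1) b
    · right
      refine ⟨fun h => t1 h.1, ?_⟩
      unfold xv
      rw [if_pos t2, if_neg t1]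
      unfold isN at t1 t2
      unfold flp sgn
      rcases t2 with ⟨t2, t2x, t2y⟩ | ⟨t2, t2x⟩ | ⟨t2, t2x⟩ <;> split_ifs <;> omega
    · right
      refine ⟨fun h => t1 h.1, ?_⟩
      unfold xv
      rw [if_neg t2, if_neg t1]
      unfold isN at t1 t2
      unfold flp
      split_ifs <;> omega

theorem u2 {A T g c : ℤ} (hA : A % 2 = 1) (hA3 : 3 ≤ A) (hT : T % 2 = 0) (hg : g % 2 = 1)
    (hg3 : 3 ≤ g) (hgT : g ≤ T - 1) (hc : A + 3 ≤ c)
    (b : ℤ) (h1 : 0 ≤ b) (h2 : b < c) :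
    (isN A g c (2 + T - 1) b ∧ isN A g c 2 (b + A) ∧ (xv A g c 2 (b + A) - xv A g c (2 + T - 1) b = 2 ∨ xv A g c 2 (b + A) - xv A g c (2 + T - 1) b = -2)) ∨
    (¬ (isN A g c (2 + T - 1) b ∧ isN A g c 2 (b + A)) ∧ (xv A g c 2 (b + A) - xv A g c (2 + T - 1) b = 1 ∨ xv A g c 2 (b + A) - xv A g c (2 + T - 1) b = -1)) := by
  by_cases t1 : isN A g c (2 + T - 1) b
  · by_cases t2 : isN A g c 2 (b + A)
    · left
      refine ⟨t1, t2, ?_⟩
      unfold xv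
      rw [if_pos t2, if_pos t1]
      unfold isN at t1 t2
      unfold sgn
      rcases t1 with ⟨t1, t1x, t1y⟩ | ⟨t1, t1x⟩ | ⟨t1, t1x⟩ <;>
        rcases t2 with ⟨t2, t2x, t2y⟩ | ⟨t2, t2x⟩ | ⟨t2, t2x⟩ <;> (exfalso; omega)
    · right
      refine ⟨fun h => t2 h.2, ?_⟩
      unfold xv
      rw [if_neg t2, if_pos t1]
      unfold isN at t1 t2
      unfold flp sgn
      rcases t1 with ⟨t1, t1x, t1y⟩ | ⟨t1, t1x⟩ | ⟨t1, t1x⟩ <;> split_ifs <;> omega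
  · by_cases t2 : isN A g c 2 (b + A)
    · right
      refine ⟨fun h => t1 h.1, ?_⟩
      unfold xv
      rw [if_pos t2, if_neg t1]
      unfold isN at t1 t2
      unfold flp sgn
      rcases t2 with ⟨t2, t2x, t2y⟩ | ⟨t2, t2x⟩ | ⟨t2, t2x⟩ <;> split_ifs <;> omega
    · right
      refine ⟨fun h => t1 h.1, ?_⟩
      unfold xv
      rw [if_neg t2, if_neg t1]
      unfold isN at t1 t2
      unfold flp
      split_ifs <;> omega

theorem u3 {A T g c : ℤ} (hA : A % 2 = 1) (hA3 : 3 ≤ A) (hT : T % 2 = 0) (hg : g % 2 = 1)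
    (hg3 : 3 ≤ g) (hgT : g ≤ T - 1) (hc : A + 3 ≤ c)
    (b : ℤ) (h1 : c ≤ b) (h2 : b < c + A) :
    (isN A g c (2 + g - 1) b ∧ isN A g c 2 (b - c) ∧ (xv A g c 2 (b - c) + 1 - xv A g c (2 + g - 1) b = 2 ∨ xv A g c 2 (b - c) + 1 - xv A g c (2 + g - 1) b = -2)) ∨
    (¬ (isN A g c (2 + g - 1) b ∧ isN A g c 2 (b - c)) ∧ (xv A g c 2 (b - c) + 1 - xv A g c (2 + g - 1) b = 1 ∨ xv A g c 2 (b - c) + 1 - xv A g c (2 + g - 1) b = -1)) := by
  by_cases t1 : isN A g c (2 + g - 1) b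
  · by_cases t2 : isN A g c 2 (b - c)
    · left
      refine ⟨t1, t2, ?_⟩
      unfold xv
      rw [if_pos t2, if_pos t1]
      unfold isN at t1 t2
      unfold sgn
      rcases t1 with ⟨t1, t1x, t1y⟩ | ⟨t1, t1x⟩ | ⟨t1, t1x⟩ <;>
        rcases t2 with ⟨t2, t2x, t2y⟩ | ⟨t2, t2x⟩ | ⟨t2, t2x⟩ <;> (exfalso; omega)
    · right
      refine ⟨fun h => t2 h.2, ?_⟩
      unfold xv
      rw [if_neg t2, if_pos t1]
      unfold isN at t1 t2
      unfold flp sgn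
      rcases t1 with ⟨t1, t1x, t1y⟩ | ⟨t1, t1x⟩ | ⟨t1, t1x⟩ <;> split_ifs <;> omega
  · by_cases t2 : isN A g c 2 (b - c)
    · right
      refine ⟨fun h => t1 h.1, ?_⟩
      unfold xv
      rw [if_pos t2, if_neg t1]
      unfold isN at t1 t2
      unfold flp sgn
      rcases t2 with ⟨t2, t2x, t2y⟩ | ⟨t2, t2x⟩ | ⟨t2, t2x⟩ <;> split_ifs <;> omega
    · right
      refine ⟨fun h => t1 h.1, ?_⟩
      unfold xv
      rw [if_neg t2, if_neg t1]
      unfold isN at t1 t2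
      unfold flp
      split_ifs <;> omega

theorem sp {A T g c : ℤ} (hA : A % 2 = 1) (hA3 : 3 ≤ A) (hT : T % 2 = 0) (hg : g % 2 = 1)
    (hg3 : 3 ≤ g) (hgT : g ≤ T - 1) (hc : A + 3 ≤ c)
    (i b : ℤ) (h : Dm A T 2 g c i b) :
    (isN A g c i b ∧ ¬ isT A g c i b ∧ (yv A g c i b - xv A g c i b = 2 ∨ yv A g c i b - xv A g c i b = -2)) ∨
    (¬ (isN A g c i b ∧ ¬ isT A g c i b) ∧ (yv A g c i b - xv A g c i b = 1 ∨ yv A g c i b - xv A g c i b = -1)) := by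
  obtain ⟨h1, h2, h3, h4⟩ := h
  by_cases t1 : isN A g c i b
  · by_cases t2 : isT A g c i b
    · right
      refine ⟨fun h => h.2 t2, ?_⟩
      unfold yv xv
      rw [if_pos t2, if_pos t1]
      unfold isN at t1
      unfold isT at t2
      unfold flp sgn
      rcases t1 with ⟨t1, t1x, t1y⟩ | ⟨t1, t1x⟩ | ⟨t1, t1x⟩ <;>
        rcases t2 with t2 | ⟨t2, t2x⟩ | ⟨t2, t2x⟩ | ⟨t2, t2x⟩ <;> (exfalso; omega)
    · left
      refine ⟨t1, t2, ?_⟩
      unfold yv xv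
      rw [if_neg t2, if_pos t1]
      unfold isN at t1
      unfold isT at t2
      unfold sgn
      rcases t1 with ⟨t1, t1x, t1y⟩ | ⟨t1, t1x⟩ | ⟨t1, t1x⟩ <;> split_ifs <;> omega
  · by_cases t2 : isT A g c i b
    · right
      refine ⟨fun h => t1 h.1, ?_⟩
      unfold yv xv
      rw [if_pos t2, if_neg t1]
      unfold isN at t1
      unfold isT at t2
      unfold flp
      rcases t2 with t2 | ⟨t2, t2x⟩ | ⟨t2, t2x⟩ | ⟨t2, t2x⟩ <;> split_ifs <;> omega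
    · right
      refine ⟨fun h => t1 h.1, ?_⟩
      unfold yv xv
      rw [if_neg t2, if_neg t1]
      unfold isN at t1
      unfold isT at t2
      unfold flp sgn
      split_ifs <;> omega

end N1

theorem rel_net1 {m r k : ℕ} {A T g c s n : ℤ} (hr : r % 2 = 1) (hA : IsCoprime A (r : ℤ))
    (hA2 : A % 2 = 1) (hA3 : 3 ≤ A) (hT : T % 2 = 0) (hg : g % 2 = 1) (hg3 : 3 ≤ g) (hgT : g ≤ T - 1)
    (hc : A + 3 ≤ c)
    (hm : g * A + c * T = m) (hk1 : (k : ℤ) = s * T + n * g) (hk2 : s * A - n * c = 1)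
    (hrn : (r : ℤ) ∣ n) : Rel m r k := by
  refine rel_dom (o := 2) (τ := g) (c := c) hr hA (by omega) (by omega) (by omega) (by omega)
    (by omega) hm hk1 hk2 hrn (N1.xv A g c) (N1.yv A g c)
    (fun i b => decide (N1.isN A g c i b)) (fun i b => decide (¬ N1.isT A g c i b)) ?_ ?_ ?_ ?_ ?_ ?_ ?_
  · exact fun i b h h' => ed_intro (N1.u1 hA2 hA3 hT hg hg3 hgT hc i b h h')
  · exact fun b h h' => ed_intro (N1.u2 hA2 hA3 hT hg hg3 hgT hc b h h')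
  · exact fun b h h' => ed_intro (N1.u3 hA2 hA3 hT hg hg3 hgT hc b h h')
  · exact fun i b h => ed_intro (N1.sp hA2 hA3 hT hg hg3 hgT hc i b h)
  · exact fun i b h h' => ed_intro (N1.v1 hA2 hA3 hT hg hg3 hgT hc i b h h')
  · exact fun i h h' => ed_intro (N1.v2 hA2 hA3 hT hg hg3 hgT hc i h h')
  · exact fun i h h' => ed_intro (N1.v3 hA2 hA3 hT hg hg3 hgT hc i h h')

end Pool.Agent.Helper89.EM
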