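import Mathlib

/-!
# Super edge-magic labellings of generalized Petersen graphs: combinatorial form, lifting
-/

set_option autoImplicit false

namespace Pool.Agent.Helper89.EM

/-- A super edge-magic labelling of `P(n,k)` in combinatorial form (`k = 0` is allowed, with loops):
labels `x i` of `u_i` and `y i` of `v_i`. -/
structure Lab (n k s : ℕ) (x y : ℕ → ℕ) : Prop where
  px : ∀ i, x (i + n) = x i
  py : ∀ i, y (i + n) = y i
  lab : ∀ t < 2 * n, ∃ i, x i = t ∨ y i = t
  sum : ∀ t < 3 * n, ∃ i, x i + x (i + 1) = s + t ∨ x i + y i = s + t ∨ y i + y (i + k) = s + t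

def SEM (n k : ℕ) : Prop := ∃ s x y, Lab n k s x y

/-- A relative labelling of the covering `P(mr,k) → P(m,k)`. -/
structure RelLab (m r k : ℕ) (p q : ℕ → ℕ) : Prop where
  pp : ∀ i, p (i + m * r) = p i
  pq : ∀ i, q (i + m * r) = q i
  lp : ∀ i, ∀ e < r, ∃ j, p (i + m * j) = e
  lq : ∀ i, ∀ e < r, ∃ j, q (i + m * j) = e
  su : ∀ i, ∀ e < r, ∃ j, p (i + m * j) + p (i + m * j + 1) = (r - 1) / 2 + e
  sp : ∀ i, ∀ e < r, ∃ j, p (i + m * j) + q (i + m * j) = (r - 1) / 2 + e
  si : ∀ i, ∀ e < r, ∃ j, q (i + m * j) + q (i + m * j + k) = (r - 1) / 2 + e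

def Rel (m r k : ℕ) : Prop := ∃ p q, RelLab m r k p q

/-- A block labelling of `P(r,k)`. -/
abbrev Blk (r k : ℕ) : Prop := Rel 1 r k

theorem per_mul {x : ℕ → ℕ} {n : ℕ} (h : ∀ i, x (i + n) = x i) (i j : ℕ) : x (i + n * j) = x i := by
  induction j with
  | zero => simp
  | succ j ih =>
    rw [Nat.mul_succ, ← Nat.add_assoc, h, ih]

theorem per_mod {x : ℕ → ℕ} {n : ℕ} (h : ∀ i, x (i + n) = x i) (i : ℕ) : x (i % n) = x i := by
  conv_rhs => rw [← Nat.mod_add_div i n]
  rw [per_mul h]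

/-- Lifting. -/
theorem SEM.lift {m r k : ℕ} (hr : 0 < r) (h : SEM m k) (hR : Rel m r k) : SEM (m * r) k := by
  obtain ⟨s, x, y, hL⟩ := h
  obtain ⟨p, q, hp⟩ := hR
  have hx := per_mul hL.px
  have hy := per_mul hL.py
  refine ⟨r * s + (r - 1) / 2, fun i => r * x i + p i, fun i => r * y i + q i, ?_, ?_, ?_, ?_⟩
  · intro i
    simp only [hx, hp.pp]
  · intro i
    simp only [hy, hp.pq]
  · intro t ht
    have h1 : t / r < 2 * m := by
      rw [Nat.div_lt_iff_lt_mul hr]
      calc t < 2 * (m * r) := ht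
        _ = 2 * m * r := by ring
    have h2 : t % r < r := Nat.mod_lt _ hr
    have h3 := Nat.div_add_mod t r
    obtain ⟨i, hi | hi⟩ := hL.lab _ h1
    · obtain ⟨j, hj⟩ := hp.lp i _ h2
      refine ⟨i + m * j, Or.inl ?_⟩
      show r * x (i + m * j) + p (i + m * j) = t
      rw [hx, hi, hj, h3]
    · obtain ⟨j, hj⟩ := hp.lq i _ h2
      refine ⟨i + m * j, Or.inr ?_⟩
      show r * y (i + m * j) + q (i + m * j) = t
      rw [hy, hi, hj, h3]
  · intro t ht
    have h1 : t / r < 3 * m := by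
      rw [Nat.div_lt_iff_lt_mul hr]
      calc t < 3 * (m * r) := ht
        _ = 3 * m * r := by ring
    have h2 : t % r < r := Nat.mod_lt _ hr
    have h3 := Nat.div_add_mod t r
    obtain ⟨i, hi | hi | hi⟩ := hL.sum _ h1
    · obtain ⟨j, hj⟩ := hp.su i _ h2
      refine ⟨i + m * j, Or.inl ?_⟩
      show r * x (i + m * j) + p (i + m * j) + (r * x (i + m * j + 1) + p (i + m * j + 1)) = _
      have e1 : x (i + m * j + 1) = x (i + 1) := by
        rw [show i + m * j + 1 = (i + 1) + m * j by ring, hx]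
      rw [hx, e1]
      calc r * x i + p (i + m * j) + (r * x (i + 1) + p (i + m * j + 1))
          = r * (x i + x (i + 1)) + (p (i + m * j) + p (i + m * j + 1)) := by ring
        _ = r * (s + t / r) + ((r - 1) / 2 + t % r) := by rw [hi, hj]
        _ = r * s + (r - 1) / 2 + (r * (t / r) + t % r) := by ring
        _ = _ := by rw [h3]
    · obtain ⟨j, hj⟩ := hp.sp i _ h2
      refine ⟨i + m * j, Or.inr (Or.inl ?_)⟩
      show r * x (i + m * j) + p (i + m * j) + (r * y (i + m * j) + q (i + m * j)) = _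
      rw [hx, hy]
      calc r * x i + p (i + m * j) + (r * y i + q (i + m * j))
          = r * (x i + y i) + (p (i + m * j) + q (i + m * j)) := by ring
        _ = r * (s + t / r) + ((r - 1) / 2 + t % r) := by rw [hi, hj]
        _ = r * s + (r - 1) / 2 + (r * (t / r) + t % r) := by ring
        _ = _ := by rw [h3]
    · obtain ⟨j, hj⟩ := hp.si i _ h2
      refine ⟨i + m * j, Or.inr (Or.inr ?_)⟩
      show r * y (i + m * j) + q (i + m * j) + (r * y (i + m * j + k) + q (i + m * j + k)) = _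
      have e1 : y (i + m * j + k) = y (i + k) := by
        rw [show i + m * j + k = (i + k) + m * j by ring, hy]
      rw [hy, e1]
      calc r * y i + q (i + m * j) + (r * y (i + k) + q (i + m * j + k))
          = r * (y i + y (i + k)) + (q (i + m * j) + q (i + m * j + k)) := by ring
        _ = r * (s + t / r) + ((r - 1) / 2 + t % r) := by rw [hi, hj]
        _ = r * s + (r - 1) / 2 + (r * (t / r) + t % r) := by ring
        _ = _ := by rw [h3]

/-- The trivial labelling of `P(1,k)`. -/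
theorem sem_one (k : ℕ) : SEM 1 k := by
  refine ⟨0, fun _ => 0, fun _ => 1, fun _ => rfl, fun _ => rfl, ?_, ?_⟩
  · intro t ht
    refine ⟨0, ?_⟩
    show (0 = t ∨ 1 = t)
    omega
  · intro t ht
    refine ⟨0, ?_⟩
    show (0 + 0 = 0 + t ∨ 0 + 1 = 0 + t ∨ 1 + 1 = 0 + t)
    omega

theorem SEM.of_blk {r k : ℕ} (hr : 0 < r) (h : Blk r k) : SEM r k := by
  have := (sem_one k).lift hr h
  rwa [one_mul] at this

/-- Composition of relative labellings (odd degrees). -/
theorem Rel.comp {l m r k : ℕ} (hm : m % 2 = 1) (hr : r % 2 = 1) (h : Rel l m k)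
    (hR : Rel (l * m) r k) : Rel l (m * r) k := by
  obtain ⟨x, y, hx⟩ := h
  obtain ⟨p, q, hp⟩ := hR
  have hr0 : 0 < r := by omega
  have hpx := per_mul hx.pp
  have hpy := per_mul hx.pq
  have hs : r * ((m - 1) / 2) + (r - 1) / 2 = (m * r - 1) / 2 := by
    obtain ⟨a, rfl⟩ : ∃ a, m = 2 * a + 1 := ⟨m / 2, by omega⟩
    obtain ⟨b, rfl⟩ : ∃ b, r = 2 * b + 1 := ⟨r / 2, by omega⟩
    have e1 : (2 * a + 1) * (2 * b + 1) - 1 = 2 * ((2 * b + 1) * a + b) := by
      have : (2 * a + 1) * (2 * b + 1) = 2 * ((2 * b + 1) * a + b) + 1 := by ring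
      omega
    rw [e1, Nat.mul_div_cancel_left _ (by norm_num)]
    have e2 : (2 * a + 1 - 1) / 2 = a := by omega
    have e3 : (2 * b + 1 - 1) / 2 = b := by omega
    rw [e2, e3]
  have hdiv : ∀ e < m * r, e / r < m ∧ e % r < r ∧ r * (e / r) + e % r = e := fun e he =>
    ⟨(Nat.div_lt_iff_lt_mul hr0).2 he, Nat.mod_lt _ hr0, Nat.div_add_mod e r⟩
  have hidx : ∀ i j j', i + l * j + l * m * j' = i + l * (j + m * j') := fun i j j' => by ring
  refine ⟨fun i => r * x i + p i, fun i => r * y i + q i, ?_, ?_, ?_, ?_, ?_, ?_, ?_⟩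
  · intro i
    have e1 : i + l * (m * r) = i + l * m * r := by ring
    simp only [e1, hpx, hp.pp]
  · intro i
    have e1 : i + l * (m * r) = i + l * m * r := by ring
    simp only [e1, hpy, hp.pq]
  · intro i e he
    obtain ⟨h1, h2, h3⟩ := hdiv e he
    obtain ⟨j, hj⟩ := hx.lp i _ h1
    obtain ⟨j', hj'⟩ := hp.lp (i + l * j) _ h2
    refine ⟨j + m * j', ?_⟩
    show r * x (i + l * (j + m * j')) + p (i + l * (j + m * j')) = e
    rw [← hidx, hpx, hj, hj', h3]
  · intro i e he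
    obtain ⟨h1, h2, h3⟩ := hdiv e he
    obtain ⟨j, hj⟩ := hx.lq i _ h1
    obtain ⟨j', hj'⟩ := hp.lq (i + l * j) _ h2
    refine ⟨j + m * j', ?_⟩
    show r * y (i + l * (j + m * j')) + q (i + l * (j + m * j')) = e
    rw [← hidx, hpy, hj, hj', h3]
  · intro i e he
    obtain ⟨h1, h2, h3⟩ := hdiv e he
    obtain ⟨j, hj⟩ := hx.su i _ h1
    obtain ⟨j', hj'⟩ := hp.su (i + l * j) _ h2
    refine ⟨j + m * j', ?_⟩
    show r * x (i + l * (j + m * j')) + p (i + l * (j + m * j')) +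
      (r * x (i + l * (j + m * j') + 1) + p (i + l * (j + m * j') + 1)) = _
    rw [← hidx]
    have e1 : x (i + l * j + l * m * j' + 1) = x (i + l * j + 1) := by
      rw [show i + l * j + l * m * j' + 1 = (i + l * j + 1) + l * m * j' by ring, hpx]
    rw [hpx, e1]
    calc r * x (i + l * j) + p (i + l * j + l * m * j') +
        (r * x (i + l * j + 1) + p (i + l * j + l * m * j' + 1))
        = r * (x (i + l * j) + x (i + l * j + 1)) +
          (p (i + l * j + l * m * j') + p (i + l * j + l * m * j' + 1)) := by ring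
      _ = r * ((m - 1) / 2 + e / r) + ((r - 1) / 2 + e % r) := by rw [hj, hj']
      _ = r * ((m - 1) / 2) + (r - 1) / 2 + (r * (e / r) + e % r) := by ring
      _ = _ := by rw [h3, hs]
  · intro i e he
    obtain ⟨h1, h2, h3⟩ := hdiv e he
    obtain ⟨j, hj⟩ := hx.sp i _ h1
    obtain ⟨j', hj'⟩ := hp.sp (i + l * j) _ h2
    refine ⟨j + m * j', ?_⟩
    show r * x (i + l * (j + m * j')) + p (i + l * (j + m * j')) +
      (r * y (i + l * (j + m * j')) + q (i + l * (j + m * j'))) = _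
    rw [← hidx, hpx, hpy]
    calc r * x (i + l * j) + p (i + l * j + l * m * j') +
        (r * y (i + l * j) + q (i + l * j + l * m * j'))
        = r * (x (i + l * j) + y (i + l * j)) +
          (p (i + l * j + l * m * j') + q (i + l * j + l * m * j')) := by ring
      _ = r * ((m - 1) / 2 + e / r) + ((r - 1) / 2 + e % r) := by rw [hj, hj']
      _ = r * ((m - 1) / 2) + (r - 1) / 2 + (r * (e / r) + e % r) := by ring
      _ = _ := by rw [h3, hs]
  · intro i e he
    obtain ⟨h1, h2, h3⟩ := hdiv e he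
    obtain ⟨j, hj⟩ := hx.si i _ h1
    obtain ⟨j', hj'⟩ := hp.si (i + l * j) _ h2
    refine ⟨j + m * j', ?_⟩
    show r * y (i + l * (j + m * j')) + q (i + l * (j + m * j')) +
      (r * y (i + l * (j + m * j') + k) + q (i + l * (j + m * j') + k)) = _
    rw [← hidx]
    have e1 : y (i + l * j + l * m * j' + k) = y (i + l * j + k) := by
      rw [show i + l * j + l * m * j' + k = (i + l * j + k) + l * m * j' by ring, hpy]
    rw [hpy, e1]
    calc r * y (i + l * j) + q (i + l * j + l * m * j') +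
        (r * y (i + l * j + k) + q (i + l * j + l * m * j' + k))
        = r * (y (i + l * j) + y (i + l * j + k)) +
          (q (i + l * j + l * m * j') + q (i + l * j + l * m * j' + k)) := by ring
      _ = r * ((m - 1) / 2 + e / r) + ((r - 1) / 2 + e % r) := by rw [hj, hj']
      _ = r * ((m - 1) / 2) + (r - 1) / 2 + (r * (e / r) + e % r) := by ring
      _ = _ := by rw [h3, hs]

theorem per_congr {x : ℕ → ℕ} {n : ℕ} (h : ∀ i, x (i + n) = x i) {a b : ℕ}
    (hab : a ≡ b [MOD n]) : x a = x b := by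
  rw [← per_mod h a, ← per_mod h b, hab]

/-- Block labellings give relative labellings of coprime coverings. -/
theorem Rel.of_blk {m r k : ℕ} (hr : 0 < r) (hc : Nat.Coprime m r) (h : Blk r k) : Rel m r k := by
  obtain ⟨p, q, hp⟩ := h
  have h1 : ∀ i, p (i + r) = p i := fun i => by have := hp.pp i; rwa [one_mul] at this
  have h2 : ∀ i, q (i + r) = q i := fun i => by have := hp.pq i; rwa [one_mul] at this
  have key : ∀ i j : ℕ, ∃ j', i + m * j' ≡ i + 1 * j [MOD r] := by
    intro i j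
    obtain ⟨j', -, hj'⟩ := Nat.exists_mul_mod_eq_of_coprime j hc hr.ne'
    refine ⟨j', Nat.ModEq.add_left i ?_⟩
    rw [one_mul]
    exact hj'
  refine ⟨p, q, ?_, ?_, ?_, ?_, ?_, ?_, ?_⟩
  · intro i
    rw [Nat.mul_comm, per_mul h1]
  · intro i
    rw [Nat.mul_comm, per_mul h2]
  · intro i e he
    obtain ⟨j, hj⟩ := hp.lp i e he
    obtain ⟨j', hj'⟩ := key i j
    exact ⟨j', by rw [per_congr h1 hj', hj]⟩
  · intro i e he
    obtain ⟨j, hj⟩ := hp.lq i e he
    obtain ⟨j', hj'⟩ := key i j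
    exact ⟨j', by rw [per_congr h2 hj', hj]⟩
  · intro i e he
    obtain ⟨j, hj⟩ := hp.su i e he
    obtain ⟨j', hj'⟩ := key i j
    exact ⟨j', by rw [per_congr h1 hj', per_congr h1 (hj'.add_right 1), hj]⟩
  · intro i e he
    obtain ⟨j, hj⟩ := hp.sp i e he
    obtain ⟨j', hj'⟩ := key i j
    exact ⟨j', by rw [per_congr h1 hj', per_congr h2 hj', hj]⟩
  · intro i e he
    obtain ⟨j, hj⟩ := hp.si i e he
    obtain ⟨j', hj'⟩ := key i j
    exact ⟨j', by rw [per_congr h2 hj', per_congr h2 (hj'.add_right k), hj]⟩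

/-- Block labellings depend on `k` modulo `r` only. -/
theorem Blk.congr {r k k' : ℕ} (hk : k ≡ k' [MOD r]) (h : Blk r k) : Blk r k' := by
  obtain ⟨p, q, hp⟩ := h
  have h2 : ∀ i, q (i + r) = q i := fun i => by have := hp.pq i; rwa [one_mul] at this
  refine ⟨p, q, hp.pp, hp.pq, hp.lp, hp.lq, hp.su, hp.sp, ?_⟩
  intro i e he
  obtain ⟨j, hj⟩ := hp.si i e he
  exact ⟨j, by rw [← per_congr h2 (hk.add_left (i + 1 * j)), hj]⟩

theorem SEM.congr {n k k' : ℕ} (hk : k ≡ k' [MOD n]) (h : SEM n k) : SEM n k' := by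
  obtain ⟨s, x, y, hL⟩ := h
  refine ⟨s, x, y, hL.px, hL.py, hL.lab, ?_⟩
  intro t ht
  obtain ⟨i, hi | hi | hi⟩ := hL.sum t ht
  · exact ⟨i, Or.inl hi⟩
  · exact ⟨i, Or.inr (Or.inl hi)⟩
  · exact ⟨i, Or.inr (Or.inr (by rw [← per_congr hL.py (hk.add_left i), hi]))⟩

/-- `P(n,k) = P(n,-k)`. -/
theorem SEM.neg {n k k' : ℕ} (hk : k + k' ≡ 0 [MOD n]) (h : SEM n k) : SEM n k' := by
  obtain ⟨s, x, y, hL⟩ := h
  refine ⟨s, x, y, hL.px, hL.py, hL.lab, ?_⟩
  intro t ht
  obtain ⟨i, hi | hi | hi⟩ := hL.sum t ht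
  · exact ⟨i, Or.inl hi⟩
  · exact ⟨i, Or.inr (Or.inl hi)⟩
  · refine ⟨i + k, Or.inr (Or.inr ?_)⟩
    have e1 : i + k + k' ≡ i [MOD n] := by
      have := hk.add_left i
      rwa [← Nat.add_assoc, Nat.add_zero] at this
    rw [per_congr hL.py e1, Nat.add_comm]
    exact hi

theorem Blk.neg {r k k' : ℕ} (hk : k + k' ≡ 0 [MOD r]) (h : Blk r k) : Blk r k' := by
  obtain ⟨p, q, hp⟩ := h
  have h2 : ∀ i, q (i + r) = q i := fun i => by have := hp.pq i; rwa [one_mul] at this
  refine ⟨p, q, hp.pp, hp.pq, hp.lp, hp.lq, hp.su, hp.sp, ?_⟩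
  intro i e he
  obtain ⟨j, hj⟩ := hp.si i e he
  refine ⟨j + k, ?_⟩
  have e1 : i + 1 * (j + k) + k' ≡ i + 1 * j [MOD r] := by
    have := hk.add_left (i + 1 * j)
    rwa [← Nat.add_assoc, Nat.add_zero, show i + 1 * j + k = i + 1 * (j + k) by ring] at this
  rw [per_congr h2 e1, show i + 1 * (j + k) = i + 1 * j + k by ring, Nat.add_comm]
  exact hj

/-- `P(r,k) = P(r,1/k)`, the rims exchanged. -/
theorem Blk.inv {r k k' : ℕ} (hr : 0 < r) (hk : k * k' ≡ 1 [MOD r]) (h : Blk r k) : Blk r k' := by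
  obtain ⟨p, q, hp⟩ := h
  have h1 : ∀ i, p (i + r) = p i := fun i => by have := hp.pp i; rwa [one_mul] at this
  have h2 : ∀ i, q (i + r) = q i := fun i => by have := hp.pq i; rwa [one_mul] at this
  have key : ∀ i j : ℕ, ∃ j', k * (i + 1 * j') ≡ 0 + 1 * j [MOD r] := by
    intro i j
    refine ⟨k' * j + (r - 1) * i, ?_⟩
    obtain ⟨r', rfl⟩ : ∃ r', r = r' + 1 := ⟨r - 1, by omega⟩
    have e1 : k * (i + 1 * (k' * j + (r' + 1 - 1) * i)) = k * k' * j + (r' + 1) * (k * i) := by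
      rw [Nat.add_sub_cancel]
      ring
    rw [e1]
    have e2 : k * k' * j ≡ 1 * j [MOD (r' + 1)] := hk.mul_right j
    have e3 : (r' + 1) * (k * i) ≡ 0 [MOD (r' + 1)] := by
      rw [Nat.modEq_zero_iff_dvd]
      exact dvd_mul_right _ _
    have := e2.add e3
    rwa [Nat.add_zero, Nat.add_comm, ← Nat.add_comm, show (1 * j : ℕ) = 0 + 1 * j by ring] at this
  refine ⟨fun i => q (k * i), fun i => p (k * i), ?_, ?_, ?_, ?_, ?_, ?_, ?_⟩
  · intro i
    refine per_congr h2 ?_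
    have : k * (i + 1 * r) = k * i + r * k := by ring
    rw [this]
    simp [Nat.ModEq]
  · intro i
    refine per_congr h1 ?_
    have : k * (i + 1 * r) = k * i + r * k := by ring
    rw [this]
    simp [Nat.ModEq]
  · intro i e he
    obtain ⟨j, hj⟩ := hp.lq 0 e he
    obtain ⟨j', hj'⟩ := key i j
    exact ⟨j', by rw [per_congr h2 hj', hj]⟩
  · intro i e he
    obtain ⟨j, hj⟩ := hp.lp 0 e he
    obtain ⟨j', hj'⟩ := key i j
    exact ⟨j', by rw [per_congr h1 hj', hj]⟩
  · intro i e he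
    obtain ⟨j, hj⟩ := hp.si 0 e he
    obtain ⟨j', hj'⟩ := key i j
    refine ⟨j', ?_⟩
    show q (k * (i + 1 * j')) + q (k * (i + 1 * j' + 1)) = _
    rw [show k * (i + 1 * j' + 1) = k * (i + 1 * j') + k by ring, per_congr h2 hj',
      per_congr h2 (hj'.add_right k), hj]
  · intro i e he
    obtain ⟨j, hj⟩ := hp.sp 0 e he
    obtain ⟨j', hj'⟩ := key i j
    refine ⟨j', ?_⟩
    show q (k * (i + 1 * j')) + p (k * (i + 1 * j')) = _
    rw [per_congr h2 hj', per_congr h1 hj', Nat.add_comm, hj]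
  · intro i e he
    obtain ⟨j, hj⟩ := hp.su 0 e he
    obtain ⟨j', hj'⟩ := key i j
    refine ⟨j', ?_⟩
    show p (k * (i + 1 * j')) + p (k * (i + 1 * j' + k')) = _
    have e1 : k * (i + 1 * j' + k') ≡ 0 + 1 * j + 1 [MOD r] := by
      rw [show k * (i + 1 * j' + k') = k * (i + 1 * j') + k * k' by ring]
      exact hj'.add hk
    rw [per_congr h1 hj', per_congr h1 e1, hj]

end Pool.Agent.Helper89.EM
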