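import Pool.Agent.Helper89.EM.Dom
import Pool.Agent.Helper89.EM.Net1
import Pool.Agent.Helper92.EM.Lattice

/-!
# The coverings whose short vector is vertical: inner cycles of odd length `A` that lift trivially
-/

set_option autoImplicit false
set_option linter.unusedVariables false

namespace Pool.Agent.Helper89.EM

theorem rel_rect {w A r c₀ z : ℕ} (hr : r % 2 = 1) (hAr : Nat.Coprime A r) (hw : 0 < w)
    (hA : 0 < A) (hc₀ : (c₀ * (r * z)) ≡ 1 [MOD A]) (X Y : ℕ → ℕ → ℤ) (α β : ℕ → ℕ → Bool)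
    (hu1 : ∀ i b, i + 1 < w → b < A → Ed (α i b) (α (i + 1) b) (X (i + 1) b - X i b))
    (hu2 : ∀ b, b < A → Ed (α (w - 1) b) (α 0 ((b + c₀) % A)) (X 0 ((b + c₀) % A) + 1 - X (w - 1) b))
    (hs : ∀ i b, i < w → b < A → Ed (α i b) (β i b) (Y i b - X i b))
    (hv : ∀ i b, i < w → b < A → Ed (β i b) (β i ((b + 1) % A)) (Y i ((b + 1) % A) - Y i b)) :
    Rel (w * A) r (w * (r * z)) := by
  have e1 : ∀ i t : ℕ, (i + w * t) / w = i / w + t := fun i t => Nat.add_mul_div_left i t hw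
  have e2 : ∀ i t : ℕ, (i + w * t) % w = i % w := fun i t => Nat.add_mul_mod_self_left i w t
  have e3 : ∀ i : ℕ, (c₀ * (i / w + A)) % A = (c₀ * (i / w)) % A := fun i => by
    rw [mul_add, Nat.add_mul_mod_self_right]
  have e4 : ∀ i : ℕ, (c₀ * (i / w + r * z)) % A = ((c₀ * (i / w)) % A + 1) % A := fun i => by
    rw [mul_add, Nat.mod_add_mod]
    exact Nat.ModEq.add_left _ hc₀
  refine engine (A := (A : ℤ)) hr (fun i => X (i % w) ((c₀ * (i / w)) % A) + ((i / w : ℕ) : ℤ))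
    (fun i => Y (i % w) ((c₀ * (i / w)) % A) + ((i / w : ℕ) : ℤ))
    (fun i => α (i % w) ((c₀ * (i / w)) % A)) (fun i => β (i % w) ((c₀ * (i / w)) % A)) ?_ ?_ ?_ ?_
    ?_ ?_ ?_ ?_
  · exact Nat.isCoprime_iff_coprime.2 hAr
  · intro i
    simp only [e1, e2, e3]
    refine ⟨0, ?_⟩
    push_cast
    ring
  · intro i
    simp only [e1, e2, e3]
    refine ⟨0, ?_⟩
    push_cast
    ring
  · intro i
    simp only [e1, e2, e3]
  · intro i
    simp only [e1, e2, e3]
  · intro i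
    have hb : (c₀ * (i / w)) % A < A := Nat.mod_lt _ hA
    have hi := Nat.mod_lt i hw
    by_cases h : i % w + 1 < w
    · obtain ⟨h1, h2⟩ : (i + 1) / w = i / w ∧ (i + 1) % w = i % w + 1 := by
        have h0 := Nat.div_add_mod i w
        have h0' : i + 1 = (i % w + 1) + w * (i / w) := by omega
        constructor
        · rw [h0', Nat.add_mul_div_left _ _ hw, Nat.div_eq_of_lt h, Nat.zero_add]
        · rw [h0', Nat.add_mul_mod_self_left, Nat.mod_eq_of_lt h]
      obtain ⟨s, hs1, hs2⟩ := hu1 (i % w) _ h hb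
      refine ⟨s, hs1, 0, ?_⟩
      simp only [h1, h2]
      rw [mul_zero]
      linear_combination hs2
    · have h5 : i % w = w - 1 := by omega
      obtain ⟨h1, h2⟩ : (i + 1) / w = i / w + 1 ∧ (i + 1) % w = 0 := by
        have h0 := Nat.div_add_mod i w
        have h0' : i + 1 = 0 + w * (i / w + 1) := by
          rw [mul_add]
          omega
        constructor
        · rw [h0', Nat.add_mul_div_left _ _ hw]
          simp
        · rw [h0', Nat.add_mul_mod_self_left]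
          exact Nat.zero_mod w
      have h6 : (c₀ * (i / w + 1)) % A = ((c₀ * (i / w)) % A + c₀) % A := by
        rw [mul_add, mul_one, Nat.mod_add_mod]
      obtain ⟨s, hs1, hs2⟩ := hu2 _ hb
      refine ⟨s, hs1, 0, ?_⟩
      simp only [h1, h2, h5, h6]
      rw [mul_zero]
      push_cast
      linear_combination hs2
  · intro i
    obtain ⟨s, hs1, hs2⟩ := hs (i % w) _ (Nat.mod_lt i hw) (Nat.mod_lt (c₀ * (i / w)) hA)
    refine ⟨s, hs1, 0, ?_⟩
    rw [mul_zero]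
    linear_combination hs2
  · intro i
    obtain ⟨s, hs1, hs2⟩ := hv (i % w) _ (Nat.mod_lt i hw) (Nat.mod_lt (c₀ * (i / w)) hA)
    refine ⟨s, hs1, z, ?_⟩
    simp only [e1, e2, e4]
    push_cast
    linear_combination hs2

namespace N0

/-- outer vertices of depth one -/
def isN (c i b : ℤ) : Prop := i = 2 ∨ (i = 1 ∧ b = 0) ∨ (i = 3 ∧ b = c)

instance (c i b : ℤ) : Decidable (isN c i b) := by
  unfold isN
  infer_instance

/-- isolated inner vertices -/
def isT (c i b : ℤ) : Prop := (i ≤ 1 ∧ b = 0) ∨ (2 ≤ i ∧ b = c)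

instance (c i b : ℤ) : Decidable (isT c i b) := by
  unfold isT
  infer_instance

/-- outer heights -/
def xv (c i b : ℤ) : ℤ :=
  if i = 2 then (if b < c then 1 - sgn b else 1 + sgn b)
  else if i ≤ 1 then (if b = 0 then i % 2 + 1 else i % 2)
  else (if b = c then (if i = 3 then 0 else i % 2 + 1) else i % 2)

/-- inner heights -/
def yv (c i b : ℤ) : ℤ :=
  if i = 2 then (if b = 0 then 2 else if b = c then 1 else if b < c then -1 - sgn b else 3 + sgn b)
  else if i ≤ 1 then (if b = 0 then i % 2 else i % 2 + sgn b)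
  else (if b = c then i % 2 else if b < c then i % 2 - sgn b else i % 2 + sgn b)

theorem u1 {A w c : ℤ} (hA : A % 2 = 1) (hc2 : c % 2 = 0) (hc : 2 ≤ c) (hcA : c < A)
    (hw : w % 2 = 1) (hw5 : 5 ≤ w) (i b : ℤ) (h1 : 0 ≤ i) (h2 : i + 1 < w) (h3 : 0 ≤ b)
    (h4 : b < A) :
    (isN c i b ∧ isN c (i + 1) b ∧ (xv c (i + 1) b - xv c i b = 2 ∨ xv c (i + 1) b - xv c i b = -2)) ∨
    (¬ (isN c i b ∧ isN c (i + 1) b) ∧ (xv c (i + 1) b - xv c i b = 1 ∨ xv c (i + 1) b - xv c i b = -1)) := by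
  by_cases t1 : isN c i b
  · by_cases t2 : isN c (i + 1) b
    · left
      refine ⟨t1, t2, ?_⟩
      unfold isN at t1 t2
      unfold xv sgn
      omega
    · right
      refine ⟨fun h => t2 h.2, ?_⟩
      unfold isN at t1 t2
      unfold xv sgn
      omega
  · right
    refine ⟨fun h => t1 h.1, ?_⟩
    unfold isN at t1
    unfold xv sgn
    omega

theorem u2 {A w c b' : ℤ} (hA : A % 2 = 1) (hc2 : c % 2 = 0) (hc : 2 ≤ c) (hcA : c < A)
    (hw : w % 2 = 1) (hw5 : 5 ≤ w) (b : ℤ) (h3 : 0 ≤ b) (h4 : b < A)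
    (hb : b' = b - c ∨ b' = b - c + A) (h5 : 0 ≤ b') (h6 : b' < A) :
    (isN c (w - 1) b ∧ isN c 0 b' ∧ (xv c 0 b' + 1 - xv c (w - 1) b = 2 ∨ xv c 0 b' + 1 - xv c (w - 1) b = -2)) ∨
    (¬ (isN c (w - 1) b ∧ isN c 0 b') ∧ (xv c 0 b' + 1 - xv c (w - 1) b = 1 ∨ xv c 0 b' + 1 - xv c (w - 1) b = -1)) := by
  right
  refine ⟨fun h => ?_, ?_⟩
  · have := h.2
    unfold isN at this
    omega
  · unfold xv
    omega

theorem sp {A w c : ℤ} (hA : A % 2 = 1) (hc2 : c % 2 = 0) (hc : 2 ≤ c) (hcA : c < A)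
    (hw : w % 2 = 1) (hw5 : 5 ≤ w) (i b : ℤ) (h1 : 0 ≤ i) (h2 : i < w) (h3 : 0 ≤ b)
    (h4 : b < A) :
    (isN c i b ∧ ¬ isT c i b ∧ (yv c i b - xv c i b = 2 ∨ yv c i b - xv c i b = -2)) ∨
    (¬ (isN c i b ∧ ¬ isT c i b) ∧ (yv c i b - xv c i b = 1 ∨ yv c i b - xv c i b = -1)) := by
  by_cases t1 : isN c i b
  · by_cases t2 : isT c i b
    · right
      refine ⟨fun h => h.2 t2, ?_⟩
      unfold isN at t1
      unfold isT at t2
      unfold xv yv sgn
      omega
    · left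
      refine ⟨t1, t2, ?_⟩
      unfold isN at t1
      unfold isT at t2
      unfold xv yv sgn
      omega
  · right
    refine ⟨fun h => t1 h.1, ?_⟩
    unfold isN at t1
    unfold xv yv sgn
    omega

theorem v1 {A w c b' : ℤ} (hA : A % 2 = 1) (hc2 : c % 2 = 0) (hc : 2 ≤ c) (hcA : c < A)
    (hw : w % 2 = 1) (hw5 : 5 ≤ w) (i b : ℤ) (h1 : 0 ≤ i) (h2 : i < w) (h3 : 0 ≤ b)
    (h4 : b < A) (hb : b' = b + 1 ∨ b' = b + 1 - A) (h5 : 0 ≤ b') (h6 : b' < A) :
    (¬ isT c i b ∧ ¬ isT c i b' ∧ (yv c i b' - yv c i b = 2 ∨ yv c i b' - yv c i b = -2)) ∨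
    (¬ (¬ isT c i b ∧ ¬ isT c i b') ∧ (yv c i b' - yv c i b = 1 ∨ yv c i b' - yv c i b = -1)) := by
  by_cases t1 : isT c i b
  · right
    refine ⟨fun h => h.1 t1, ?_⟩
    unfold isT at t1
    unfold yv sgn
    omega
  · by_cases t2 : isT c i b'
    · right
      refine ⟨fun h => h.2 t2, ?_⟩
      unfold isT at t1 t2
      unfold yv sgn
      omega
    · left
      refine ⟨t1, t2, ?_⟩
      unfold isT at t1 t2
      unfold yv sgn
      omega

end N0

theorem rel_flat_odd {w A r c₀ z : ℕ} (hw : w % 2 = 1) (hw5 : 5 ≤ w) (hA : A % 2 = 1)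
    (hA3 : 3 ≤ A) (hr : r % 2 = 1) (hAr : Nat.Coprime A r) (hc₀ : c₀ * (r * z) ≡ 1 [MOD A])
    (hco : c₀ % 2 = 1) (hcA : c₀ < A) : Rel (w * A) r (w * (r * z)) := by
  obtain ⟨c, hc⟩ : ∃ c : ℤ, c = (A : ℤ) - c₀ := ⟨_, rfl⟩
  have q1 : (A : ℤ) % 2 = 1 := by omega
  have q2 : c % 2 = 0 := by omega
  have q3 : 2 ≤ c := by omega
  have q4 : c < A := by omega
  have q5 : (w : ℤ) % 2 = 1 := by omega
  have q6 : (5 : ℤ) ≤ w := by omega
  refine rel_rect hr hAr (by omega) (by omega) hc₀ (fun i b => N0.xv c i b) (fun i b => N0.yv c i b)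
    (fun i b => decide (N0.isN c i b)) (fun i b => decide (¬ N0.isT c i b)) ?_ ?_ ?_ ?_
  · intro i b h1 h2
    have h := N0.u1 q1 q2 q3 q4 q5 q6 (i : ℤ) (b : ℤ) (by omega) (by omega) (by omega) (by omega)
    have h' := ed_intro h
    simpa using h'
  · intro b h1
    have hb : (b + c₀) % A = b + c₀ ∨ (b + c₀) % A = b + c₀ - A ∧ A ≤ b + c₀ := by
      by_cases h : b + c₀ < A
      · exact Or.inl (Nat.mod_eq_of_lt h)
      · refine Or.inr ⟨?_, by omega⟩
        rw [Nat.mod_eq_sub_mod (by omega), Nat.mod_eq_of_lt (by omega)]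
    have hlt : (b + c₀) % A < A := Nat.mod_lt _ (by omega)
    have h := N0.u2 (b' := (((b + c₀) % A : ℕ) : ℤ)) q1 q2 q3 q4 q5 q6 (b : ℤ) (by omega) (by omega)
      (by omega) (by omega) (by omega)
    have h' := ed_intro h
    have e : ((w - 1 : ℕ) : ℤ) = (w : ℤ) - 1 := by omega
    simpa [e] using h'
  · intro i b h1 h2
    have h := N0.sp q1 q2 q3 q4 q5 q6 (i : ℤ) (b : ℤ) (by omega) (by omega) (by omega) (by omega)
    exact ed_intro h
  · intro i b h1 h2
    have hb : (b + 1) % A = b + 1 ∨ (b + 1) % A = b + 1 - A ∧ A ≤ b + 1 := by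
      by_cases h : b + 1 < A
      · exact Or.inl (Nat.mod_eq_of_lt h)
      · refine Or.inr ⟨?_, by omega⟩
        rw [Nat.mod_eq_sub_mod (by omega), Nat.mod_eq_of_lt (by omega)]
    have hlt : (b + 1) % A < A := Nat.mod_lt _ (by omega)
    have h := N0.v1 (b' := (((b + 1) % A : ℕ) : ℤ)) q1 q2 q3 q4 q5 q6 (i : ℤ) (b : ℤ) (by omega)
      (by omega) (by omega) (by omega) (by omega) (by omega) (by omega)
    exact ed_intro h

/-- **Inner cycles of odd length `A` prime to `r` that lift trivially.** -/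
theorem rel_flat {w A r z : ℕ} (hw : w % 2 = 1) (hw5 : 5 ≤ w) (hA : A % 2 = 1) (hA3 : 3 ≤ A)
    (hr : r % 2 = 1) (hAr : Nat.Coprime A r) (hz : Nat.Coprime z A) :
    Rel (w * A) r (w * (r * z)) := by
  have hcop : Nat.Coprime (r * z) A := Nat.Coprime.mul_left hAr.symm hz
  obtain ⟨c, hcA, hc⟩ := Nat.exists_mul_mod_eq_of_coprime 1 hcop (by omega : A ≠ 0)
  have hc1 : c * (r * z) ≡ 1 [MOD A] := by
    rw [mul_comm]
    exact hc
  have hc0 : 0 < c := by
    rcases Nat.eq_zero_or_pos c with h | h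
    · rw [h, mul_zero, Nat.zero_mod, Nat.mod_eq_of_lt (by omega : 1 < A)] at hc
      omega
    · exact h
  rcases Nat.mod_two_eq_zero_or_one c with h2 | h2
  · -- the other orientation
    have h3 : (A - c) * (r * (z * (A - 1))) ≡ 1 [MOD A] := by
      have e1 : (A - c) * (r * (z * (A - 1))) ≡ c * (r * z) [MOD A] := by
        rw [← Int.natCast_modEq_iff]
        refine Int.modEq_iff_dvd.2 ⟨(r : ℤ) * z * (1 + c - A), ?_⟩
        push_cast [Nat.cast_sub hcA.le, Nat.cast_sub (by omega : 1 ≤ A)]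
        ring
      exact e1.trans hc1
    have h4 := rel_flat_odd (w := w) hw hw5 hA hA3 hr hAr h3 (by omega) (by omega)
    refine h4.neg ?_
    rw [Nat.modEq_zero_iff_dvd]
    refine ⟨z, ?_⟩
    obtain ⟨a, rfl⟩ : ∃ a, A = a + 1 := ⟨A - 1, by omega⟩
    rw [Nat.add_sub_cancel]
    ring
  · exact rel_flat_odd hw hw5 hA hA3 hr hAr hc1 h2 hcA

end Pool.Agent.Helper89.EM
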