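import Pool.Agent.Helper89.EM.Basic

/-!
# Threefold coverings: every one has a relative labelling
-/

set_option autoImplicit false

namespace Pool.Agent.Helper89.EM

theorem dbl {m : ℕ} : ∀ N σ : ℕ, m - σ ≤ N → 0 < σ → σ ≤ 2 * m →
    ∃ j, m ≤ 2 ^ j * σ ∧ 2 ^ j * σ ≤ 2 * m := by
  intro N
  induction N with
  | zero =>
    intro σ h h0 h1
    exact ⟨0, by rw [pow_zero]; omega, by rw [pow_zero]; omega⟩
  | succ N ih =>
    intro σ h h0 h1
    by_cases hs : m ≤ σ
    · exact ⟨0, by rw [pow_zero]; omega, by rw [pow_zero]; omega⟩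
    · obtain ⟨j, h2, h3⟩ := ih (2 * σ) (by omega) (by omega) (by omega)
      refine ⟨j + 1, ?_, ?_⟩
      · rwa [pow_succ, Nat.mul_assoc]
      · rwa [pow_succ, Nat.mul_assoc]

theorem exists_mult {m k : ℕ} (hm : 0 < m) (hk : ¬ 3 * m ∣ k) :
    ∃ w, w % 3 ≠ 0 ∧ m ≤ (w * k) % (3 * m) ∧ (w * k) % (3 * m) ≤ 2 * m := by
  have hρ0 : 0 < k % (3 * m) := Nat.pos_of_ne_zero fun h => hk (Nat.dvd_of_mod_eq_zero h)
  have hρ1 : k % (3 * m) < 3 * m := Nat.mod_lt _ (by omega)
  set ρ := k % (3 * m) with hρ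
  have h3 : ∀ j : ℕ, 2 ^ j % 3 ≠ 0 := by
    intro j h
    have h4 : 3 ∣ 2 ^ j := Nat.dvd_of_mod_eq_zero h
    have h5 := (Nat.prime_three.dvd_of_dvd_pow h4)
    omega
  rcases Nat.lt_or_ge (2 * m) ρ with h | h
  · obtain ⟨j, h1, h2⟩ := dbl (m := m) m (3 * m - ρ) (by omega) (by omega) (by omega)
    refine ⟨2 ^ j, h3 j, ?_⟩
    have e1 : 2 ^ j * (3 * m - ρ) + 2 ^ j * ρ = 2 ^ j * (3 * m) := by
      rw [← Nat.mul_add, Nat.sub_add_cancel hρ1.le]
    have e2 : (2 ^ j * k) % (3 * m) = (2 ^ j * ρ) % (3 * m) := by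
      rw [hρ, Nat.mul_mod_mod]
    have e3 : (2 ^ j * ρ) % (3 * m) = 3 * m - 2 ^ j * (3 * m - ρ) := by
      have e4 : 2 ^ j * ρ + 3 * m = (3 * m - 2 ^ j * (3 * m - ρ)) + (3 * m) * 2 ^ j := by
        have : 2 ^ j * (3 * m) = (3 * m) * 2 ^ j := Nat.mul_comm _ _
        omega
      calc (2 ^ j * ρ) % (3 * m) = (2 ^ j * ρ + 3 * m) % (3 * m) := by rw [Nat.add_mod_right]
        _ = ((3 * m - 2 ^ j * (3 * m - ρ)) + (3 * m) * 2 ^ j) % (3 * m) := by rw [e4]
        _ = (3 * m - 2 ^ j * (3 * m - ρ)) % (3 * m) := Nat.add_mul_mod_self_left _ _ _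
        _ = _ := Nat.mod_eq_of_lt (by omega)
    rw [e2, e3]
    omega
  · obtain ⟨j, h1, h2⟩ := dbl (m := m) m ρ (by omega) hρ0 h
    refine ⟨2 ^ j, h3 j, ?_⟩
    have e2 : (2 ^ j * k) % (3 * m) = 2 ^ j * ρ := by
      rw [← Nat.mul_mod_mod, ← hρ, Nat.mod_eq_of_lt (by omega)]
    rw [e2]
    exact ⟨h1, h2⟩

/-- a third colour -/
def other (p q : ZMod 3) : ZMod 3 := if p = q then p + 1 else -p - q

theorem other_ne (p q : ZMod 3) : other p q ≠ p ∧ other p q ≠ q := by
  revert p q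
  unfold other
  decide

/-- equivariant proper colourings with three colours -/
theorem exists_colouring {m k : ℕ} (hm : 0 < m) (hk : ¬ 3 * m ∣ k) :
    ∃ (a b : ℕ → ZMod 3) (κ : ZMod 3), κ ≠ 0 ∧ (∀ i, a (i + m) = a i + κ) ∧
      (∀ i, b (i + m) = b i + κ) ∧ (∀ i, a i ≠ a (i + 1)) ∧ (∀ i, a i ≠ b i) ∧
      (∀ i, b i ≠ b (i + k)) := by
  obtain ⟨w, hw3, hw1, hw2⟩ := exists_mult hm hk
  have hκ : (w : ZMod 3) ≠ 0 := by
    intro h
    rw [ZMod.natCast_eq_zero_iff] at h
    exact hw3 (Nat.mod_eq_zero_of_dvd h)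
  set κ : ZMod 3 := (w : ZMod 3) with hκdef
  -- the inner colouring before the shift
  set b₀ : ℕ → ZMod 3 := fun i => ((w * i / m : ℕ) : ZMod 3) with hb₀
  have hb₀m : ∀ i, b₀ (i + m) = b₀ i + κ := by
    intro i
    show ((w * (i + m) / m : ℕ) : ZMod 3) = ((w * i / m : ℕ) : ZMod 3) + (w : ZMod 3)
    rw [← Nat.cast_add, Nat.mul_add, Nat.add_mul_div_right _ _ hm]
  have hb₀k : ∀ i, b₀ i ≠ b₀ (i + k) := by
    intro i h
    have e0 := Nat.div_add_mod (w * k) (3 * m)
    set s := (w * k) % (3 * m) with hs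
    set Q := (w * k) / (3 * m) with hQ
    have e1 : w * (i + k) = (w * i + s) + m * (3 * Q) := by
      calc w * (i + k) = w * i + w * k := Nat.mul_add _ _ _
        _ = w * i + (3 * m * Q + s) := by rw [e0]
        _ = _ := by ring
    have e2 : w * (i + k) / m = (w * i + s) / m + 3 * Q := by
      rw [e1, Nat.add_mul_div_left _ _ hm]
    have e3 := Nat.div_add_mod (w * i) m
    have e4 := Nat.mod_lt (w * i) hm
    set A := w * i / m with hA
    set R := w * i % m with hR
    have e5 : (w * i + s) / m = A + (R + s) / m := by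
      rw [← e3, show m * A + R + s = (R + s) + m * A by ring, Nat.add_mul_div_left _ _ hm,
        Nat.add_comm]
    have e6 : 1 ≤ (R + s) / m := by
      rw [Nat.le_div_iff_mul_le hm]; omega
    have e7 : (R + s) / m < 3 := by
      rw [Nat.div_lt_iff_lt_mul hm]; omega
    have h' : ((A : ℕ) : ZMod 3) = ((A + (R + s) / m + 3 * Q : ℕ) : ZMod 3) := by
      have : b₀ i = ((A : ℕ) : ZMod 3) := rfl
      rw [← this, h]
      show ((w * (i + k) / m : ℕ) : ZMod 3) = _
      rw [e2, e5]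
    rw [ZMod.natCast_eq_natCast_iff'] at h'
    omega
  -- a change of colour
  obtain ⟨i₀, hi₀⟩ : ∃ i, b₀ i ≠ b₀ (i + 1) := by
    by_contra hcon
    push Not at hcon
    have hc : ∀ j, b₀ j = b₀ 0 := by
      intro j
      induction j with
      | zero => rfl
      | succ j ih => rw [← hcon j, ih]
    have := hb₀m 0
    rw [hc (0 + m)] at this
    exact hκ (by simpa using this.symm)
  set b : ℕ → ZMod 3 := fun i => b₀ (i + i₀ + 1) with hb
  have hbm : ∀ i, b (i + m) = b i + κ := by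
    intro i
    show b₀ (i + m + i₀ + 1) = b₀ (i + i₀ + 1) + κ
    rw [← hb₀m]
    congr 1
    ring
  have hbk : ∀ i, b i ≠ b (i + k) := by
    intro i
    have := hb₀k (i + i₀ + 1)
    show b₀ (i + i₀ + 1) ≠ b₀ (i + k + i₀ + 1)
    rwa [show i + k + i₀ + 1 = i + i₀ + 1 + k by ring]
  have hbm1 : b (m - 1) = b₀ i₀ + κ := by
    show b₀ (m - 1 + i₀ + 1) = _
    rw [show m - 1 + i₀ + 1 = i₀ + m by omega, hb₀m]
  -- the outer colouring
  let α : ℕ → ZMod 3 := fun n => Nat.rec (b₀ i₀) (fun r c => other c (b (r + 1))) n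
  have hα0 : α 0 = b₀ i₀ := rfl
  have hα1 : ∀ r, α (r + 1) = other (α r) (b (r + 1)) := fun r => rfl
  have hαb : ∀ r, α r ≠ b r := by
    intro r
    cases r with
    | zero =>
      rw [hα0]
      show b₀ i₀ ≠ b₀ (0 + i₀ + 1)
      rw [Nat.zero_add]
      exact hi₀
    | succ r =>
      rw [hα1]
      exact (other_ne _ _).2
  have hαα : ∀ r, α r ≠ α (r + 1) := by
    intro r
    rw [hα1]
    exact (other_ne _ _).1.symm
  have hbr : ∀ i, b i = b (i % m) + κ * ((i / m : ℕ) : ZMod 3) := by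
    intro i
    have h1 : ∀ j r, b (r + m * j) = b r + κ * (j : ZMod 3) := by
      intro j
      induction j with
      | zero => intro r; simp
      | succ j ih =>
        intro r
        rw [show r + m * (j + 1) = r + m * j + m by ring, hbm, ih]
        push_cast
        ring
    conv_lhs => rw [← Nat.mod_add_div i m]
    exact h1 _ _
  refine ⟨fun i => α (i % m) + κ * ((i / m : ℕ) : ZMod 3), b, κ, hκ, ?_, hbm, ?_, ?_, hbk⟩
  · intro i
    show α ((i + m) % m) + κ * (((i + m) / m : ℕ) : ZMod 3) = _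
    rw [Nat.add_mod_right, Nat.add_div_right _ hm]
    push_cast
    ring
  · intro i
    show α (i % m) + κ * ((i / m : ℕ) : ZMod 3) ≠
      α ((i + 1) % m) + κ * (((i + 1) / m : ℕ) : ZMod 3)
    have hlt := Nat.mod_lt i hm
    rcases Nat.lt_or_ge (i % m + 1) m with h | h
    · have e1 : (i + 1) % m = i % m + 1 := by
        rw [← Nat.mod_add_mod, Nat.mod_eq_of_lt h]
      have e2 : (i + 1) / m = i / m := by
        have h1 := Nat.div_add_mod i m
        have h2 := Nat.div_add_mod (i + 1) m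
        rw [e1] at h2
        have h3 : m * ((i + 1) / m) = m * (i / m) := by omega
        exact Nat.eq_of_mul_eq_mul_left hm h3
      rw [e1, e2]
      intro h4
      exact hαα _ (add_right_cancel h4)
    · have h0 : i % m = m - 1 := by omega
      have e1 : (i + 1) % m = 0 := by
        rw [← Nat.mod_add_mod, h0, Nat.sub_add_cancel (by omega), Nat.mod_self]
      have e2 : (i + 1) / m = i / m + 1 := by
        have h1 := Nat.div_add_mod i m
        have h2 := Nat.div_add_mod (i + 1) m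
        rw [e1] at h2
        have h3 : m * ((i + 1) / m) = m * (i / m + 1) := by
          rw [Nat.mul_add]
          omega
        exact Nat.eq_of_mul_eq_mul_left hm h3
      rw [e1, e2, h0, hα0]
      intro h4
      have h5 : α (m - 1) = b (m - 1) := by
        rw [hbm1]
        push_cast at h4
        linear_combination h4
      exact hαb _ h5
  · intro i
    show α (i % m) + κ * ((i / m : ℕ) : ZMod 3) ≠ b i
    rw [hbr i]
    intro h4
    exact hαb _ (add_right_cancel h4)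

theorem val_hit (κ : ZMod 3) (hκ : κ ≠ 0) (z : ZMod 3) (e : ℕ) (he : e < 3) :
    ∃ j : ℕ, j < 3 ∧ (z + κ * (j : ZMod 3)).val = e := by
  revert κ z
  interval_cases e <;> decide

theorem sum_hit (κ : ZMod 3) (hκ : κ ≠ 0) (z z' : ZMod 3) (hz : z ≠ z') (e : ℕ) (he : e < 3) :
    ∃ j : ℕ, j < 3 ∧ (z + κ * (j : ZMod 3)).val + (z' + κ * (j : ZMod 3)).val = (3 - 1) / 2 + e := by
  revert κ z z'
  interval_cases e <;> decide

/-- Every threefold covering `P(3m,k) → P(m,k)` has a relative labelling. -/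
theorem rel_three {m k : ℕ} (hm : 0 < m) (hk : ¬ 3 * m ∣ k) : Rel m 3 k := by
  obtain ⟨a, b, κ, hκ, ha, hb, haa, hab, hbb⟩ := exists_colouring hm hk
  have hA : ∀ i j, a (i + m * j) = a i + κ * (j : ZMod 3) := by
    intro i j
    induction j with
    | zero => simp
    | succ j ih =>
      rw [show i + m * (j + 1) = i + m * j + m by ring, ha, ih]
      push_cast
      ring
  have hB : ∀ i j, b (i + m * j) = b i + κ * (j : ZMod 3) := by
    intro i j
    induction j with
    | zero => simp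
    | succ j ih =>
      rw [show i + m * (j + 1) = i + m * j + m by ring, hb, ih]
      push_cast
      ring
  have h3 : ((3 : ℕ) : ZMod 3) = 0 := by decide
  refine ⟨fun i => (a i).val, fun i => (b i).val, ?_, ?_, ?_, ?_, ?_, ?_, ?_⟩
  · intro i
    show (a (i + m * 3)).val = (a i).val
    rw [hA, h3, mul_zero, add_zero]
  · intro i
    show (b (i + m * 3)).val = (b i).val
    rw [hB, h3, mul_zero, add_zero]
  · intro i e he
    obtain ⟨j, -, hj⟩ := val_hit κ hκ (a i) e he
    exact ⟨j, by show (a (i + m * j)).val = e; rw [hA, hj]⟩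
  · intro i e he
    obtain ⟨j, -, hj⟩ := val_hit κ hκ (b i) e he
    exact ⟨j, by show (b (i + m * j)).val = e; rw [hB, hj]⟩
  · intro i e he
    obtain ⟨j, -, hj⟩ := sum_hit κ hκ (a i) (a (i + 1)) (haa i) e he
    refine ⟨j, ?_⟩
    show (a (i + m * j)).val + (a (i + m * j + 1)).val = _
    rw [show i + m * j + 1 = (i + 1) + m * j by ring, hA, hA, hj]
  · intro i e he
    obtain ⟨j, -, hj⟩ := sum_hit κ hκ (a i) (b i) (hab i) e he
    refine ⟨j, ?_⟩
    show (a (i + m * j)).val + (b (i + m * j)).val = _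
    rw [hA, hB, hj]
  · intro i e he
    obtain ⟨j, -, hj⟩ := sum_hit κ hκ (b i) (b (i + k)) (hbb i) e he
    refine ⟨j, ?_⟩
    show (b (i + m * j)).val + (b (i + m * j + k)).val = _
    rw [show i + m * j + k = (i + k) + m * j by ring, hB, hB, hj]

/-- Tripling. -/
theorem SEM.three {m k : ℕ} (hm : 0 < m) (hk : ¬ 3 * m ∣ k) (h : SEM m k) : SEM (3 * m) k := by
  rw [Nat.mul_comm]
  exact h.lift (by norm_num) (rel_three hm hk)

theorem Blk.three {m k : ℕ} (hm : m % 2 = 1) (hk : ¬ 3 * m ∣ k) (h : Blk m k) :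
    Blk (3 * m) k := by
  rw [Nat.mul_comm]
  refine Rel.comp hm (by norm_num) h ?_
  rw [one_mul]
  exact rel_three (by omega) hk

end Pool.Agent.Helper89.EM
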