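import Pool.Agent.Helper89.EM.Net1

/-!
# The defect network, second shape
-/

set_option autoImplicit false
set_option linter.unusedVariables false

namespace Pool.Agent.Helper89.EM

namespace N2

/-- isolated inner vertices -/
def isT (A T c i b : ℤ) : Prop :=
  b = 0 ∨ (b = A ∧ i ≤ T - 1) ∨ (i = 3 ∧ b = c) ∨ (i = T + 1 ∧ b = 1) ∨ (i = T + 1 ∧ b = c - 1)

instance (A T c i b : ℤ) : Decidable (isT A T c i b) := by
  unfold isT
  infer_instance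

/-- outer vertices of depth one -/
def isN (A T c i b : ℤ) : Prop :=
  (i = T + 1 ∧ 2 ≤ b ∧ b ≤ c - 2) ∨ (i = T ∧ b = A) ∨ (i = T + 2 ∧ b = c - A)

instance (A T c i b : ℤ) : Decidable (isN A T c i b) := by
  unfold isN
  infer_instance

/-- the flips -/
def flp (A T c i b : ℤ) : ℤ :=
  if b = 0 ∨ (b = A ∧ i ≤ T) ∨ (i = 3 ∧ b = c) ∨ (i = T + 2 ∧ b = c - A) then 1 else 0

/-- inner heights -/
def yv (A T c i b : ℤ) : ℤ :=
  if isT A T c i b then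
    (if A + 2 ≤ b then 1 + (i + flp A T c i b) % 2 else (i + 1 + flp A T c i b) % 2)
  else if i = T + 1 then (if A + 2 ≤ b then 2 + sgn b else -sgn b)
  else if i % 2 = 1 then 1 + sgn b
  else (if A + 2 ≤ b then 2 - sgn b else sgn b)

/-- outer heights -/
def xv (A T c i b : ℤ) : ℤ :=
  if isN A T c i b then
    (if i = T + 1 then (if A + 2 ≤ b then 2 - sgn b else sgn b)
    else (if A + 2 ≤ b then 2 + sgn b else 1))
  else (if A + 2 ≤ b then 1 + (i + 1 + flp A T c i b) % 2 else (i + flp A T c i b) % 2)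

theorem v1 {A T c : ℤ} (hA : A % 2 = 1) (hA3 : 3 ≤ A) (hT : T % 2 = 0) (hT4 : 4 ≤ T) (hc : 2 * A + 3 ≤ c)
    (i b : ℤ) (h : Dm A T 3 1 c i b) (h' : Dm A T 3 1 c i (b + 1)) :
    (¬ isT A T c i b ∧ ¬ isT A T c i (b + 1) ∧ (yv A T c i (b + 1) - yv A T c i b = 2 ∨ yv A T c i (b + 1) - yv A T c i b = -2)) ∨
    (¬ (¬ isT A T c i b ∧ ¬ isT A T c i (b + 1)) ∧ (yv A T c i (b + 1) - yv A T c i b = 1 ∨ yv A T c i (b + 1) - yv A T c i b = -1)) := by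
  obtain ⟨h1, h2, h3, h4⟩ := h
  obtain ⟨_, _, h3', h4'⟩ := h'
  by_cases t1 : isT A T c i b
  · by_cases t2 : isT A T c i (b + 1)
    · right
      refine ⟨fun h => h.1 t1, ?_⟩
      unfold yv
      rw [if_pos t2, if_pos t1]
      unfold isT at t1 t2
      unfold flp
      rcases t1 with t1 | ⟨t1, t1x⟩ | ⟨t1, t1x⟩ | ⟨t1, t1x⟩ | ⟨t1, t1x⟩ <;>
        rcases t2 with t2 | ⟨t2, t2x⟩ | ⟨t2, t2x⟩ | ⟨t2, t2x⟩ | ⟨t2, t2x⟩ <;> first | (exfalso; omega) | (split_ifs <;> omega)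
    · right
      refine ⟨fun h => h.1 t1, ?_⟩
      unfold yv
      rw [if_neg t2, if_pos t1]
      unfold isT at t1 t2
      unfold flp sgn
      rcases t1 with t1 | ⟨t1, t1x⟩ | ⟨t1, t1x⟩ | ⟨t1, t1x⟩ | ⟨t1, t1x⟩ <;> split_ifs <;> omega
  · by_cases t2 : isT A T c i (b + 1)
    · right
      refine ⟨fun h => h.2 t2, ?_⟩
      unfold yv
      rw [if_pos t2, if_neg t1]
      unfold isT at t1 t2
      unfold flp sgn
      rcases t2 with t2 | ⟨t2, t2x⟩ | ⟨t2, t2x⟩ | ⟨t2, t2x⟩ | ⟨t2, t2x⟩ <;> split_ifs <;> omega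
    · left
      refine ⟨t1, t2, ?_⟩
      unfold yv
      rw [if_neg t2, if_neg t1]
      unfold isT at t1 t2
      unfold sgn
      split_ifs <;> omega

theorem v2 {A T c : ℤ} (hA : A % 2 = 1) (hA3 : 3 ≤ A) (hT : T % 2 = 0) (hT4 : 4 ≤ T) (hc : 2 * A + 3 ≤ c)
    (i : ℤ) (h1 : 3 + 1 ≤ i) (h2 : i < 3 + T) :
    (¬ isT A T c i (c - 1) ∧ ¬ isT A T c (i - 1) 0 ∧ (yv A T c (i - 1) 0 + 1 - yv A T c i (c - 1) = 2 ∨ yv A T c (i - 1) 0 + 1 - yv A T c i (c - 1) = -2)) ∨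
    (¬ (¬ isT A T c i (c - 1) ∧ ¬ isT A T c (i - 1) 0) ∧ (yv A T c (i - 1) 0 + 1 - yv A T c i (c - 1) = 1 ∨ yv A T c (i - 1) 0 + 1 - yv A T c i (c - 1) = -1)) := by
  by_cases t1 : isT A T c i (c - 1)
  · by_cases t2 : isT A T c (i - 1) 0
    · right
      refine ⟨fun h => h.1 t1, ?_⟩
      unfold yv
      rw [if_pos t2, if_pos t1]
      unfold isT at t1 t2
      unfold flp
      rcases t1 with t1 | ⟨t1, t1x⟩ | ⟨t1, t1x⟩ | ⟨t1, t1x⟩ | ⟨t1, t1x⟩ <;>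
        rcases t2 with t2 | ⟨t2, t2x⟩ | ⟨t2, t2x⟩ | ⟨t2, t2x⟩ | ⟨t2, t2x⟩ <;> first | (exfalso; omega) | (split_ifs <;> omega)
    · right
      refine ⟨fun h => h.1 t1, ?_⟩
      unfold yv
      rw [if_neg t2, if_pos t1]
      unfold isT at t1 t2
      unfold flp sgn
      rcases t1 with t1 | ⟨t1, t1x⟩ | ⟨t1, t1x⟩ | ⟨t1, t1x⟩ | ⟨t1, t1x⟩ <;> split_ifs <;> omega
  · by_cases t2 : isT A T c (i - 1) 0
    · right
      refine ⟨fun h => h.2 t2, ?_⟩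
      unfold yv
      rw [if_pos t2, if_neg t1]
      unfold isT at t1 t2
      unfold flp sgn
      rcases t2 with t2 | ⟨t2, t2x⟩ | ⟨t2, t2x⟩ | ⟨t2, t2x⟩ | ⟨t2, t2x⟩ <;> split_ifs <;> omega
    · left
      refine ⟨t1, t2, ?_⟩
      unfold yv
      rw [if_neg t2, if_neg t1]
      unfold isT at t1 t2
      unfold sgn
      split_ifs <;> omega

theorem v3 {A T c : ℤ} (hA : A % 2 = 1) (hA3 : 3 ≤ A) (hT : T % 2 = 0) (hT4 : 4 ≤ T) (hc : 2 * A + 3 ≤ c)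
    (i : ℤ) (h1 : 3 ≤ i) (h2 : i < 3 + 1) :
    (¬ isT A T c i (c + A - 1) ∧ ¬ isT A T c (i - 1 + T) 0 ∧ (yv A T c (i - 1 + T) 0 + 1 - yv A T c i (c + A - 1) = 2 ∨ yv A T c (i - 1 + T) 0 + 1 - yv A T c i (c + A - 1) = -2)) ∨
    (¬ (¬ isT A T c i (c + A - 1) ∧ ¬ isT A T c (i - 1 + T) 0) ∧ (yv A T c (i - 1 + T) 0 + 1 - yv A T c i (c + A - 1) = 1 ∨ yv A T c (i - 1 + T) 0 + 1 - yv A T c i (c + A - 1) = -1)) := by
  by_cases t1 : isT A T c i (c + A - 1)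
  · by_cases t2 : isT A T c (i - 1 + T) 0
    · right
      refine ⟨fun h => h.1 t1, ?_⟩
      unfold yv
      rw [if_pos t2, if_pos t1]
      unfold isT at t1 t2
      unfold flp
      rcases t1 with t1 | ⟨t1, t1x⟩ | ⟨t1, t1x⟩ | ⟨t1, t1x⟩ | ⟨t1, t1x⟩ <;>
        rcases t2 with t2 | ⟨t2, t2x⟩ | ⟨t2, t2x⟩ | ⟨t2, t2x⟩ | ⟨t2, t2x⟩ <;> (exfalso; omega)
    · right
      refine ⟨fun h => h.1 t1, ?_⟩
      unfold yv
      rw [if_neg t2, if_pos t1]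
      unfold isT at t1 t2
      unfold flp sgn
      rcases t1 with t1 | ⟨t1, t1x⟩ | ⟨t1, t1x⟩ | ⟨t1, t1x⟩ | ⟨t1, t1x⟩ <;> split_ifs <;> omega
  · by_cases t2 : isT A T c (i - 1 + T) 0
    · right
      refine ⟨fun h => h.2 t2, ?_⟩
      unfold yv
      rw [if_pos t2, if_neg t1]
      unfold isT at t1 t2
      unfold flp sgn
      rcases t2 with t2 | ⟨t2, t2x⟩ | ⟨t2, t2x⟩ | ⟨t2, t2x⟩ | ⟨t2, t2x⟩ <;> split_ifs <;> omega
    · left
      refine ⟨t1, t2, ?_⟩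
      unfold yv
      rw [if_neg t2, if_neg t1]
      unfold isT at t1 t2
      unfold sgn
      split_ifs <;> omega

theorem u1 {A T c : ℤ} (hA : A % 2 = 1) (hA3 : 3 ≤ A) (hT : T % 2 = 0) (hT4 : 4 ≤ T) (hc : 2 * A + 3 ≤ c)
    (i b : ℤ) (h : Dm A T 3 1 c i b) (h' : Dm A T 3 1 c (i + 1) b) :
    (isN A T c i b ∧ isN A T c (i + 1) b ∧ (xv A T c (i + 1) b - xv A T c i b = 2 ∨ xv A T c (i + 1) b - xv A T c i b = -2)) ∨
    (¬ (isN A T c i b ∧ isN A T c (i + 1) b) ∧ (xv A T c (i + 1) b - xv A T c i b = 1 ∨ xv A T c (i + 1) b - xv A T c i b = -1)) := by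
  obtain ⟨h1, h2, h3, h4⟩ := h
  obtain ⟨_, h2', _, h4'⟩ := h'
  by_cases t1 : isN A T c i b
  · by_cases t2 : isN A T c (i + 1) b
    · left
      refine ⟨t1, t2, ?_⟩
      unfold xv
      rw [if_pos t2, if_pos t1]
      unfold isN at t1 t2
      unfold sgn
      rcases t1 with ⟨t1, t1x, t1y⟩ | ⟨t1, t1x⟩ | ⟨t1, t1x⟩ <;>
        rcases t2 with ⟨t2, t2x, t2y⟩ | ⟨t2, t2x⟩ | ⟨t2, t2x⟩ <;> first | (exfalso; omega) | (split_ifs <;> omega)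
    · right
      refine ⟨fun h => t2 h.2, ?_⟩
      unfold xv
      rw [if_neg t2, if_pos t1]
      unfold isN at t1 t2
      unfold flp sgn
      rcases t1 with ⟨t1, t1x, t1y⟩ | ⟨t1, t1x⟩ | ⟨t1, t1x⟩ <;> split_ifs <;> omega
  · by_cases t2 : isN A T c (i + 1) b
    · right
      refine ⟨fun h => t1 h.1, ?_⟩
      unfold xv
      rw [if_pos t2, if_neg t1]
      unfold isN at t1 t2
      unfold flp sgn
      rcases t2 with ⟨t2, t2x, t2y⟩ | ⟨t2, t2x⟩ | ⟨t2, t2x⟩ <;> split_ifs <;> omega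
    · right
      refine ⟨fun h => t1 h.1, ?_⟩
      unfold xv
      rw [if_neg t2, if_neg t1]
      unfold isN at t1 t2
      unfold flp
      split_ifs <;> omega

theorem u2 {A T c : ℤ} (hA : A % 2 = 1) (hA3 : 3 ≤ A) (hT : T % 2 = 0) (hT4 : 4 ≤ T) (hc : 2 * A + 3 ≤ c)
    (b : ℤ) (h1 : 0 ≤ b) (h2 : b < c) :
    (isN A T c (3 + T - 1) b ∧ isN A T c 3 (b + A) ∧ (xv A T c 3 (b + A) - xv A T c (3 + T - 1) b = 2 ∨ xv A T c 3 (b + A) - xv A T c (3 + T - 1) b = -2)) ∨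
    (¬ (isN A T c (3 + T - 1) b ∧ isN A T c 3 (b + A)) ∧ (xv A T c 3 (b + A) - xv A T c (3 + T - 1) b = 1 ∨ xv A T c 3 (b + A) - xv A T c (3 + T - 1) b = -1)) := by
  by_cases t1 : isN A T c (3 + T - 1) b
  · by_cases t2 : isN A T c 3 (b + A)
    · left
      refine ⟨t1, t2, ?_⟩
      unfold xv
      rw [if_pos t2, if_pos t1]
      unfold isN at t1 t2
      unfold sgn
      rcases t1 with ⟨t1, t1x, t1y⟩ | ⟨t1, t1x⟩ | ⟨t1, t1x⟩ <;>
        rcases t2 with ⟨t2, t2x, t2y⟩ | ⟨t2, t2x⟩ | ⟨t2, t2x⟩ <;> (exfalso; omega)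
    · right
      refine ⟨fun h => t2 h.2, ?_⟩
      unfold xv
      rw [if_neg t2, if_pos t1]
      unfold isN at t1 t2
      unfold flp sgn
      rcases t1 with ⟨t1, t1x, t1y⟩ | ⟨t1, t1x⟩ | ⟨t1, t1x⟩ <;> split_ifs <;> omega
  · by_cases t2 : isN A T c 3 (b + A)
    · right
      refine ⟨fun h => t1 h.1, ?_⟩
      unfold xv
      rw [if_pos t2, if_neg t1]
      unfold isN at t1 t2
      unfold flp sgn
      rcases t2 with ⟨t2, t2x, t2y⟩ | ⟨t2, t2x⟩ | ⟨t2, t2x⟩ <;> split_ifs <;> omega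
    · right
      refine ⟨fun h => t1 h.1, ?_⟩
      unfold xv
      rw [if_neg t2, if_neg t1]
      unfold isN at t1 t2
      unfold flp
      split_ifs <;> omega

theorem u3 {A T c : ℤ} (hA : A % 2 = 1) (hA3 : 3 ≤ A) (hT : T % 2 = 0) (hT4 : 4 ≤ T) (hc : 2 * A + 3 ≤ c)
    (b : ℤ) (h1 : c ≤ b) (h2 : b < c + A) :
    (isN A T c (3 + 1 - 1) b ∧ isN A T c 3 (b - c) ∧ (xv A T c 3 (b - c) + 1 - xv A T c (3 + 1 - 1) b = 2 ∨ xv A T c 3 (b - c) + 1 - xv A T c (3 + 1 - 1) b = -2)) ∨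
    (¬ (isN A T c (3 + 1 - 1) b ∧ isN A T c 3 (b - c)) ∧ (xv A T c 3 (b - c) + 1 - xv A T c (3 + 1 - 1) b = 1 ∨ xv A T c 3 (b - c) + 1 - xv A T c (3 + 1 - 1) b = -1)) := by
  by_cases t1 : isN A T c (3 + 1 - 1) b
  · by_cases t2 : isN A T c 3 (b - c)
    · left
      refine ⟨t1, t2, ?_⟩
      unfold xv
      rw [if_pos t2, if_pos t1]
      unfold isN at t1 t2
      unfold sgn
      rcases t1 with ⟨t1, t1x, t1y⟩ | ⟨t1, t1x⟩ | ⟨t1, t1x⟩ <;>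
        rcases t2 with ⟨t2, t2x, t2y⟩ | ⟨t2, t2x⟩ | ⟨t2, t2x⟩ <;> (exfalso; omega)
    · right
      refine ⟨fun h => t2 h.2, ?_⟩
      unfold xv
      rw [if_neg t2, if_pos t1]
      unfold isN at t1 t2
      unfold flp sgn
      rcases t1 with ⟨t1, t1x, t1y⟩ | ⟨t1, t1x⟩ | ⟨t1, t1x⟩ <;> split_ifs <;> omega
  · by_cases t2 : isN A T c 3 (b - c)
    · right
      refine ⟨fun h => t1 h.1, ?_⟩
      unfold xv
      rw [if_pos t2, if_neg t1]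
      unfold isN at t1 t2
      unfold flp sgn
      rcases t2 with ⟨t2, t2x, t2y⟩ | ⟨t2, t2x⟩ | ⟨t2, t2x⟩ <;> split_ifs <;> omega
    · right
      refine ⟨fun h => t1 h.1, ?_⟩
      unfold xv
      rw [if_neg t2, if_neg t1]
      unfold isN at t1 t2
      unfold flp
      split_ifs <;> omega

theorem sp {A T c : ℤ} (hA : A % 2 = 1) (hA3 : 3 ≤ A) (hT : T % 2 = 0) (hT4 : 4 ≤ T) (hc : 2 * A + 3 ≤ c)
    (i b : ℤ) (h : Dm A T 3 1 c i b) :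
    (isN A T c i b ∧ ¬ isT A T c i b ∧ (yv A T c i b - xv A T c i b = 2 ∨ yv A T c i b - xv A T c i b = -2)) ∨
    (¬ (isN A T c i b ∧ ¬ isT A T c i b) ∧ (yv A T c i b - xv A T c i b = 1 ∨ yv A T c i b - xv A T c i b = -1)) := by
  obtain ⟨h1, h2, h3, h4⟩ := h
  by_cases t1 : isN A T c i b
  · by_cases t2 : isT A T c i b
    · right
      refine ⟨fun h => h.2 t2, ?_⟩
      unfold yv xv
      rw [if_pos t2, if_pos t1]
      unfold isN at t1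
      unfold isT at t2
      unfold flp sgn
      rcases t1 with ⟨t1, t1x, t1y⟩ | ⟨t1, t1x⟩ | ⟨t1, t1x⟩ <;>
        rcases t2 with t2 | ⟨t2, t2x⟩ | ⟨t2, t2x⟩ | ⟨t2, t2x⟩ | ⟨t2, t2x⟩ <;> (exfalso; omega)
    · left
      refine ⟨t1, t2, ?_⟩
      unfold yv xv
      rw [if_neg t2, if_pos t1]
      unfold isN at t1
      unfold isT at t2
      unfold sgn
      rcases t1 with ⟨t1, t1x, t1y⟩ | ⟨t1, t1x⟩ | ⟨t1, t1x⟩ <;> split_ifs <;> omega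
  · by_cases t2 : isT A T c i b
    · right
      refine ⟨fun h => t1 h.1, ?_⟩
      unfold yv xv
      rw [if_pos t2, if_neg t1]
      unfold isN at t1
      unfold isT at t2
      unfold flp
      rcases t2 with t2 | ⟨t2, t2x⟩ | ⟨t2, t2x⟩ | ⟨t2, t2x⟩ | ⟨t2, t2x⟩ <;> split_ifs <;> omega
    · right
      refine ⟨fun h => t1 h.1, ?_⟩
      unfold yv xv
      rw [if_neg t2, if_neg t1]
      unfold isN at t1
      unfold isT at t2
      unfold flp sgn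
      split_ifs <;> omega

end N2

theorem rel_net2 {m r k : ℕ} {A T c s n : ℤ} (hr : r % 2 = 1) (hA : IsCoprime A (r : ℤ))
    (hA2 : A % 2 = 1) (hA3 : 3 ≤ A) (hT : T % 2 = 0) (hT4 : 4 ≤ T) (hc : 2 * A + 3 ≤ c)
    (hm : 1 * A + c * T = m) (hk1 : (k : ℤ) = s * T + n * 1) (hk2 : s * A - n * c = 1)
    (hrn : (r : ℤ) ∣ n) : Rel m r k := by
  refine rel_dom (o := 3) (τ := 1) (c := c) hr hA (by omega) (by omega) (by omega) (by omega)
    (by omega) hm hk1 hk2 hrn (N2.xv A T c) (N2.yv A T c)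
    (fun i b => decide (N2.isN A T c i b)) (fun i b => decide (¬ N2.isT A T c i b)) ?_ ?_ ?_ ?_ ?_ ?_ ?_
  · exact fun i b h h' => ed_intro (N2.u1 hA2 hA3 hT hT4 hc i b h h')
  · exact fun b h h' => ed_intro (N2.u2 hA2 hA3 hT hT4 hc b h h')
  · exact fun b h h' => ed_intro (N2.u3 hA2 hA3 hT hT4 hc b h h')
  · exact fun i b h => ed_intro (N2.sp hA2 hA3 hT hT4 hc i b h)
  · exact fun i b h h' => ed_intro (N2.v1 hA2 hA3 hT hT4 hc i b h h')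
  · exact fun i h h' => ed_intro (N2.v2 hA2 hA3 hT hT4 hc i h h')
  · exact fun i h h' => ed_intro (N2.v3 hA2 hA3 hT hT4 hc i h h')

end Pool.Agent.Helper89.EM
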