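import Pool.Agent.Helper92.EM.Engine2

/-!
# Relative labellings from labelled L-shaped domains
-/

set_option autoImplicit false

namespace Pool.Agent.Helper89.EM

/-- the L-shaped domain -/
def Dm (A T o τ c i b : ℤ) : Prop :=
  o ≤ i ∧ i < o + T ∧ 0 ≤ b ∧ (b < c ∨ (i < o + τ ∧ b < c + A))

theorem dm_uniq {A T o τ c : ℤ} (hA : 0 < A) (hT : 0 < T) (hτ : 1 ≤ τ) (hc : 0 < c)
    {i b i' b' s n : ℤ} (h : Dm A T o τ c i b) (h' : Dm A T o τ c i' b')
    (h1 : i - i' = s * T + n * τ) (h2 : b - b' = -(s * A) + n * c) : s = 0 ∧ n = 0 := by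
  obtain ⟨a1, a2, a3, a4⟩ := h
  obtain ⟨b1, b2, b3, b4⟩ := h'
  have key : ∀ {i b i' b' s n : ℤ}, o ≤ i → i < o + T → 0 ≤ b → (b < c ∨ (i < o + τ ∧ b < c + A)) →
      o ≤ i' → i' < o + T → 0 ≤ b' → (b' < c ∨ (i' < o + τ ∧ b' < c + A)) →
      i - i' = s * T + n * τ → b - b' = -(s * A) + n * c → 1 ≤ n → False := by
    intro i b i' b' s n a1 a2 a3 a4 b1 b2 b3 b4 h1 h2 hn
    have h3 : τ ≤ n * τ := by nlinarith
    have h4 : c ≤ n * c := by nlinarith
    rcases lt_trichotomy s 0 with hs | hs | hs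
    · have h5 : A ≤ -(s * A) := by nlinarith
      omega
    · subst hs
      rw [zero_mul] at h1 h2
      omega
    · have h5 : T ≤ s * T := by nlinarith
      omega
  rcases lt_trichotomy n 0 with hn | hn | hn
  · exact (key (s := -s) (n := -n) b1 b2 b3 b4 a1 a2 a3 a4 (by linarith) (by linarith)
      (by omega)).elim
  · subst hn
    rw [zero_mul, add_zero] at h1
    refine ⟨?_, rfl⟩
    rcases lt_trichotomy s 0 with hs | hs | hs
    · have h5 : s * T ≤ -T := by nlinarith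
      omega
    · exact hs
    · have h5 : T ≤ s * T := by nlinarith
      omega
  · exact (key a1 a2 a3 a4 b1 b2 b3 b4 h1 h2 (by omega)).elim

theorem dm_exists_aux {A T o τ c : ℤ} (hA : 0 < A) (hT : 0 < T) (hτ : 1 ≤ τ) (hτT : τ < T)
    (hc : 0 < c) : ∀ (B : ℕ) (i b : ℤ), o ≤ i → i < o + T → 0 ≤ b → b ≤ B →
    ∃ i' b' s n : ℤ, Dm A T o τ c i' b' ∧ i = i' + s * T + n * τ ∧ b = b' - s * A + n * c := by
  intro B
  induction B using Nat.strong_induction_on with
  | _ B ih =>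
    intro i b h1 h2 h3 h4
    by_cases h5 : b < c
    · exact ⟨i, b, 0, 0, ⟨h1, h2, h3, Or.inl h5⟩, by ring, by ring⟩
    · by_cases h6 : i < o + τ
      · by_cases h7 : b < c + A
        · exact ⟨i, b, 0, 0, ⟨h1, h2, h3, Or.inr ⟨h6, h7⟩⟩, by ring, by ring⟩
        · obtain ⟨i', b', s, n, h8, h9, h10⟩ := ih (b - c - A).toNat (by omega) (i - τ + T)
            (b - c - A) (by omega) (by omega) (by omega) (by omega)
          exact ⟨i', b', s - 1, n + 1, h8, by linear_combination h9, by linear_combination h10⟩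
      · obtain ⟨i', b', s, n, h8, h9, h10⟩ := ih (b - c).toNat (by omega) (i - τ)
            (b - c) (by omega) (by omega) (by omega) (by omega)
        exact ⟨i', b', s, n + 1, h8, by linear_combination h9, by linear_combination h10⟩

theorem dm_exists {A T o τ c : ℤ} (hA : 0 < A) (hT : 0 < T) (hτ : 1 ≤ τ) (hτT : τ < T)
    (hc : 0 < c) (x y : ℤ) :
    ∃ i b n : ℤ, Dm A T o τ c i b ∧ ∃ s : ℤ, x = i + s * T + n * τ ∧ y = b - s * A + n * c := by
  set N : ℤ := |o| + |x| + |y| with hN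
  have hx := neg_abs_le x
  have hy := neg_abs_le y
  have ho := le_abs_self o
  have ho' := abs_nonneg o
  have hx' := abs_nonneg x
  have hy' := abs_nonneg y
  have h1 : N ≤ N * τ := by nlinarith
  have h2 : N ≤ N * c := by nlinarith
  set q : ℤ := (x + N * τ - o) / T with hq
  have h3 := Int.mul_ediv_add_emod (x + N * τ - o) T
  have h4 := Int.emod_nonneg (x + N * τ - o) hT.ne'
  have h5 := Int.emod_lt_of_pos (x + N * τ - o) hT
  have h6 : 0 ≤ q := Int.ediv_nonneg (by omega) hT.le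
  have h7 : 0 ≤ q * A := mul_nonneg h6 hA.le
  obtain ⟨i', b', s, n, h8, h9, h10⟩ := dm_exists_aux (o := o) hA hT hτ hτT hc
    (y + N * c + q * A).toNat (o + (x + N * τ - o) % T) (y + N * c + q * A)
    (by omega) (by omega) (by omega) (by omega)
  refine ⟨i', b', n - N, h8, s + q, ?_, ?_⟩
  · have h11 : (x + N * τ - o) % T = x + N * τ - o - T * q := by
      rw [hq]
      linarith
    rw [h11] at h9
    linear_combination h9
  · linear_combination h10

/-- edge condition -/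
def Ed (p q : Bool) (d : ℤ) : Prop := ∃ s : ℤ, (s = 1 ∨ s = -1) ∧ d = s * (if p && q then 2 else 1)

theorem rel_dom {m r k : ℕ} {A T o τ c s n : ℤ} (hr : r % 2 = 1) (hA : IsCoprime A (r : ℤ))
    (hA0 : 0 < A) (hT : 0 < T) (hτ : 1 ≤ τ) (hτT : τ < T) (hc : 0 < c)
    (hm : τ * A + c * T = m) (hk1 : (k : ℤ) = s * T + n * τ) (hk2 : s * A - n * c = 1)
    (hrn : (r : ℤ) ∣ n) (X Y : ℤ → ℤ → ℤ) (α β : ℤ → ℤ → Bool)
    (hu1 : ∀ i b, Dm A T o τ c i b → Dm A T o τ c (i + 1) b →
      Ed (α i b) (α (i + 1) b) (X (i + 1) b - X i b))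
    (hu2 : ∀ b, 0 ≤ b → b < c → Ed (α (o + T - 1) b) (α o (b + A)) (X o (b + A) - X (o + T - 1) b))
    (hu3 : ∀ b, c ≤ b → b < c + A →
      Ed (α (o + τ - 1) b) (α o (b - c)) (X o (b - c) + 1 - X (o + τ - 1) b))
    (hs : ∀ i b, Dm A T o τ c i b → Ed (α i b) (β i b) (Y i b - X i b))
    (hv1 : ∀ i b, Dm A T o τ c i b → Dm A T o τ c i (b + 1) →
      Ed (β i b) (β i (b + 1)) (Y i (b + 1) - Y i b))
    (hv2 : ∀ i, o + τ ≤ i → i < o + T →
      Ed (β i (c - 1)) (β (i - τ) 0) (Y (i - τ) 0 + 1 - Y i (c - 1)))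
    (hv3 : ∀ i, o ≤ i → i < o + τ →
      Ed (β i (c + A - 1)) (β (i - τ + T) 0) (Y (i - τ + T) 0 + 1 - Y i (c + A - 1))) :
    Rel m r k := by
  classical
  choose ri rb rn hD rs hrx hry using fun x y => dm_exists (o := o) hA0 hT hτ hτT hc x y
  -- uniqueness
  have huniq : ∀ x y i b s n : ℤ, Dm A T o τ c i b → x = i + s * T + n * τ →
      y = b - s * A + n * c → ri x y = i ∧ rb x y = b ∧ rn x y = n := by
    intro x y i b s n h1 h2 h3
    have h4 := dm_uniq (s := rs x y - s) (n := rn x y - n) hA0 hT hτ hc h1 (hD x y)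
      (by linear_combination h2.symm.trans (hrx x y)) (by linear_combination h3.symm.trans (hry x y))
    have h5 : rs x y = s := by linarith [h4.1]
    have h6 : rn x y = n := by linarith [h4.2]
    have h7 := hrx x y
    have h8 := hry x y
    rw [h5, h6] at h7 h8
    exact ⟨by linarith, by linarith, h6⟩
  -- u-steps
  have hU : ∀ x y : ℤ, Ed (α (ri x y) (rb x y)) (α (ri (x + 1) y) (rb (x + 1) y))
      (X (ri (x + 1) y) (rb (x + 1) y) + rn (x + 1) y - (X (ri x y) (rb x y) + rn x y)) := by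
    intro x y
    have h1 := hD x y
    have h2 := hrx x y
    have h3 := hry x y
    set i := ri x y with hi
    set b := rb x y with hb
    set N := rn x y with hN
    set S := rs x y with hS
    by_cases h4 : i = o + T - 1
    · have h5 : b < c := by
        obtain ⟨_, _, _, h | h⟩ := h1 <;> omega
      have h5' : 0 ≤ b := h1.2.2.1
      obtain ⟨e1, e2, e3⟩ := huniq (x + 1) y o (b + A) (S + 1) N
        ⟨le_refl _, by omega, by omega, Or.inr ⟨by omega, by omega⟩⟩
        (by rw [h2, h4]; ring) (by rw [h3]; ring)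
      rw [e1, e2, e3, h4]
      have := hu2 b h5' h5
      rwa [show X o (b + A) + N - (X (o + T - 1) b + N) = X o (b + A) - X (o + T - 1) b by ring]
    · by_cases h5 : Dm A T o τ c (i + 1) b
      · obtain ⟨e1, e2, e3⟩ := huniq (x + 1) y (i + 1) b S N h5 (by rw [h2]; ring) h3
        rw [e1, e2, e3]
        have := hu1 i b h1 h5
        rwa [show X (i + 1) b + N - (X i b + N) = X (i + 1) b - X i b by ring]
      · obtain ⟨g1, g2, g3, g4⟩ := h1
        have h6 : i = o + τ - 1 ∧ c ≤ b ∧ b < c + A := by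
          by_contra h7
          apply h5
          refine ⟨by omega, by omega, g3, ?_⟩
          rcases g4 with g4 | ⟨g4, g5⟩
          · exact Or.inl g4
          · by_cases h8 : b < c
            · exact Or.inl h8
            · exact Or.inr ⟨by omega, g5⟩
        obtain ⟨h6, h7, h8⟩ := h6
        obtain ⟨e1, e2, e3⟩ := huniq (x + 1) y o (b - c) S (N + 1)
          ⟨le_refl _, by omega, by omega, Or.inr ⟨by omega, by omega⟩⟩
          (by rw [h2, h6]; ring) (by rw [h3]; ring)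
        rw [e1, e2, e3, h6]
        have := hu3 b h7 h8
        rwa [show X o (b - c) + (N + 1) - (X (o + τ - 1) b + N) =
          X o (b - c) + 1 - X (o + τ - 1) b by ring]
  -- v-steps
  have hV : ∀ x y : ℤ, Ed (β (ri x y) (rb x y)) (β (ri x (y + 1)) (rb x (y + 1)))
      (Y (ri x (y + 1)) (rb x (y + 1)) + rn x (y + 1) - (Y (ri x y) (rb x y) + rn x y)) := by
    intro x y
    have h1 := hD x y
    have h2 := hrx x y
    have h3 := hry x y
    set i := ri x y with hi
    set b := rb x y with hb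
    set N := rn x y with hN
    set S := rs x y with hS
    by_cases h5 : Dm A T o τ c i (b + 1)
    · obtain ⟨e1, e2, e3⟩ := huniq x (y + 1) i (b + 1) S N h5 h2 (by rw [h3]; ring)
      rw [e1, e2, e3]
      have := hv1 i b h1 h5
      rwa [show Y i (b + 1) + N - (Y i b + N) = Y i (b + 1) - Y i b by ring]
    · obtain ⟨g1, g2, g3, g4⟩ := h1
      by_cases h6 : i < o + τ
      · have h7 : b = c + A - 1 := by
          by_contra h8
          apply h5
          exact ⟨g1, g2, by omega, Or.inr ⟨h6, by omega⟩⟩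
        obtain ⟨e1, e2, e3⟩ := huniq x (y + 1) (i - τ + T) 0 (S - 1) (N + 1)
          ⟨by omega, by omega, le_refl _, Or.inl hc⟩
          (by rw [h2]; ring) (by rw [h3, h7]; ring)
        rw [e1, e2, e3, h7]
        have := hv3 i g1 h6
        rwa [show Y (i - τ + T) 0 + (N + 1) - (Y i (c + A - 1) + N) =
          Y (i - τ + T) 0 + 1 - Y i (c + A - 1) by ring]
      · have h7 : b = c - 1 := by
          by_contra h8
          apply h5
          exact ⟨g1, g2, by omega, Or.inl (by omega)⟩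
        obtain ⟨e1, e2, e3⟩ := huniq x (y + 1) (i - τ) 0 S (N + 1)
          ⟨by omega, by omega, le_refl _, Or.inl hc⟩
          (by rw [h2]; ring) (by rw [h3, h7]; ring)
        rw [e1, e2, e3, h7]
        have := hv2 i (by omega) g2
        rwa [show Y (i - τ) 0 + (N + 1) - (Y i (c - 1) + N) =
          Y (i - τ) 0 + 1 - Y i (c - 1) by ring]
  -- shifts
  have hSh : ∀ x y s' n' : ℤ, ri (x + (s' * T + n' * τ)) (y + (-(s' * A) + n' * c)) = ri x y ∧
      rb (x + (s' * T + n' * τ)) (y + (-(s' * A) + n' * c)) = rb x y ∧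
      rn (x + (s' * T + n' * τ)) (y + (-(s' * A) + n' * c)) = rn x y + n' := by
    intro x y s' n'
    exact huniq _ _ _ _ (rs x y + s') (rn x y + n') (hD x y)
      (by linear_combination hrx x y) (by linear_combination hry x y)
  have hM : ∀ i : ℕ, ri ((i + m : ℕ) : ℤ) 0 = ri (i : ℤ) 0 ∧ rb ((i + m : ℕ) : ℤ) 0 = rb (i : ℤ) 0 ∧
      rn ((i + m : ℕ) : ℤ) 0 = rn (i : ℤ) 0 + A := by
    intro i
    have := hSh (i : ℤ) 0 c A
    rwa [show (i : ℤ) + (c * T + A * τ) = ((i + m : ℕ) : ℤ) by push_cast; rw [← hm]; ring,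
      show (0 : ℤ) + (-(c * A) + A * c) = 0 by ring] at this
  have hK : ∀ i : ℕ, ri ((i + k : ℕ) : ℤ) 0 = ri (i : ℤ) 1 ∧ rb ((i + k : ℕ) : ℤ) 0 = rb (i : ℤ) 1 ∧
      rn ((i + k : ℕ) : ℤ) 0 = rn (i : ℤ) 1 + n := by
    intro i
    have := hSh (i : ℤ) 1 s n
    rwa [show (i : ℤ) + (s * T + n * τ) = ((i + k : ℕ) : ℤ) by push_cast; rw [hk1],
      show (1 : ℤ) + (-(s * A) + n * c) = 0 by linear_combination -hk2] at this
  refine engine hr (fun i => X (ri (i : ℤ) 0) (rb (i : ℤ) 0) + rn (i : ℤ) 0)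
    (fun i => Y (ri (i : ℤ) 0) (rb (i : ℤ) 0) + rn (i : ℤ) 0)
    (fun i => α (ri (i : ℤ) 0) (rb (i : ℤ) 0)) (fun i => β (ri (i : ℤ) 0) (rb (i : ℤ) 0))
    hA ?_ ?_ ?_ ?_ ?_ ?_ ?_
  · intro i
    obtain ⟨e1, e2, e3⟩ := hM i
    simp only [e1, e2, e3]
    exact ⟨0, by ring⟩
  · intro i
    obtain ⟨e1, e2, e3⟩ := hM i
    simp only [e1, e2, e3]
    exact ⟨0, by ring⟩
  · intro i
    obtain ⟨e1, e2, e3⟩ := hM i
    simp only [e1, e2]
  · intro i
    obtain ⟨e1, e2, e3⟩ := hM i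
    simp only [e1, e2]
  · intro i
    obtain ⟨s', hs', h⟩ := hU (i : ℤ) 0
    refine ⟨s', hs', 0, ?_⟩
    push_cast
    rw [h]
    ring
  · intro i
    obtain ⟨s', hs', h⟩ := hs _ _ (hD (i : ℤ) 0)
    refine ⟨s', hs', 0, ?_⟩
    linear_combination h
  · intro i
    obtain ⟨s', hs', h⟩ := hV (i : ℤ) 0
    rw [zero_add] at h
    obtain ⟨e1, e2, e3⟩ := hK i
    obtain ⟨z, hz⟩ := hrn
    refine ⟨s', hs', z, ?_⟩
    simp only [e1, e2, e3]
    linear_combination h + hz

end Pool.Agent.Helper89.EM
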