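import Pool.Agent.Helper89.EM.Short
import Pool.Agent.Helper92.EM.Cover

/-!
# All `k` at once, for coverings
-/

set_option autoImplicit false

namespace Pool.Agent.Helper89.EM

/-- One prime. -/
theorem all_prime {m p : ℕ} (hm : m % 2 = 1) (hm5 : 5 ≤ m) (hp : p.Prime) (hp2 : p % 2 = 1)
    (hpm : p = 3 ∨ 40 * p ^ 2 ≤ m) (h : ∀ k, m ∣ k ∨ SEM m k) (k : ℕ) :
    m * p ∣ k ∨ SEM (m * p) k := by
  have hpm' : p ≤ m := by
    rcases hpm with h1 | h1
    · omega
    · have := Nat.le_self_pow (n := 2) (by norm_num) p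
      omega
  by_cases hk : m ∣ k
  · obtain ⟨j, rfl⟩ := hk
    by_cases hj : p ∣ j
    · exact Or.inl (mul_dvd_mul_left m hj)
    · exact Or.inr (SEM.vert hm hm5 hp2 hpm' (((Nat.Prime.coprime_iff_not_dvd hp).2 hj).symm))
  · right
    refine ((h k).resolve_left hk).lift (by omega) (rel_cover hm hp2 (fun q hq hqp => ?_) hk)
    rwa [(Nat.prime_dvd_prime_iff_eq hq hp).1 hqp]

/-- All coverings whose primes are `3` or small. -/
theorem all_cover (s : ℕ) : ∀ {m : ℕ}, m % 2 = 1 → 5 ≤ m → s % 2 = 1 →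
    (∀ p : ℕ, p.Prime → p ∣ s → p = 3 ∨ 40 * p ^ 2 ≤ m) → (∀ k, m ∣ k ∨ SEM m k) →
    ∀ k, m * s ∣ k ∨ SEM (m * s) k := by
  induction s using Nat.recOnMul with
  | zero =>
    intro m _ _ h
    omega
  | one =>
    intro m _ _ _ _ h
    rw [mul_one]
    exact h
  | prime p hp =>
    intro m hm hm5 hs hq h
    exact all_prime hm hm5 hp hs (hq p hp dvd_rfl) h
  | mul a b iha ihb =>
    intro m hm hm5 hs hq h
    have ha : a % 2 = 1 := by
      rcases Nat.mod_two_eq_zero_or_one a with h | h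
      · rw [Nat.mul_mod, h] at hs
        simp at hs
      · exact h
    have hb : b % 2 = 1 := by
      rcases Nat.mod_two_eq_zero_or_one b with h | h
      · rw [Nat.mul_mod, h] at hs
        simp at hs
      · exact h
    have hma : (m * a) % 2 = 1 := by
      rw [Nat.mul_mod, hm, ha]
    have hle : m ≤ m * a := Nat.le_mul_of_pos_right m (by omega)
    rw [← mul_assoc]
    refine ihb hma (hm5.trans hle) hb (fun p hp hd => ?_)
      (iha hm hm5 ha (fun p hp hd => hq p hp (hd.mul_right b)) h)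
    rcases hq p hp (hd.mul_left a) with h1 | h1
    · exact Or.inl h1
    · exact Or.inr (h1.trans hle)

/-- A number all of whose primes are `3`. -/
theorem eq_pow_three {r : ℕ} (hr : r ≠ 0) (h : ∀ p : ℕ, p.Prime → p ∣ r → p = 3) :
    ∃ b, r = 3 ^ b := by
  exact ⟨_, Nat.eq_prime_pow_of_unique_prime_dvd hr fun {d} hd h1 => h d hd h1⟩

/-- **The set of all `m` with every `k` admissible is closed under coverings.** -/
theorem graph_cover {m r : ℕ} (hm : m % 2 = 1) (hr : r % 2 = 1)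
    (hp : ∀ p : ℕ, p.Prime → p ∣ r → p = 3 ∨ 40 * p ^ 2 ≤ m)
    (h : ∀ k, 1 ≤ k → 2 * k < m → IsSuperEdgeMagic (GP m k)) (k : ℕ) (hk0 : 1 ≤ k)
    (hk : 2 * k < m * r) : IsSuperEdgeMagic (GP (m * r) k) := by
  by_cases hm5 : 5 ≤ m
  · exact graph_of hk0 hk (all_cover r hm hm5 hr hp (all_of_graph hm h) k)
  · have h3 : ∀ p : ℕ, p.Prime → p ∣ r → p = 3 := by
      intro p h1 h2
      rcases hp p h1 h2 with h4 | h4
      · exact h4
      · exfalso
        have := Nat.pow_le_pow_left h1.two_le 2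
        omega
    obtain ⟨b, rfl⟩ := eq_pow_three (by omega) h3
    rw [mul_comm m] at hk ⊢
    exact graph_small hm (by omega) b k hk0 hk

/-- All `k` for `3^a m r`, `m ≤ 23`, the primes of `r` equal to `3` or small against `3^a m`. -/
theorem graph_smooth {a m r : ℕ} (hm : m % 2 = 1) (h23 : m ≤ 23) (hr : r % 2 = 1)
    (hp : ∀ p : ℕ, p.Prime → p ∣ r → p = 3 ∨ 40 * p ^ 2 ≤ 3 ^ a * m) (k : ℕ) (hk0 : 1 ≤ k)
    (hk : 2 * k < 3 ^ a * m * r) : IsSuperEdgeMagic (GP (3 ^ a * m * r) k) :=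
  graph_cover (by rw [Nat.mul_mod, Nat.pow_mod]; simp [hm]) hr hp
    (fun k hk0 hk => graph_small hm h23 a k hk0 hk) k hk0 hk

end Pool.Agent.Helper89.EM
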