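import Mathlib

/-!
# The graphs `P(n,k)` and super edge-magic labellings: definitions
-/

set_option autoImplicit false

namespace Pool.Agent.Helper89.EM

/-- The generalized Petersen graph `P(n,k)`: `u_i = inl i`, `v_i = inr i`. -/
def GP (n k : ℕ) : SimpleGraph (ZMod n ⊕ ZMod n) :=
  SimpleGraph.fromRel fun a b =>
    match a, b with
    | Sum.inl i, Sum.inl j => j = i + 1
    | Sum.inl i, Sum.inr j => j = i
    | Sum.inr _, Sum.inl _ => False
    | Sum.inr i, Sum.inr j => j = i + (k : ZMod n)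

/-- Super edge-magic graphs. -/
def IsSuperEdgeMagic {V : Type} (G : SimpleGraph V) : Prop :=
  ∃ f : V ⊕ G.edgeSet → ℕ, Function.Injective f ∧
    Set.range f = Set.Icc 1 (Nat.card V + Nat.card G.edgeSet) ∧
    Set.range (fun v => f (Sum.inl v)) = Set.Icc 1 (Nat.card V) ∧
    ∃ c, ∀ (u v : V) (h : G.Adj u v),
      f (Sum.inl u) + f (Sum.inr ⟨s(u, v), h⟩) + f (Sum.inl v) = c

end Pool.Agent.Helper89.EM
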