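import Pool.Agent.Helper89.EM.Three
import Pool.Agent.Helper89.EM.Def

/-!
# The graphs `P(n,k)` and super edge-magic labellings
-/

set_option autoImplicit false

namespace Pool.Agent.Helper89.EM

/-- the ends of the edges -/
def ends (n k : ℕ) (τ : ZMod n × Fin 3) : (ZMod n ⊕ ZMod n) × (ZMod n ⊕ ZMod n) :=
  match τ.2 with
  | 0 => (Sum.inl τ.1, Sum.inl (τ.1 + 1))
  | 1 => (Sum.inl τ.1, Sum.inr τ.1)
  | 2 => (Sum.inr τ.1, Sum.inr (τ.1 + (k : ZMod n)))

theorem adj_ends {n k : ℕ} (hn : 2 ≤ n) (hk : ¬ n ∣ k) (τ : ZMod n × Fin 3) :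
    (GP n k).Adj (ends n k τ).1 (ends n k τ).2 := by
  obtain ⟨i, j⟩ := τ
  have h1 : (1 : ZMod n) ≠ 0 := by
    have : Fact (1 < n) := ⟨hn⟩
    exact one_ne_zero
  have h2 : (k : ZMod n) ≠ 0 := by
    rw [Ne, ZMod.natCast_eq_zero_iff]
    exact hk
  rw [GP, SimpleGraph.fromRel_adj]
  fin_cases j
  · refine ⟨?_, Or.inl rfl⟩
    intro h
    have h3 : i = i + 1 := Sum.inl.inj h
    exact h1 (by simpa using h3.symm)
  · refine ⟨?_, Or.inl rfl⟩
    intro h
    exact Sum.inl_ne_inr h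
  · refine ⟨?_, Or.inl rfl⟩
    intro h
    have h3 : i = i + (k : ZMod n) := Sum.inr.inj h
    exact h2 (by simpa using h3.symm)

theorem adj_form {n k : ℕ} {u v : ZMod n ⊕ ZMod n} (h : (GP n k).Adj u v) :
    ∃ τ, s((ends n k τ).1, (ends n k τ).2) = s(u, v) := by
  rw [GP, SimpleGraph.fromRel_adj] at h
  obtain ⟨-, h⟩ := h
  rcases u with i | i <;> rcases v with j | j <;> rcases h with h | h
  · have h' : j = i + 1 := h
    exact ⟨(i, 0), by rw [h']; rfl⟩
  · have h' : i = j + 1 := h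
    exact ⟨(j, 0), by rw [h', Sym2.eq_swap]; rfl⟩
  · have h' : j = i := h
    exact ⟨(i, 1), by rw [h']; rfl⟩
  · exact absurd h (by simp)
  · exact absurd h (by simp)
  · have h' : i = j := h
    exact ⟨(j, 1), by rw [h', Sym2.eq_swap]; rfl⟩
  · have h' : j = i + (k : ZMod n) := h
    exact ⟨(i, 2), by rw [h']; rfl⟩
  · have h' : i = j + (k : ZMod n) := h
    exact ⟨(j, 2), by rw [h', Sym2.eq_swap]; rfl⟩

theorem onto_bij {α : Type} [Fintype α] {N s : ℕ} (f : α → ℕ) (hc : Fintype.card α = N)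
    (h : ∀ t < N, ∃ a, f a = s + t) :
    Function.Injective f ∧ ∀ a, ∃ t < N, f a = s + t := by
  classical
  have h1 : (Finset.range N).image (fun t => s + t) ⊆ Finset.univ.image f := by
    intro z hz
    rw [Finset.mem_image] at hz
    obtain ⟨t, ht, rfl⟩ := hz
    obtain ⟨a, ha⟩ := h t (Finset.mem_range.1 ht)
    rw [← ha]
    exact Finset.mem_image_of_mem _ (Finset.mem_univ _)
  have h2 : ((Finset.range N).image (fun t => s + t)).card = N := by
    rw [Finset.card_image_of_injective _ (add_right_injective s), Finset.card_range]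
  have h3 : (Finset.univ.image f).card ≤ N := by
    rw [← hc]
    exact Finset.card_image_le
  have h4 := Finset.eq_of_subset_of_card_le h1 (by rw [h2]; exact h3)
  constructor
  · have h5 : (Finset.univ.image f).card = (Finset.univ : Finset α).card := by
      rw [← h4, h2, ← hc, Finset.card_univ]
    have h6 := Finset.card_image_iff.1 h5
    intro a b hab
    exact h6 (by simp) (by simp) hab
  · intro a
    have h5 : f a ∈ Finset.univ.image f := Finset.mem_image_of_mem _ (Finset.mem_univ _)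
    rw [← h4, Finset.mem_image] at h5
    obtain ⟨t, ht, hta⟩ := h5
    exact ⟨t, Finset.mem_range.1 ht, hta.symm⟩

theorem isSuperEdgeMagic_of_sem {n k : ℕ} (hn : 2 ≤ n) (hk : ¬ n ∣ k) (h : SEM n k) :
    IsSuperEdgeMagic (GP n k) := by
  classical
  obtain ⟨s, x, y, hL⟩ := h
  have : NeZero n := ⟨by omega⟩
  set g : ZMod n ⊕ ZMod n → ℕ := Sum.elim (fun i => x i.val) (fun i => y i.val) with hg
  have hcast : ∀ i : ℕ, ((i : ℕ) : ZMod n).val = i % n := fun i => ZMod.val_natCast n i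
  have hgx : ∀ i : ℕ, g (Sum.inl (i : ZMod n)) = x i := by
    intro i
    show x (((i : ℕ) : ZMod n).val) = x i
    rw [hcast, per_mod hL.px]
  have hgy : ∀ i : ℕ, g (Sum.inr (i : ZMod n)) = y i := by
    intro i
    show y (((i : ℕ) : ZMod n).val) = y i
    rw [hcast, per_mod hL.py]
  have hcV : Fintype.card (ZMod n ⊕ ZMod n) = 2 * n := by
    rw [Fintype.card_sum, ZMod.card]; ring
  obtain ⟨hginj, hgr⟩ := onto_bij (N := 2 * n) (s := 0) g hcV (by
    intro t ht
    obtain ⟨i, hi | hi⟩ := hL.lab t ht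
    · exact ⟨Sum.inl (i : ZMod n), by rw [hgx, hi, zero_add]⟩
    · exact ⟨Sum.inr (i : ZMod n), by rw [hgy, hi, zero_add]⟩)
  set W : ZMod n × Fin 3 → ℕ := fun τ => g (ends n k τ).1 + g (ends n k τ).2 with hW
  have hcT : Fintype.card (ZMod n × Fin 3) = 3 * n := by
    rw [Fintype.card_prod, ZMod.card, Fintype.card_fin]; ring
  obtain ⟨hWinj, hWr⟩ := onto_bij (N := 3 * n) (s := s) W hcT (by
    intro t ht
    obtain ⟨i, hi | hi | hi⟩ := hL.sum t ht
    · refine ⟨((i : ZMod n), 0), ?_⟩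
      show g (Sum.inl (i : ZMod n)) + g (Sum.inl ((i : ZMod n) + 1)) = s + t
      rw [← Nat.cast_succ, hgx, hgx, hi]
    · refine ⟨((i : ZMod n), 1), ?_⟩
      show g (Sum.inl (i : ZMod n)) + g (Sum.inr (i : ZMod n)) = s + t
      rw [hgx, hgy, hi]
    · refine ⟨((i : ZMod n), 2), ?_⟩
      show g (Sum.inr (i : ZMod n)) + g (Sum.inr ((i : ZMod n) + (k : ZMod n))) = s + t
      rw [← Nat.cast_add, hgy, hgy, hi])
  -- the edges
  let φ : ZMod n × Fin 3 → (GP n k).edgeSet := fun τ =>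
    ⟨s((ends n k τ).1, (ends n k τ).2), adj_ends hn hk τ⟩
  let w : Sym2 (ZMod n ⊕ ZMod n) → ℕ := Sym2.lift ⟨fun u v => g u + g v, fun u v => add_comm _ _⟩
  have hw : ∀ u v, w s(u, v) = g u + g v := fun u v => rfl
  have hwφ : ∀ τ, w (φ τ).1 = W τ := fun τ => rfl
  have hφinj : Function.Injective φ := by
    intro τ τ' h
    apply hWinj
    rw [← hwφ, ← hwφ, h]
  have hφsurj : Function.Surjective φ := by
    rintro ⟨e, he⟩
    induction e using Sym2.ind with
    | _ u v =>
      obtain ⟨τ, hτ⟩ := adj_form (n := n) (k := k) (u := u) (v := v) he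
      exact ⟨τ, Subtype.ext hτ⟩
  have hcE : Nat.card (GP n k).edgeSet = 3 * n := by
    rw [← Nat.card_eq_of_bijective φ ⟨hφinj, hφsurj⟩, Nat.card_eq_fintype_card, hcT]
  have hcV' : Nat.card (ZMod n ⊕ ZMod n) = 2 * n := by
    rw [Nat.card_eq_fintype_card, hcV]
  have hwr : ∀ e : (GP n k).edgeSet, ∃ t < 3 * n, w e.1 = s + t := by
    intro e
    obtain ⟨τ, rfl⟩ := hφsurj e
    rw [hwφ]
    exact hWr τ
  have hwinj : ∀ e e' : (GP n k).edgeSet, w e.1 = w e'.1 → e = e' := by
    intro e e' h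
    obtain ⟨τ, rfl⟩ := hφsurj e
    obtain ⟨τ', rfl⟩ := hφsurj e'
    rw [hwφ, hwφ] at h
    rw [hWinj h]
  have hgr' : ∀ v, g v < 2 * n := by
    intro v
    obtain ⟨t, ht, h⟩ := hgr v
    omega
  refine ⟨Sum.elim (fun v => g v + 1) (fun e => 5 * n + s - w e.1), ?_, ?_, ?_, 5 * n + s + 2, ?_⟩
  · rintro (u | e) (v | e') h
    · have h' : g u + 1 = g v + 1 := h
      exact congrArg Sum.inl (hginj (by omega))
    · have h' : g u + 1 = 5 * n + s - w e'.1 := h
      obtain ⟨t, ht, h2⟩ := hwr e'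
      have := hgr' u
      omega
    · have h' : 5 * n + s - w e.1 = g v + 1 := h
      obtain ⟨t, ht, h2⟩ := hwr e
      have := hgr' v
      omega
    · have h' : 5 * n + s - w e.1 = 5 * n + s - w e'.1 := h
      obtain ⟨t, ht, h2⟩ := hwr e
      obtain ⟨t', ht', h2'⟩ := hwr e'
      exact congrArg Sum.inr (hwinj e e' (by omega))
  · rw [hcV', hcE]
    ext z
    rw [Set.mem_range, Set.mem_Icc]
    constructor
    · rintro ⟨u | e, rfl⟩
      · have := hgr' u
        show 1 ≤ g u + 1 ∧ g u + 1 ≤ 2 * n + 3 * n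
        omega
      · obtain ⟨t, ht, h2⟩ := hwr e
        show 1 ≤ 5 * n + s - w e.1 ∧ 5 * n + s - w e.1 ≤ 2 * n + 3 * n
        omega
    · rintro ⟨h1, h2⟩
      rcases Nat.lt_or_ge (2 * n) z with h3 | h3
      · obtain ⟨i, hi⟩ := hL.sum (5 * n - z) (by omega)
        have : ∃ τ, W τ = s + (5 * n - z) := by
          rcases hi with hi | hi | hi
          · refine ⟨((i : ZMod n), 0), ?_⟩
            show g (Sum.inl (i : ZMod n)) + g (Sum.inl ((i : ZMod n) + 1)) = _
            rw [← Nat.cast_succ, hgx, hgx, hi]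
          · refine ⟨((i : ZMod n), 1), ?_⟩
            show g (Sum.inl (i : ZMod n)) + g (Sum.inr (i : ZMod n)) = _
            rw [hgx, hgy, hi]
          · refine ⟨((i : ZMod n), 2), ?_⟩
            show g (Sum.inr (i : ZMod n)) + g (Sum.inr ((i : ZMod n) + (k : ZMod n))) = _
            rw [← Nat.cast_add, hgy, hgy, hi]
        obtain ⟨τ, hτ⟩ := this
        refine ⟨Sum.inr (φ τ), ?_⟩
        show 5 * n + s - w (φ τ).1 = z
        rw [hwφ, hτ]
        omega
      · obtain ⟨i, hi⟩ := hL.lab (z - 1) (by omega)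
        rcases hi with hi | hi
        · refine ⟨Sum.inl (Sum.inl (i : ZMod n)), ?_⟩
          show g (Sum.inl (i : ZMod n)) + 1 = z
          rw [hgx, hi]; omega
        · refine ⟨Sum.inl (Sum.inr (i : ZMod n)), ?_⟩
          show g (Sum.inr (i : ZMod n)) + 1 = z
          rw [hgy, hi]; omega
  · rw [hcV']
    ext z
    rw [Set.mem_range, Set.mem_Icc]
    constructor
    · rintro ⟨u, rfl⟩
      have := hgr' u
      show 1 ≤ g u + 1 ∧ g u + 1 ≤ 2 * n
      omega
    · rintro ⟨h1, h2⟩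
      obtain ⟨i, hi⟩ := hL.lab (z - 1) (by omega)
      rcases hi with hi | hi
      · refine ⟨Sum.inl (i : ZMod n), ?_⟩
        show g (Sum.inl (i : ZMod n)) + 1 = z
        rw [hgx, hi]; omega
      · refine ⟨Sum.inr (i : ZMod n), ?_⟩
        show g (Sum.inr (i : ZMod n)) + 1 = z
        rw [hgy, hi]; omega
  · intro u v h
    obtain ⟨t, ht, h2⟩ := hwr ⟨s(u, v), h⟩
    show g u + 1 + (5 * n + s - w s(u, v)) + (g v + 1) = 5 * n + s + 2
    have h3 : w s(u, v) = g u + g v := hw u v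
    have h2' : w s(u, v) = s + t := h2
    omega

theorem sem_of_isSuperEdgeMagic {n k : ℕ} (hn : 3 ≤ n) (hk0 : 1 ≤ k) (hk : 2 * k < n)
    (h : IsSuperEdgeMagic (GP n k)) : SEM n k := by
  classical
  have : NeZero n := ⟨by omega⟩
  obtain ⟨f, hinj, hr, hV, c, hc⟩ := h
  have hnk : ¬ n ∣ k := fun hd => by
    have := Nat.le_of_dvd (by omega) hd
    omega
  have hcV : Nat.card (ZMod n ⊕ ZMod n) = 2 * n := by
    rw [Nat.card_eq_fintype_card, Fintype.card_sum, ZMod.card]; ring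
  let φ : ZMod n × Fin 3 → (GP n k).edgeSet := fun τ =>
    ⟨s((ends n k τ).1, (ends n k τ).2), adj_ends (by omega) hnk τ⟩
  have h2 : (2 : ZMod n) ≠ 0 := by
    intro h
    have : ((2 : ℕ) : ZMod n) = 0 := by exact_mod_cast h
    rw [ZMod.natCast_eq_zero_iff] at this
    have := Nat.le_of_dvd (by norm_num) this
    omega
  have h2k : (2 * k : ZMod n) ≠ 0 := by
    intro h
    have : ((2 * k : ℕ) : ZMod n) = 0 := by exact_mod_cast h
    rw [ZMod.natCast_eq_zero_iff] at this
    have := Nat.le_of_dvd (by omega) this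
    omega
  have hφinj : Function.Injective φ := by
    rintro ⟨i, a⟩ ⟨j, b⟩ h
    have h' : s((ends n k (i, a)).1, (ends n k (i, a)).2) =
      s((ends n k (j, b)).1, (ends n k (j, b)).2) := congrArg Subtype.val h
    fin_cases a <;> fin_cases b <;>
      simp only [ends, Sym2.eq_iff, Sum.inl.injEq, Sum.inr.injEq, reduceCtorEq, false_and,
        and_false, or_self, or_false, Fin.zero_eta, Fin.mk_one, Fin.reduceFinMk] at h' ⊢
    · rcases h' with h' | h'
      · rw [h'.1]
      · exfalso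
        apply h2
        linear_combination h'.2 - h'.1
    · rw [h'.1]
    · rcases h' with h' | h'
      · rw [h'.1]
      · exfalso
        apply h2k
        linear_combination h'.2 - h'.1
  have hφsurj : Function.Surjective φ := by
    rintro ⟨e, he⟩
    induction e using Sym2.ind with
    | _ u v =>
      obtain ⟨τ, hτ⟩ := adj_form (n := n) (k := k) (u := u) (v := v) he
      exact ⟨τ, Subtype.ext hτ⟩
  have hcE : Nat.card (GP n k).edgeSet = 3 * n := by
    rw [← Nat.card_eq_of_bijective φ ⟨hφinj, hφsurj⟩, Nat.card_eq_fintype_card,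
      Fintype.card_prod, ZMod.card, Fintype.card_fin]
    ring
  rw [hcV, hcE] at hr
  rw [hcV] at hV
  have hpos : ∀ v, 1 ≤ f (Sum.inl v) := by
    intro v
    have : f (Sum.inl v) ∈ Set.Icc 1 (2 * n) := by
      rw [← hV]
      exact ⟨v, rfl⟩
    exact this.1
  have hle : ∀ v, f (Sum.inl v) ≤ 2 * n := by
    intro v
    have : f (Sum.inl v) ∈ Set.Icc 1 (2 * n) := by
      rw [← hV]
      exact ⟨v, rfl⟩
    exact this.2
  -- edges with a given label
  have hedge : ∀ t < 3 * n, ∃ τ, f (Sum.inl (ends n k τ).1) + f (Sum.inl (ends n k τ).2) +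
      (5 * n - t) = c := by
    intro t ht
    have h1 : 5 * n - t ∈ Set.range f := by
      rw [hr, Set.mem_Icc]
      omega
    obtain ⟨a, ha⟩ := h1
    rcases a with v | e
    · have := hle v
      omega
    · obtain ⟨τ, rfl⟩ := hφsurj e
      refine ⟨τ, ?_⟩
      have := hc _ _ (adj_ends (by omega) hnk τ)
      rw [← ha, ← this]
      show _ + _ + f (Sum.inr (φ τ)) = _ + f (Sum.inr (φ τ)) + _
      ring
  have hc5 : 5 * n + 2 ≤ c := by
    obtain ⟨τ, hτ⟩ := hedge 0 (by omega)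
    have := hpos (ends n k τ).1
    have := hpos (ends n k τ).2
    omega
  refine ⟨c - (5 * n + 2), fun i => f (Sum.inl (Sum.inl (i : ZMod n))) - 1,
    fun i => f (Sum.inl (Sum.inr (i : ZMod n))) - 1, ?_, ?_, ?_, ?_⟩
  · intro i
    show f (Sum.inl (Sum.inl ((i + n : ℕ) : ZMod n))) - 1 = _
    rw [Nat.cast_add, ZMod.natCast_self, add_zero]
  · intro i
    show f (Sum.inl (Sum.inr ((i + n : ℕ) : ZMod n))) - 1 = _
    rw [Nat.cast_add, ZMod.natCast_self, add_zero]
  · intro t ht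
    have h1 : t + 1 ∈ Set.range fun v => f (Sum.inl v) := by
      rw [hV, Set.mem_Icc]
      omega
    obtain ⟨v, hv⟩ := h1
    have hv' : f (Sum.inl v) = t + 1 := hv
    rcases v with i | i
    · refine ⟨i.val, Or.inl ?_⟩
      show f (Sum.inl (Sum.inl ((i.val : ℕ) : ZMod n))) - 1 = t
      rw [ZMod.natCast_zmod_val, hv']
      rfl
    · refine ⟨i.val, Or.inr ?_⟩
      show f (Sum.inl (Sum.inr ((i.val : ℕ) : ZMod n))) - 1 = t
      rw [ZMod.natCast_zmod_val, hv']
      rfl
  · intro t ht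
    obtain ⟨⟨i, a⟩, hτ⟩ := hedge t ht
    refine ⟨i.val, ?_⟩
    have e0 : ((i.val : ℕ) : ZMod n) = i := ZMod.natCast_zmod_val i
    show f (Sum.inl (Sum.inl ((i.val : ℕ) : ZMod n))) - 1 +
        (f (Sum.inl (Sum.inl ((i.val + 1 : ℕ) : ZMod n))) - 1) = _ ∨
      f (Sum.inl (Sum.inl ((i.val : ℕ) : ZMod n))) - 1 +
        (f (Sum.inl (Sum.inr ((i.val : ℕ) : ZMod n))) - 1) = _ ∨
      f (Sum.inl (Sum.inr ((i.val : ℕ) : ZMod n))) - 1 +
        (f (Sum.inl (Sum.inr ((i.val + k : ℕ) : ZMod n))) - 1) = _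
    push_cast
    rw [e0]
    fin_cases a
    · left
      have hτ' : f (Sum.inl (Sum.inl i)) + f (Sum.inl (Sum.inl (i + 1))) + (5 * n - t) = c := hτ
      have := hpos (Sum.inl i)
      have := hpos (Sum.inl (i + 1))
      omega
    · right; left
      have hτ' : f (Sum.inl (Sum.inl i)) + f (Sum.inl (Sum.inr i)) + (5 * n - t) = c := hτ
      have := hpos (Sum.inl i)
      have := hpos (Sum.inr i)
      omega
    · right; right
      have hτ' : f (Sum.inl (Sum.inr i)) + f (Sum.inl (Sum.inr (i + (k : ZMod n)))) +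
        (5 * n - t) = c := hτ
      have := hpos (Sum.inr i)
      have := hpos (Sum.inr (i + (k : ZMod n)))
      omega

/-- Tripling, for graphs. -/
theorem tripling {m k k' : ℕ} (hm : 3 ≤ m) (hk0 : 1 ≤ k) (hk : 2 * k < m) (hk'0 : 1 ≤ k')
    (hk' : 2 * k' < 3 * m) (hkk : k' ≡ k [MOD m] ∨ k' + k ≡ 0 [MOD m])
    (h : IsSuperEdgeMagic (GP m k)) : IsSuperEdgeMagic (GP (3 * m) k') := by
  have h1 := sem_of_isSuperEdgeMagic hm hk0 hk h
  have h2 : SEM m k' := by
    rcases hkk with h2 | h2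
    · exact h1.congr h2.symm
    · exact h1.neg (by rwa [Nat.add_comm])
  have hnd : ¬ 3 * m ∣ k' := fun hd => by
    have := Nat.le_of_dvd (by omega) hd
    omega
  exact isSuperEdgeMagic_of_sem (by omega) hnd (h2.three (by omega) hnd)

end Pool.Agent.Helper89.EM
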