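import Pool.Agent.Helper89.EM.Family
import Pool.Agent.Helper89.EM.Graph

/-!
# All `k` at once
-/

set_option autoImplicit false

namespace Pool.Agent.Helper89.EM

theorem graph_of {n k : ℕ} (hk0 : 1 ≤ k) (hk : 2 * k < n) (h : n ∣ k ∨ SEM n k) :
    IsSuperEdgeMagic (GP n k) := by
  have hd : ¬ n ∣ k := fun hd => by
    have := Nat.le_of_dvd (by omega) hd
    omega
  exact isSuperEdgeMagic_of_sem (by omega) hd (h.resolve_left hd)

theorem all_of_graph {m : ℕ} (hm : m % 2 = 1)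
    (h : ∀ k, 1 ≤ k → 2 * k < m → IsSuperEdgeMagic (GP m k)) (k : ℕ) : m ∣ k ∨ SEM m k := by
  have hm0 : 0 < m := by omega
  have hk1 := Nat.mod_lt k hm0
  have hk2 : k % m ≡ k [MOD m] := Nat.mod_modEq k m
  rcases Nat.eq_zero_or_pos (k % m) with h0 | h0
  · exact Or.inl (Nat.dvd_of_mod_eq_zero h0)
  · right
    by_cases h1 : 2 * (k % m) < m
    · exact (sem_of_isSuperEdgeMagic (by omega) h0 h1 (h _ h0 h1)).congr hk2
    · have h2 : 2 * (m - k % m) < m := by omega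
      refine (sem_of_isSuperEdgeMagic (by omega) (by omega) h2 (h _ (by omega) h2)).neg ?_
      have e : m - k % m + k ≡ m - k % m + k % m [MOD m] := Nat.ModEq.add_left _ hk2.symm
      rw [Nat.sub_add_cancel hk1.le] at e
      exact e.trans (by simp [Nat.ModEq])

theorem all_pow {m k : ℕ} (hm : m % 2 = 1) (h : m ∣ k ∨ SEM m k) (a : ℕ) :
    (3 ^ a * m ∣ k ∨ SEM (3 ^ a * m) k) ∧ (3 ^ a * m) % 2 = 1 := by
  induction a with
  | zero =>
    rw [pow_zero, one_mul]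
    exact ⟨h, hm⟩
  | succ a ih =>
    rw [pow_succ', mul_assoc]
    exact ⟨SEM.tri ih.2 ih.1, by omega⟩

/-- `P(3m,m)`. -/
theorem graph_triangles {m : ℕ} (hm : m % 2 = 1) : IsSuperEdgeMagic (GP (3 * m) m) :=
  graph_of (by omega) (by omega) (Or.inr (SEM.of_blk (by omega) (blk_triangles hm)))

/-- All `k` for `m` gives all `k` for `3^a m`. -/
theorem graph_all {m : ℕ} (hm : m % 2 = 1)
    (h : ∀ k, 1 ≤ k → 2 * k < m → IsSuperEdgeMagic (GP m k)) (a k : ℕ) (hk0 : 1 ≤ k)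
    (hk : 2 * k < 3 ^ a * m) : IsSuperEdgeMagic (GP (3 ^ a * m) k) :=
  graph_of hk0 hk (all_pow hm (all_of_graph hm h k) a).1

/-- All `k` for `3^a m`, `m ≤ 23`. -/
theorem graph_small {m : ℕ} (hm : m % 2 = 1) (h23 : m ≤ 23) (a k : ℕ) (hk0 : 1 ≤ k)
    (hk : 2 * k < 3 ^ a * m) : IsSuperEdgeMagic (GP (3 ^ a * m) k) := by
  obtain ⟨h1, h2⟩ := blk_pow (k := k) hm h23 a
  exact graph_of hk0 hk (h1.imp_right (SEM.of_blk (by omega)))

end Pool.Agent.Helper89.EM
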