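import Mathlib

/-!
# Counting a set closed under multiplication by small primes

Let `Q` contain, with `m`, every `m p`, `p` an odd prime with `40 p ^ 2 ≤ m`, and a number `w` between
`8 ^ 118` and `8 ^ 119` whose primes are below `8 ^ 16` (such as `3 ^ 224`). Then `Q` has at least
`x / (log x) ^ 74` elements up to `x`, for large `x`.
-/

set_option autoImplicit false

namespace Pool.Agent.Helper89.EM.Cnt

open Finset

/-- primes in `[8 ^ s, 8 ^ t)` -/
def P (s t : ℕ) : Finset ℕ := (Finset.Ico (8 ^ s) (8 ^ t)).filter Nat.Prime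

theorem mem_P {s t p : ℕ} : p ∈ P s t ↔ (8 ^ s ≤ p ∧ p < 8 ^ t) ∧ p.Prime := by
  rw [P, Finset.mem_filter, Finset.mem_Ico]

theorem pc_le (t : ℕ) : Nat.primeCounting (8 ^ (t + 1)) ≤
    Nat.primeCounting (8 ^ t) + (P t (t + 1)).card := by
  rw [← Nat.primesLE_card_eq_primeCounting, ← Nat.primesLE_card_eq_primeCounting]
  refine (Finset.card_le_card ?_).trans (Finset.card_union_le _ _)
  intro p hp
  rw [Nat.mem_primesLE] at hp
  rw [Finset.mem_union, Nat.mem_primesLE, mem_P]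
  rcases le_or_gt p (8 ^ t) with h | h
  · exact Or.inl ⟨h, hp.2⟩
  · right
    refine ⟨⟨h.le, lt_of_le_of_ne hp.1 ?_⟩, hp.2⟩
    intro he
    have h2 : 2 ∣ p := he ▸ dvd_pow (by norm_num) (by omega)
    have h3 := (Nat.prime_dvd_prime_iff_eq Nat.prime_two hp.2).1 h2
    rw [pow_succ] at he
    have h4 : 1 ≤ 8 ^ t := Nat.one_le_pow _ _ (by norm_num)
    omega

theorem sq_le_pow {t : ℕ} (ht : 4 ≤ t) : 16 * t ^ 2 ≤ 8 ^ t := by
  induction t, ht using Nat.le_induction with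
  | base => norm_num
  | succ t ht ih =>
    rw [pow_succ 8]
    nlinarith

/-- Chebyshev in blocks. -/
theorem block {t : ℕ} (ht : 4 ≤ t) : (8 : ℝ) ^ t / (3 * t) ≤ (P t (t + 1)).card := by
  have ht0 : (4 : ℝ) ≤ t := by exact_mod_cast ht
  have hL : 0 < Real.log 2 := Real.log_pos (by norm_num)
  have h8 : Real.log 8 = 3 * Real.log 2 := by
    rw [show (8 : ℝ) = 2 ^ 3 by norm_num, Real.log_pow]
    norm_num
  have h4 : Real.log 4 = 2 * Real.log 2 := by
    rw [show (4 : ℝ) = 2 ^ 2 by norm_num, Real.log_pow]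
    norm_num
  have hX : (0 : ℝ) < 8 ^ t := by positivity
  -- lower bound
  have h1 : (8 : ℝ) * 8 ^ t / (3 * (t + 1)) - 2 ≤ (Nat.primeCounting (8 ^ (t + 1)) : ℝ) := by
    refine le_trans ?_ (Chebyshev.pi_ge (8 ^ (t + 1)))
    push_cast
    have hl : Real.log ((8 : ℝ) ^ (t + 1)) = 3 * (t + 1) * Real.log 2 := by
      rw [Real.log_pow, h8]
      push_cast
      ring
    have hlpos : 0 < 3 * ((t : ℝ) + 1) * Real.log 2 := by positivity
    have hle : Real.log ((8 : ℝ) ^ (t + 1) + 1) ≤ 2 * (3 * (t + 1) * Real.log 2) := by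
      rw [← hl, ← Real.log_rpow (by positivity)]
      refine Real.log_le_log (by positivity) ?_
      rw [Real.rpow_two]
      have : (2 : ℝ) ≤ 8 ^ (t + 1) := by
        have h := one_le_pow₀ (n := t) (by norm_num : (1 : ℝ) ≤ 8)
        rw [pow_succ]
        linarith
      nlinarith
    rw [hl, sub_div]
    have e1 : (8 : ℝ) ^ (t + 1) * Real.log 2 / (3 * (t + 1) * Real.log 2) =
        8 * 8 ^ t / (3 * (t + 1)) := by
      rw [pow_succ]
      field_simp
    rw [e1]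
    have e2 : Real.log ((8 : ℝ) ^ (t + 1) + 1) / (3 * (t + 1) * Real.log 2) ≤ 2 := by
      rw [div_le_iff₀ hlpos]
      exact hle
    linarith
  -- upper bound
  have h2 : (Nat.primeCounting (8 ^ t) : ℝ) ≤ 4 * 8 ^ t / (3 * t) + 8 ^ t / (4 * t) := by
    have h := Chebyshev.pi_le_log4_mul_div (x := (8 : ℝ) ^ t)
      (one_lt_pow₀ (by norm_num) (by omega))
    have hf : ⌊(8 : ℝ) ^ t⌋₊ = 8 ^ t := by
      have : ((8 ^ t : ℕ) : ℝ) = (8 : ℝ) ^ t := by push_cast; rfl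
      rw [← this, Nat.floor_natCast]
    rw [hf] at h
    refine h.trans (add_le_add (le_of_eq ?_) ?_)
    · rw [Real.log_sqrt (by positivity), Real.log_pow, h8, h4]
      field_simp
      ring
    · rw [Real.sqrt_le_left (by positivity), div_pow, le_div_iff₀ (by positivity)]
      have h3 : (16 : ℝ) * t ^ 2 ≤ 8 ^ t := by exact_mod_cast sq_le_pow ht
      nlinarith
  have h3 : (Nat.primeCounting (8 ^ (t + 1)) : ℝ) ≤
      Nat.primeCounting (8 ^ t) + (P t (t + 1)).card := by exact_mod_cast pc_le t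
  -- arithmetic
  have h5 : (8 : ℝ) * 8 ^ t / (3 * (t + 1)) ≥ (32 / 15) * (8 ^ t / t) := by
    rw [ge_iff_le, mul_div_assoc', div_le_div_iff₀ (by positivity) (by positivity)]
    nlinarith
  have h6 : (4 : ℝ) * 8 ^ t / (3 * t) = (4 / 3) * (8 ^ t / t) := by
    field_simp
  have h7 : (8 : ℝ) ^ t / (4 * t) = (1 / 4) * (8 ^ t / t) := by
    field_simp
  have h8' : (8 : ℝ) ^ t / (3 * t) = (1 / 3) * (8 ^ t / t) := by
    field_simp
  have h9 : (64 : ℝ) ≤ 8 ^ t / t := by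
    rw [le_div_iff₀ (by positivity)]
    have h3 : (16 : ℝ) * t ^ 2 ≤ 8 ^ t := by exact_mod_cast sq_le_pow ht
    nlinarith
  rw [h8']
  rw [h6, h7] at h2
  linarith

/-- One block of reciprocals. -/
theorem recip {t : ℕ} (ht : 4 ≤ t) : (1 : ℝ) / (24 * t) ≤ ∑ p ∈ P t (t + 1), (1 : ℝ) / p := by
  have ht0 : (4 : ℝ) ≤ t := by exact_mod_cast ht
  have h1 : ∑ p ∈ P t (t + 1), (1 : ℝ) / 8 ^ (t + 1) ≤ ∑ p ∈ P t (t + 1), (1 : ℝ) / p := by
    refine Finset.sum_le_sum fun p hp => ?_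
    rw [mem_P] at hp
    have h2 : (0 : ℝ) < p := by exact_mod_cast hp.2.pos
    refine one_div_le_one_div_of_le h2 ?_
    exact_mod_cast hp.1.2.le
  refine le_trans ?_ h1
  rw [Finset.sum_const, nsmul_eq_mul]
  have h2 := block ht
  calc (1 : ℝ) / (24 * t) = 8 ^ t / (3 * t) * (1 / 8 ^ (t + 1)) := by
        rw [pow_succ]
        field_simp
        norm_num
    _ ≤ _ := mul_le_mul_of_nonneg_right h2 (by positivity)

/-- Many blocks. -/
theorem recips {s B : ℕ} (hs : 4 ≤ s) (d : ℕ) (hd : s + d ≤ B) :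
    (d : ℝ) / (24 * B) ≤ ∑ p ∈ P s (s + d), (1 : ℝ) / p := by
  induction d with
  | zero =>
    rw [Nat.cast_zero, zero_div]
    exact Finset.sum_nonneg fun p _ => by positivity
  | succ d ih =>
    have h1 := ih (by omega)
    have h2 := recip (t := s + d) (by omega)
    have h3 : P s (s + d) ∪ P (s + d) (s + d + 1) ⊆ P s (s + (d + 1)) := by
      intro p hp
      rw [Finset.mem_union, mem_P, mem_P] at hp
      rw [mem_P]
      have h4 : 8 ^ (s + d) ≤ 8 ^ (s + (d + 1)) := Nat.pow_le_pow_right (by norm_num) (by omega)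
      have h5 : 8 ^ s ≤ 8 ^ (s + d) := Nat.pow_le_pow_right (by norm_num) (by omega)
      rcases hp with ⟨⟨a, b⟩, c⟩ | ⟨⟨a, b⟩, c⟩
      · exact ⟨⟨a, by omega⟩, c⟩
      · exact ⟨⟨by omega, b⟩, c⟩
    have h4 : Disjoint (P s (s + d)) (P (s + d) (s + d + 1)) := by
      rw [Finset.disjoint_left]
      intro p hp hp'
      rw [mem_P] at hp hp'
      omega
    have h5 := Finset.sum_le_sum_of_subset_of_nonneg h3 (f := fun p : ℕ => (1 : ℝ) / p)
      (fun p _ _ => by positivity)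
    rw [Finset.sum_union h4] at h5
    refine le_trans ?_ h5
    have h6 : (1 : ℝ) / (24 * B) ≤ 1 / (24 * ((s + d : ℕ) : ℝ)) := by
      have h7 : (0 : ℝ) < ((s + d : ℕ) : ℝ) := by exact_mod_cast (by omega : 0 < s + d)
      refine one_div_le_one_div_of_le (by positivity) ?_
      have h8 : ((s + d : ℕ) : ℝ) ≤ B := by exact_mod_cast (by omega : s + d ≤ B)
      linarith
    have e : ((d + 1 : ℕ) : ℝ) / (24 * B) = d / (24 * B) + 1 / (24 * B) := by
      push_cast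
      ring
    rw [e]
    linarith

/-- One scale. -/
theorem scale {t : ℕ} (ht : 16 ≤ t) : (1 : ℝ) / 312 ≤ ∑ p ∈ P t (t + t / 8), (1 : ℝ) / p := by
  refine le_trans ?_ (recips (B := t + t / 8) (by omega) (t / 8) le_rfl)
  have h1 : t ≤ 12 * (t / 8) := by omega
  have h2 : (t : ℝ) ≤ 12 * ((t / 8 : ℕ) : ℝ) := by exact_mod_cast h1
  have h3 : (0 : ℝ) < ((t + t / 8 : ℕ) : ℝ) := by exact_mod_cast (by omega : 0 < t + t / 8)
  rw [div_le_div_iff₀ (by norm_num) (by positivity)]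
  push_cast at h3 ⊢
  linarith

/-- scales -/
def tau : ℕ → ℕ
  | 0 => 16
  | l + 1 => tau l + tau l / 8

/-- sizes -/
def S : ℕ → ℕ
  | 0 => 118
  | l + 1 => S l + tau l

theorem tau_ge (l : ℕ) : 16 ≤ tau l := by
  induction l with
  | zero => rfl
  | succ l ih =>
    rw [tau]
    omega

theorem S_ge (l : ℕ) : 7 * tau l + 6 ≤ S l := by
  induction l with
  | zero => decide
  | succ l ih =>
    have := tau_ge l
    rw [tau, S]
    omega

theorem S_lin (l : ℕ) : l + 2 ≤ S l := by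
  induction l with
  | zero => decide
  | succ l ih =>
    have := tau_ge l
    rw [S]
    omega

theorem tau_pow (l : ℕ) : ((13 : ℝ) / 12) ^ l ≤ tau l := by
  induction l with
  | zero => norm_num [tau]
  | succ l ih =>
    have h0 := tau_ge l
    have h1 : tau l ≤ 12 * (tau l / 8) := by omega
    have h2 : (tau l : ℝ) ≤ 12 * ((tau l / 8 : ℕ) : ℝ) := by exact_mod_cast h1
    rw [tau, pow_succ]
    push_cast
    linarith

theorem chain {Q : ℕ → Prop} {w : ℕ} (h0 : Q w) (hw : 8 ^ 118 ≤ w) (hw' : w < 8 ^ 119)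
    (hwp : ∀ p : ℕ, p.Prime → p ∣ w → p < 8 ^ 16)
    (hs : ∀ m p : ℕ, Q m → p.Prime → p ≠ 2 → 40 * p ^ 2 ≤ m → Q (m * p)) (l : ℕ) :
    ∃ N : Finset ℕ, (∀ n ∈ N, Q n ∧ 8 ^ S l ≤ n ∧ n < 8 ^ (S l + tau l - 15) ∧
      ∀ p : ℕ, p.Prime → p ∣ n → p < 8 ^ tau l) ∧
      (1 : ℝ) / w * (1 / 312) ^ l ≤ ∑ n ∈ N, (1 : ℝ) / n := by
  induction l with
  | zero =>
    refine ⟨{w}, ?_, ?_⟩
    · intro n hn
      rw [Finset.mem_singleton] at hn
      subst hn
      exact ⟨h0, hw, hw', hwp⟩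
    · rw [Finset.sum_singleton, pow_zero, mul_one]
  | succ l ih =>
    obtain ⟨N, h1, h2⟩ := ih
    have ht := tau_ge l
    have hS := S_ge l
    have hinj : Set.InjOn (fun q : ℕ × ℕ => q.1 * q.2)
        ((N ×ˢ P (tau l) (tau l + tau l / 8) : Finset (ℕ × ℕ)) : Set (ℕ × ℕ)) := by
      rintro ⟨n, p⟩ hq ⟨n', p'⟩ hq' he
      rw [Finset.mem_coe, Finset.mem_product] at hq hq'
      obtain ⟨ha, hb⟩ := hq
      obtain ⟨ha', hb'⟩ := hq'
      rw [mem_P] at hb hb'
      simp only at he ha ha' hb hb'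
      have hd : p ∣ n' * p' := by
        rw [← he]
        exact dvd_mul_left p n
      have hpp : p = p' := by
        rcases (hb.2.dvd_mul).1 hd with h3 | h3
        · have h4 := (h1 n' ha').2.2.2 p hb.2 h3
          omega
        · exact (Nat.prime_dvd_prime_iff_eq hb.2 hb'.2).1 h3
      subst hpp
      have hnn : n = n' := Nat.eq_of_mul_eq_mul_right hb.2.pos he
      rw [hnn]
    refine ⟨(N ×ˢ P (tau l) (tau l + tau l / 8)).image (fun q => q.1 * q.2), ?_, ?_⟩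
    · intro a ha
      rw [Finset.mem_image] at ha
      obtain ⟨⟨n, p⟩, hq, rfl⟩ := ha
      rw [Finset.mem_product, mem_P] at hq
      obtain ⟨ha, ⟨hb, hc⟩, hp⟩ := hq
      simp only at ha hb hc hp ⊢
      obtain ⟨hQ, h3, h4, h5⟩ := h1 n ha
      have h6 : 40 * p ^ 2 ≤ n := by
        have h7 : p ^ 2 ≤ (8 ^ (tau l + tau l / 8)) ^ 2 := Nat.pow_le_pow_left hc.le 2
        calc 40 * p ^ 2 ≤ 8 ^ 2 * (8 ^ (tau l + tau l / 8)) ^ 2 :=
              Nat.mul_le_mul (by norm_num) h7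
          _ = 8 ^ (2 + (tau l + tau l / 8) * 2) := by rw [← pow_mul, ← pow_add]
          _ ≤ 8 ^ S l := Nat.pow_le_pow_right (by norm_num) (by omega)
          _ ≤ n := h3
      have h2p : p ≠ 2 := by
        rintro rfl
        have h8 : 8 ^ 1 ≤ 8 ^ tau l := Nat.pow_le_pow_right (by norm_num) (by omega)
        omega
      refine ⟨hs n p hQ hp h2p h6, ?_, ?_, ?_⟩
      · rw [S, pow_add]
        exact Nat.mul_le_mul h3 hb
      · have e : S (l + 1) + tau (l + 1) - 15 = (S l + tau l - 15) + (tau l + tau l / 8) := by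
          rw [S, tau]
          omega
        rw [e, pow_add]
        exact Nat.mul_lt_mul'' h4 hc
      · intro q hq hd
        rw [tau]
        rcases (hq.dvd_mul).1 hd with h7 | h7
        · refine (h5 q hq h7).trans_le ?_
          exact Nat.pow_le_pow_right (by norm_num) (by omega)
        · rw [(Nat.prime_dvd_prime_iff_eq hq hp).1 h7]
          exact hc
    · rw [Finset.sum_image hinj, Finset.sum_product]
      have e : ∀ n ∈ N, ∑ p ∈ P (tau l) (tau l + tau l / 8), (1 : ℝ) / ((n * p : ℕ) : ℝ) =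
          (1 / n) * ∑ p ∈ P (tau l) (tau l + tau l / 8), (1 : ℝ) / p := by
        intro n _
        rw [Finset.mul_sum]
        refine Finset.sum_congr rfl fun p _ => ?_
        push_cast
        rw [div_mul_div_comm, one_mul]
      rw [Finset.sum_congr rfl e, ← Finset.sum_mul, pow_succ (1 / 312 : ℝ), ← mul_assoc]
      exact mul_le_mul h2 (scale ht) (by norm_num) (Finset.sum_nonneg fun n _ => by positivity)

/-- The last prime. -/
theorem last {Q : ℕ → Prop} {w : ℕ} (h0 : Q w) (hw : 8 ^ 118 ≤ w) (hw' : w < 8 ^ 119)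
    (hwp : ∀ p : ℕ, p.Prime → p ∣ w → p < 8 ^ 16)
    (hs : ∀ m p : ℕ, Q m → p.Prime → p ≠ 2 → 40 * p ^ 2 ≤ m → Q (m * p)) {s y : ℕ}
    (hy : S s + 2 * tau s ≤ y + 13) (hy' : 2 * y ≤ 3 * S s) :
    (8 : ℝ) ^ y / (192 * y) * (1 / w * (1 / 312) ^ s) ≤ ({n : ℕ | n ≤ 8 ^ y ∧ Q n}.ncard : ℝ) := by
  obtain ⟨N, h1, h2⟩ := chain h0 hw hw' hwp hs s
  have ht := tau_ge s
  have hS := S_ge s
  obtain ⟨t, ht'⟩ : ∃ t : ℕ → ℕ, ∀ n, t n = y - Nat.log 8 n - 2 := ⟨_, fun _ => rfl⟩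
  have hlog : ∀ n ∈ N, S s ≤ Nat.log 8 n ∧ Nat.log 8 n + 1 ≤ S s + tau s - 15 ∧ 0 < n := by
    intro n hn
    obtain ⟨-, h3, h4, -⟩ := h1 n hn
    have hn0 : 0 < n := lt_of_lt_of_le (by positivity) h3
    refine ⟨Nat.le_log_of_pow_le (by norm_num) h3, ?_, hn0⟩
    exact Nat.log_lt_of_lt_pow hn0.ne' h4
  have htn : ∀ n ∈ N, tau s ≤ t n ∧ t n + Nat.log 8 n + 2 = y := by
    intro n hn
    obtain ⟨h3, h4, -⟩ := hlog n hn
    rw [ht']
    omega
  -- the pairs
  have hinj : Set.InjOn (fun q : Σ _ : ℕ, ℕ => q.1 * q.2)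
      ((N.sigma fun n => P (t n) (t n + 1) : Finset (Σ _ : ℕ, ℕ)) : Set (Σ _ : ℕ, ℕ)) := by
    rintro ⟨n, p⟩ hq ⟨n', p'⟩ hq' he
    rw [Finset.mem_coe, Finset.mem_sigma] at hq hq'
    obtain ⟨ha, hb⟩ := hq
    obtain ⟨ha', hb'⟩ := hq'
    rw [mem_P] at hb hb'
    simp only at he ha ha' hb hb'
    have hd : p ∣ n' * p' := by
      rw [← he]
      exact dvd_mul_left p n
    have hpp : p = p' := by
      rcases (hb.2.dvd_mul).1 hd with h3 | h3
      · have h4 := (h1 n' ha').2.2.2 p hb.2 h3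
        have h5 : 8 ^ tau s ≤ 8 ^ t n := Nat.pow_le_pow_right (by norm_num) (htn n ha).1
        omega
      · exact (Nat.prime_dvd_prime_iff_eq hb.2 hb'.2).1 h3
    subst hpp
    have hnn : n = n' := Nat.eq_of_mul_eq_mul_right hb.2.pos he
    rw [hnn]
  have hfin : {n : ℕ | n ≤ 8 ^ y ∧ Q n}.Finite := (Set.finite_Iic (8 ^ y)).subset fun n hn => hn.1
  have hsub : (((N.sigma fun n => P (t n) (t n + 1)).image
      (fun q : Σ _ : ℕ, ℕ => q.1 * q.2) : Finset ℕ) : Set ℕ) ⊆ {n : ℕ | n ≤ 8 ^ y ∧ Q n} := by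
    intro a ha
    rw [Finset.mem_coe, Finset.mem_image] at ha
    obtain ⟨⟨n, p⟩, hq, rfl⟩ := ha
    rw [Finset.mem_sigma, mem_P] at hq
    obtain ⟨ha, ⟨hb, hc⟩, hp⟩ := hq
    simp only at ha hb hc hp ⊢
    obtain ⟨hQ, h3, h4, h5⟩ := h1 n ha
    obtain ⟨h6, h7, h8⟩ := hlog n ha
    obtain ⟨h9, h10⟩ := htn n ha
    have h2p : p ≠ 2 := by
      rintro rfl
      have h8 : 8 ^ 1 ≤ 8 ^ t n := Nat.pow_le_pow_right (by norm_num) (by omega)
      omega
    refine ⟨?_, hs n p hQ hp h2p ?_⟩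
    · have h11 : n < 8 ^ (Nat.log 8 n + 1) := Nat.lt_pow_succ_log_self (by norm_num) n
      calc n * p ≤ 8 ^ (Nat.log 8 n + 1) * 8 ^ (t n + 1) := Nat.mul_le_mul h11.le hc.le
        _ = 8 ^ y := by
          rw [← pow_add]
          congr 1
          omega
    · have h7 : p ^ 2 ≤ (8 ^ (t n + 1)) ^ 2 := Nat.pow_le_pow_left hc.le 2
      calc 40 * p ^ 2 ≤ 8 ^ 2 * (8 ^ (t n + 1)) ^ 2 := Nat.mul_le_mul (by norm_num) h7
        _ = 8 ^ (2 + (t n + 1) * 2) := by rw [← pow_mul, ← pow_add]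
        _ ≤ 8 ^ S s := Nat.pow_le_pow_right (by norm_num) (by omega)
        _ ≤ n := h3
  have hcard : (∑ n ∈ N, (P (t n) (t n + 1)).card : ℕ) ≤ {n : ℕ | n ≤ 8 ^ y ∧ Q n}.ncard := by
    rw [← Finset.card_sigma, ← Finset.card_image_of_injOn hinj, ← Set.ncard_coe_finset]
    exact Set.ncard_le_ncard hsub hfin
  refine le_trans ?_ (Nat.cast_le.2 hcard)
  have hy0 : (0 : ℝ) < y := by exact_mod_cast (by omega : 0 < y)
  have hterm : ∀ n ∈ N, (8 : ℝ) ^ y / (192 * y) * (1 / n) ≤ ((P (t n) (t n + 1)).card : ℝ) := by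
    intro n hn
    obtain ⟨h6, h7, h8⟩ := hlog n hn
    obtain ⟨h9, h10⟩ := htn n hn
    refine le_trans ?_ (block (t := t n) (by omega))
    have h11 : (8 : ℝ) ^ Nat.log 8 n ≤ n := by exact_mod_cast Nat.pow_log_le_self 8 h8.ne'
    have h12 : (0 : ℝ) < n := by exact_mod_cast h8
    have h13 : (0 : ℝ) < t n := by exact_mod_cast (by omega : 0 < t n)
    have h14 : (t n : ℝ) ≤ y := by exact_mod_cast (by omega : t n ≤ y)
    have e : (8 : ℝ) ^ y = 8 ^ t n * 8 ^ Nat.log 8 n * 64 := by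
      rw [← h10, pow_add, pow_add]
      norm_num
    rw [e, div_mul_div_comm, mul_one, div_le_div_iff₀ (by positivity) (by positivity)]
    have h15 : (0 : ℝ) < 8 ^ t n := by positivity
    have h16 : (8 : ℝ) ^ Nat.log 8 n * t n ≤ n * y :=
      mul_le_mul h11 h14 h13.le h12.le
    nlinarith [mul_le_mul_of_nonneg_left h16 h15.le]
  calc (8 : ℝ) ^ y / (192 * y) * (1 / w * (1 / 312) ^ s)
      ≤ (8 : ℝ) ^ y / (192 * y) * ∑ n ∈ N, (1 : ℝ) / n :=
        mul_le_mul_of_nonneg_left h2 (by positivity)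
    _ = ∑ n ∈ N, (8 : ℝ) ^ y / (192 * y) * (1 / n) := Finset.mul_sum _ _ _
    _ ≤ ∑ n ∈ N, ((P (t n) (t n + 1)).card : ℝ) := Finset.sum_le_sum hterm
    _ = _ := by push_cast; rfl

/-- The right scale. -/
theorem find {y : ℕ} (hy : 137 ≤ y) : ∃ s : ℕ, S s + 2 * tau s ≤ y + 13 ∧ 2 * y ≤ 3 * S s := by
  have h0 : S 0 + 2 * tau 0 ≤ y + 13 := by
    simp only [S, tau]
    omega
  refine ⟨Nat.findGreatest (fun s => S s + 2 * tau s ≤ y + 13) y, ?_, ?_⟩
  · exact Nat.findGreatest_spec (P := fun s => S s + 2 * tau s ≤ y + 13) (Nat.zero_le y) h0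
  · have h1 := Nat.findGreatest_spec (P := fun s => S s + 2 * tau s ≤ y + 13) (Nat.zero_le y) h0
    obtain ⟨s, hs⟩ : ∃ s, s = Nat.findGreatest (fun s => S s + 2 * tau s ≤ y + 13) y := ⟨_, rfl⟩
    rw [← hs] at h1 ⊢
    have h2 := tau_ge s
    have h3 := S_ge s
    have h4 := S_lin s
    by_contra hlt
    have h5 : S (s + 1) + 2 * tau (s + 1) ≤ y + 13 := by
      rw [S, tau]
      omega
    refine Nat.findGreatest_is_greatest (P := fun s => S s + 2 * tau s ≤ y + 13) (n := y)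
      (k := s + 1) ?_ ?_ h5
    · omega
    · omega

/-- **The count.** -/
theorem count {Q : ℕ → Prop} {w : ℕ} (h0 : Q w) (hw : 8 ^ 118 ≤ w) (hw' : w < 8 ^ 119)
    (hwp : ∀ p : ℕ, p.Prime → p ∣ w → p < 8 ^ 16)
    (hs : ∀ m p : ℕ, Q m → p.Prime → p ≠ 2 → 40 * p ^ 2 ≤ m → Q (m * p)) :
    ∀ᶠ x : ℕ in Filter.atTop, (x : ℝ) / (Real.log x) ^ 74 ≤ ({n : ℕ | n ≤ x ∧ Q n}.ncard : ℝ) := by
  have hw0 : 0 < w := lt_of_lt_of_le (by positivity) hw
  have hlim : Filter.Tendsto (fun x : ℕ => Real.log (x : ℝ)) Filter.atTop Filter.atTop :=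
    Real.tendsto_log_atTop.comp tendsto_natCast_atTop_atTop
  filter_upwards [hlim.eventually_ge_atTop (1536 * w : ℝ), Filter.eventually_ge_atTop (8 ^ 137)]
    with x hx1 hx2
  obtain ⟨y, hy⟩ : ∃ y, y = Nat.log 8 x := ⟨_, rfl⟩
  have hx0 : x ≠ 0 := by
    have : 0 < x := lt_of_lt_of_le (by positivity) hx2
    omega
  have hy1 : 137 ≤ y := hy ▸ Nat.le_log_of_pow_le (by norm_num) hx2
  have hy2 : 8 ^ y ≤ x := hy ▸ Nat.pow_log_le_self 8 hx0
  have hy3 : x < 8 ^ (y + 1) := hy ▸ Nat.lt_pow_succ_log_self (by norm_num) x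
  obtain ⟨s, hs1, hs2⟩ := find hy1
  have h1 := last h0 hw hw' hwp hs hs1 hs2
  have hfin : {n : ℕ | n ≤ x ∧ Q n}.Finite := (Set.finite_Iic x).subset fun n hn => hn.1
  have h2 : {n : ℕ | n ≤ 8 ^ y ∧ Q n}.ncard ≤ {n : ℕ | n ≤ x ∧ Q n}.ncard :=
    Set.ncard_le_ncard (fun n hn => ⟨hn.1.trans hy2, hn.2⟩) hfin
  refine le_trans ?_ (h1.trans (by exact_mod_cast h2))
  have hyR : (137 : ℝ) ≤ y := by exact_mod_cast hy1
  have hwR : (0 : ℝ) < w := by exact_mod_cast hw0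
  have hxR : (x : ℝ) ≤ 8 ^ y * 8 := by
    have : (x : ℝ) ≤ 8 ^ (y + 1) := by exact_mod_cast hy3.le
    rwa [pow_succ] at this
  have hylog : (y : ℝ) ≤ Real.log x := by
    have h3 : Real.log ((8 : ℝ) ^ y) ≤ Real.log x :=
      Real.log_le_log (by positivity) (by exact_mod_cast hy2)
    rw [Real.log_pow] at h3
    have h4 : (1 : ℝ) ≤ Real.log 8 := by
      rw [Real.le_log_iff_exp_le (by norm_num)]
      have := Real.exp_one_lt_d9
      linarith
    nlinarith
  -- `(1/312)^s ≥ y^(-72)`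
  have hpow : (1 : ℝ) / y ^ 72 ≤ (1 / 312) ^ s := by
    have h3 : ((13 : ℝ) / 12) ^ s ≤ y := (tau_pow s).trans (by
      have := S_ge s
      exact_mod_cast (by omega : tau s ≤ y))
    have h4 : (312 : ℝ) ^ s ≤ y ^ 72 := by
      calc (312 : ℝ) ^ s ≤ (((13 : ℝ) / 12) ^ 72) ^ s :=
            pow_le_pow_left₀ (by norm_num) (by norm_num) s
        _ = (((13 : ℝ) / 12) ^ s) ^ 72 := by rw [← pow_mul, ← pow_mul, mul_comm]
        _ ≤ y ^ 72 := pow_le_pow_left₀ (by positivity) h3 72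
    rw [one_div_pow]
    exact one_div_le_one_div_of_le (by positivity) h4
  calc (x : ℝ) / (Real.log x) ^ 74 ≤ (8 ^ y * 8) / (1536 * w * y * y ^ 72) := by
        refine div_le_div₀ (by positivity) hxR (by positivity) ?_
        calc (1536 : ℝ) * w * y * y ^ 72 ≤ Real.log x * Real.log x * (Real.log x) ^ 72 := by
              have h5 : (0 : ℝ) ≤ Real.log x := by linarith
              refine mul_le_mul (mul_le_mul hx1 hylog (by positivity) h5) ?_ (by positivity)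
                (by positivity)
              exact pow_le_pow_left₀ (by positivity) hylog 72
          _ = (Real.log x) ^ 74 := by ring
    _ = (8 : ℝ) ^ y / (192 * y) * (1 / w * (1 / y ^ 72)) := by
        field_simp
        norm_num
    _ ≤ (8 : ℝ) ^ y / (192 * y) * (1 / w * (1 / 312) ^ s) := by
        refine mul_le_mul_of_nonneg_left (mul_le_mul_of_nonneg_left hpow (by positivity))
          (by positivity)

end Pool.Agent.Helper89.EM.Cnt
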