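import Pool.Agent.Helper89.EM.AllCov
import Pool.Agent.Helper89.EM.Count

/-!
# Counting the `n` with every `P(n,k)` super edge-magic
-/

set_option autoImplicit false

namespace Pool.Agent.Helper89.EM

/-- At least `x / (log x) ^ 74` odd `n ≤ x` have every `P(n,k)` super edge-magic. -/
theorem graph_count : ∀ᶠ x : ℕ in Filter.atTop, (x : ℝ) / (Real.log x) ^ 74 ≤
    ({n : ℕ | n ≤ x ∧ n % 2 = 1 ∧ 3 ≤ n ∧
      ∀ k : ℕ, 1 ≤ k → 2 * k < n → IsSuperEdgeMagic (GP n k)}.ncard : ℝ) := by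
  have h := Cnt.count (Q := fun n => n % 2 = 1 ∧ 5 ≤ n ∧ ∀ k, n ∣ k ∨ SEM n k) (w := 3 ^ 224)
    ⟨by norm_num, by norm_num, fun k => ?_⟩ (by norm_num) (by norm_num) ?_ ?_
  · filter_upwards [h] with x hx
    refine hx.trans ?_
    have h1 : {n : ℕ | n ≤ x ∧ n % 2 = 1 ∧ 5 ≤ n ∧ ∀ k, n ∣ k ∨ SEM n k} ⊆
        {n : ℕ | n ≤ x ∧ n % 2 = 1 ∧ 3 ≤ n ∧
          ∀ k : ℕ, 1 ≤ k → 2 * k < n → IsSuperEdgeMagic (GP n k)} := by
      rintro n ⟨h1, h2, h3, h4⟩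
      exact ⟨h1, h2, by omega, fun k hk0 hk => graph_of hk0 hk (h4 k)⟩
    exact_mod_cast Set.ncard_le_ncard h1 ((Set.finite_Iic x).subset fun n hn => hn.1)
  · have h1 := (all_pow (m := 1) (by norm_num) (Or.inl (one_dvd k)) 224).1
    rwa [mul_one] at h1
  · intro p hp hd
    rw [(Nat.prime_dvd_prime_iff_eq hp Nat.prime_three).1 (hp.dvd_of_dvd_pow hd)]
    norm_num
  · rintro m p ⟨h1, h2, h3⟩ hp hp2 hpm
    have hpo : p % 2 = 1 := hp.eq_two_or_odd.resolve_left hp2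
    exact ⟨by rw [Nat.mul_mod, h1, hpo], h2.trans (Nat.le_mul_of_pos_right m hp.pos),
      all_prime h1 h2 hp hpo (Or.inr hpm) h3⟩

end Pool.Agent.Helper89.EM
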