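import Mathlib

/-!
# Seeds and their products: definitions
-/

set_option autoImplicit false

namespace Pool.Agent.Helper89.EM

/-- `q` is a seed for `k`. -/
def Seed (k q : ℕ) : Prop :=
  q % 2 = 1 ∧ 3 ≤ q ∧ ((¬ q ∣ k ∧ ∃ b m : ℕ, m ≤ 23 ∧ q = 3 ^ b * m) ∨
    (¬ q ∣ k ∧ ∃ q' : ℕ, q' ∣ k ∧ q = 3 * q') ∨ (q : ℤ) ∣ (k : ℤ) - 1 ∨ (q : ℤ) ∣ (k : ℤ) + 1 ∨
    (q : ℤ) ∣ (k : ℤ) - 2 ∨ (q : ℤ) ∣ (k : ℤ) + 2 ∨ (q : ℤ) ∣ 2 * (k : ℤ) - 1 ∨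
    (q : ℤ) ∣ 2 * (k : ℤ) + 1)

/-- The moduli `3^a q_1 ... q_t`. -/
def Good (k M : ℕ) : Prop :=
  ∃ (a : ℕ) (qs : List ℕ), qs ≠ [] ∧ qs.Pairwise Nat.Coprime ∧ (∀ q ∈ qs, Seed k q) ∧
    M = 3 ^ a * qs.prod

end Pool.Agent.Helper89.EM
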