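import Pool.Agent.Helper89.EM.Basic

/-!
# The graphs `P(3M,M)`: the inner rim is `M` triangles
-/

set_option autoImplicit false

namespace Pool.Agent.Helper89.EM

namespace Tr

/-- the standard labelling of an odd cycle -/
def st (r i : ℕ) : ℕ := if (i % r) % 2 = 0 then (i % r) / 2 else (i % r + r) / 2

theorem st_lt {r i : ℕ} (hr : r % 2 = 1) : st r i < r := by
  have h1 : i % r < r := Nat.mod_lt _ (by omega)
  unfold st
  generalize i % r = a at *
  split_ifs <;> omega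

theorem st_onto {r l : ℕ} (hr : r % 2 = 1) (hl : l < r) : ∃ a < r, st r a = l := by
  by_cases h : 2 * l < r
  · refine ⟨2 * l, h, ?_⟩
    unfold st
    rw [Nat.mod_eq_of_lt h]
    split_ifs <;> omega
  · refine ⟨2 * l - r, by omega, ?_⟩
    unfold st
    rw [Nat.mod_eq_of_lt (by omega : 2 * l - r < r)]
    split_ifs <;> omega

theorem st_succ {r e : ℕ} (hr : r % 2 = 1) (he : e < r) :
    ∃ a < r, st r a + st r (a + 1) = (r - 1) / 2 + e := by
  rcases Nat.eq_zero_or_pos e with rfl | h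
  · refine ⟨r - 1, by omega, ?_⟩
    unfold st
    rw [show r - 1 + 1 = r by omega, Nat.mod_self, Nat.mod_eq_of_lt (by omega : r - 1 < r)]
    split_ifs <;> omega
  · refine ⟨e - 1, by omega, ?_⟩
    unfold st
    rw [show e - 1 + 1 = e by omega, Nat.mod_eq_of_lt he, Nat.mod_eq_of_lt (by omega : e - 1 < r)]
    split_ifs <;> omega

theorem st_add {M a : ℕ} (hM : M % 2 = 1) (ha : a < 3 * M) :
    st (3 * M) (a + M) = (if st (3 * M) a < M then st (3 * M) a + 2 * M else st (3 * M) a - M) := by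
  unfold st
  rw [Nat.mod_eq_of_lt ha]
  by_cases h : a + M < 3 * M
  · rw [Nat.mod_eq_of_lt h]
    split_ifs <;> omega
  · rw [show a + M = (a - 2 * M) + 3 * M by omega, Nat.add_mod_right,
      Nat.mod_eq_of_lt (by omega : a - 2 * M < 3 * M)]
    split_ifs <;> omega

theorem blk_of {M : ℕ} (hM : M % 2 = 1) (f : ℕ → ℕ) (h1 : ∀ v < 3 * M, ∃ l < 3 * M, f l = v)
    (h2 : ∀ e < 3 * M, ∃ l < 3 * M, l + f l = (3 * M - 1) / 2 + e)
    (h3 : ∀ c < M, f c + f (c + M) + f (c + 2 * M) = 3 * ((3 * M - 1) / 2)) : Blk (3 * M) M := by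
  have hr : (3 * M) % 2 = 1 := by omega
  have key : ∀ i a : ℕ, ∃ j, (i + 1 * j) % (3 * M) = a % (3 * M) := by
    intro i a
    refine ⟨a + (3 * M - 1) * i, ?_⟩
    obtain ⟨r', hr'⟩ : ∃ r', 3 * M = r' + 1 := ⟨3 * M - 1, by omega⟩
    rw [hr']
    have e1 : i + 1 * (a + (r' + 1 - 1) * i) = a + (r' + 1) * i := by
      rw [Nat.add_sub_cancel]
      ring
    rw [e1, Nat.add_mul_mod_self_left]
  have hst : ∀ {a b : ℕ}, a % (3 * M) = b % (3 * M) → st (3 * M) a = st (3 * M) b := by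
    intro a b h
    unfold st
    rw [h]
  have key2 : ∀ {i a c : ℕ}, i % (3 * M) = a % (3 * M) → (i + c) % (3 * M) = (a + c) % (3 * M) := by
    intro i a c h
    exact Nat.ModEq.add_right c h
  refine ⟨st (3 * M), fun i => f (st (3 * M) i), ?_, ?_, ?_, ?_, ?_, ?_, ?_⟩
  · intro i
    exact hst (by simp)
  · intro i
    show f (st (3 * M) (i + 1 * (3 * M))) = f (st (3 * M) i)
    rw [hst (a := i + 1 * (3 * M)) (b := i) (by simp)]
  · intro i e he
    obtain ⟨a, -, ha⟩ := st_onto hr he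
    obtain ⟨j, hj⟩ := key i a
    exact ⟨j, by rw [hst hj, ha]⟩
  · intro i e he
    obtain ⟨l, hl, hv⟩ := h1 e he
    obtain ⟨a, -, ha⟩ := st_onto hr hl
    obtain ⟨j, hj⟩ := key i a
    exact ⟨j, by show f (st (3 * M) (i + 1 * j)) = e; rw [hst hj, ha, hv]⟩
  · intro i e he
    obtain ⟨a, -, ha⟩ := st_succ hr he
    obtain ⟨j, hj⟩ := key i a
    exact ⟨j, by rw [hst hj, hst (key2 hj), ha]⟩
  · intro i e he
    obtain ⟨l, hl, hv⟩ := h2 e he
    obtain ⟨a, -, ha⟩ := st_onto hr hl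
    obtain ⟨j, hj⟩ := key i a
    refine ⟨j, ?_⟩
    show st (3 * M) (i + 1 * j) + f (st (3 * M) (i + 1 * j)) = _
    rw [hst hj, ha, hv]
  · intro i e he
    obtain ⟨l, hl, hv⟩ := h1 (3 * M - 1 - e) (by omega)
    -- the vertex opposite to the edge
    obtain ⟨l', hl', hl''⟩ : ∃ l' < 3 * M, (l < M → l' = l + 2 * M) ∧ (M ≤ l → l' = l - M) := by
      by_cases h : l < M
      · exact ⟨l + 2 * M, by omega, fun _ => rfl, fun h' => by omega⟩
      · exact ⟨l - M, by omega, fun h' => by omega, fun _ => rfl⟩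
    obtain ⟨a, ha0, ha⟩ := st_onto hr hl'
    obtain ⟨j, hj⟩ := key i a
    refine ⟨j, ?_⟩
    show f (st (3 * M) (i + 1 * j)) + f (st (3 * M) (i + 1 * j + M)) = _
    rw [hst hj, hst (key2 hj), st_add hM ha0, ha]
    by_cases h4 : l < M
    · have h5 := h3 l h4
      have h6 := hl''.1 h4
      rw [if_neg (by omega), h6, show l + 2 * M - M = l + M by omega]
      omega
    · by_cases h7 : l < 2 * M
      · have h5 := h3 (l - M) (by omega)
        have h6 := hl''.2 (by omega)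
        rw [if_pos (by omega), h6]
        rw [show l - M + M = l by omega] at h5
        omega
      · have h5 := h3 (l - 2 * M) (by omega)
        have h6 := hl''.2 (by omega)
        rw [if_neg (by omega), h6]
        rw [show l - 2 * M + M = l - M by omega, show l - 2 * M + 2 * M = l by omega] at h5
        rw [show l - M - M = l - 2 * M by omega]
        omega

/-- `M = 4 F + 1` -/
def f1 (F l : ℕ) : ℕ :=
  if l < 4 * F + 1 then l + 2 * (4 * F + 1)
  else if l < 2 * (4 * F + 1) then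
    (if (l - (4 * F + 1)) % 2 = 1 then (4 * F - 1 - (l - (4 * F + 1))) / 2
    else if l - (4 * F + 1) ≤ 2 * F then 6 * F - 2 * (l - (4 * F + 1))
    else 10 * F + 2 - 2 * (l - (4 * F + 1)))
  else
    (if (l - 2 * (4 * F + 1)) % 2 = 1 then 8 * F + 1 - (l - 2 * (4 * F + 1)) / 2
    else if l - 2 * (4 * F + 1) ≤ 2 * F then 4 * F + 1 + (l - 2 * (4 * F + 1))
    else (l - 2 * (4 * F + 1)) - 1)

/-- `M = 4 F + 3` -/
def f3 (F l : ℕ) : ℕ :=
  if l < 4 * F + 3 then l + 2 * (4 * F + 3)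
  else if l < 2 * (4 * F + 3) then
    (if (l - (4 * F + 3)) % 2 = 0 then 2 * F + 1 - (l - (4 * F + 3)) / 2
    else if l - (4 * F + 3) ≤ 2 * F + 1 then 6 * F + 5 - 2 * (l - (4 * F + 3))
    else 10 * F + 7 - 2 * (l - (4 * F + 3)))
  else
    (if (l - 2 * (4 * F + 3)) % 2 = 0 then 8 * F + 5 - (l - 2 * (4 * F + 3)) / 2
    else if l - 2 * (4 * F + 3) ≤ 2 * F + 1 then 4 * F + 1 + (l - 2 * (4 * F + 3))
    else (l - 2 * (4 * F + 3)) - 1)

theorem f1_b {F c : ℕ} (hc : c < 4 * F + 1) : f1 F (c + (4 * F + 1)) =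
    (if c % 2 = 1 then (4 * F - 1 - c) / 2 else if c ≤ 2 * F then 6 * F - 2 * c
    else 10 * F + 2 - 2 * c) := by
  unfold f1
  rw [if_neg (by omega), if_pos (by omega), Nat.add_sub_cancel]

theorem f1_c (F c : ℕ) : f1 F (c + 2 * (4 * F + 1)) =
    (if c % 2 = 1 then 8 * F + 1 - c / 2 else if c ≤ 2 * F then 4 * F + 1 + c else c - 1) := by
  unfold f1
  rw [if_neg (by omega), if_neg (by omega), Nat.add_sub_cancel]

theorem f3_b {F c : ℕ} (hc : c < 4 * F + 3) : f3 F (c + (4 * F + 3)) =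
    (if c % 2 = 0 then 2 * F + 1 - c / 2 else if c ≤ 2 * F + 1 then 6 * F + 5 - 2 * c
    else 10 * F + 7 - 2 * c) := by
  unfold f3
  rw [if_neg (by omega), if_pos (by omega), Nat.add_sub_cancel]

theorem f3_c (F c : ℕ) : f3 F (c + 2 * (4 * F + 3)) =
    (if c % 2 = 0 then 8 * F + 5 - c / 2 else if c ≤ 2 * F + 1 then 4 * F + 1 + c else c - 1) := by
  unfold f3
  rw [if_neg (by omega), if_neg (by omega), Nat.add_sub_cancel]

theorem f1_sum {F c : ℕ} (hc : c < 4 * F + 1) :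
    f1 F c + f1 F (c + (4 * F + 1)) + f1 F (c + 2 * (4 * F + 1)) = 3 * ((3 * (4 * F + 1) - 1) / 2) := by
  have e1 : f1 F c = c + 2 * (4 * F + 1) := if_pos hc
  have e2 : (3 * (4 * F + 1) - 1) / 2 = 6 * F + 1 := by omega
  rw [e1, f1_b hc, f1_c, e2]
  split_ifs <;> omega

theorem f3_sum {F c : ℕ} (hc : c < 4 * F + 3) :
    f3 F c + f3 F (c + (4 * F + 3)) + f3 F (c + 2 * (4 * F + 3)) = 3 * ((3 * (4 * F + 3) - 1) / 2) := by
  have e1 : f3 F c = c + 2 * (4 * F + 3) := if_pos hc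
  have e2 : (3 * (4 * F + 3) - 1) / 2 = 6 * F + 4 := by omega
  rw [e1, f3_b hc, f3_c, e2]
  split_ifs <;> omega

theorem f1_onto {F v : ℕ} (hv : v < 3 * (4 * F + 1)) : ∃ l < 3 * (4 * F + 1), f1 F l = v := by
  by_cases h1 : 2 * (4 * F + 1) ≤ v
  · refine ⟨v - 2 * (4 * F + 1), by omega, ?_⟩
    unfold f1
    split_ifs <;> omega
  by_cases h2 : v < 2 * F
  · refine ⟨(4 * F + 1) + (4 * F - 1 - 2 * v), by omega, ?_⟩
    unfold f1
    split_ifs <;> omega
  by_cases h3 : 6 * F + 2 ≤ v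
  · refine ⟨2 * (4 * F + 1) + (2 * (8 * F + 1 - v) + 1), by omega, ?_⟩
    unfold f1
    split_ifs <;> omega
  by_cases h4 : v % 2 = 1
  · by_cases h5 : 4 * F + 1 ≤ v
    · refine ⟨2 * (4 * F + 1) + (v - (4 * F + 1)), by omega, ?_⟩
      unfold f1
      split_ifs <;> omega
    · refine ⟨2 * (4 * F + 1) + (v + 1), by omega, ?_⟩
      unfold f1
      split_ifs <;> omega
  · by_cases h5 : (6 * F - v) % 4 = 0
    · refine ⟨(4 * F + 1) + (6 * F - v) / 2, by omega, ?_⟩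
      unfold f1
      split_ifs <;> omega
    · refine ⟨(4 * F + 1) + (10 * F + 2 - v) / 2, by omega, ?_⟩
      unfold f1
      split_ifs <;> omega

theorem f3_onto {F v : ℕ} (hv : v < 3 * (4 * F + 3)) : ∃ l < 3 * (4 * F + 3), f3 F l = v := by
  by_cases h1 : 2 * (4 * F + 3) ≤ v
  · refine ⟨v - 2 * (4 * F + 3), by omega, ?_⟩
    unfold f3
    split_ifs <;> omega
  by_cases h2 : v ≤ 2 * F + 1
  · refine ⟨(4 * F + 3) + 2 * (2 * F + 1 - v), by omega, ?_⟩
    unfold f3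
    split_ifs <;> omega
  by_cases h3 : 6 * F + 4 ≤ v
  · refine ⟨2 * (4 * F + 3) + 2 * (8 * F + 5 - v), by omega, ?_⟩
    unfold f3
    split_ifs <;> omega
  by_cases h4 : v % 2 = 0
  · by_cases h5 : 4 * F + 2 ≤ v
    · refine ⟨2 * (4 * F + 3) + (v - (4 * F + 1)), by omega, ?_⟩
      unfold f3
      split_ifs <;> omega
    · refine ⟨2 * (4 * F + 3) + (v + 1), by omega, ?_⟩
      unfold f3
      split_ifs <;> omega
  · by_cases h5 : (6 * F + 3 - v) % 4 = 0
    · refine ⟨(4 * F + 3) + (6 * F + 5 - v) / 2, by omega, ?_⟩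
      unfold f3
      split_ifs <;> omega
    · refine ⟨(4 * F + 3) + (10 * F + 7 - v) / 2, by omega, ?_⟩
      unfold f3
      split_ifs <;> omega

theorem f1_add {F e : ℕ} (he : e < 3 * (4 * F + 1)) :
    ∃ l < 3 * (4 * F + 1), l + f1 F l = (3 * (4 * F + 1) - 1) / 2 + e := by
  have e0 : (3 * (4 * F + 1) - 1) / 2 = 6 * F + 1 := by omega
  rw [e0]
  by_cases h2 : e < 2 * F
  · refine ⟨(4 * F + 1) + (2 * e + 1), by omega, ?_⟩
    unfold f1
    split_ifs <;> omega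
  by_cases h3 : 10 * F + 3 ≤ e
  · refine ⟨2 * (4 * F + 1) + (2 * (e - (10 * F + 3)) + 1), by omega, ?_⟩
    unfold f1
    split_ifs <;> omega
  by_cases h4 : (6 * F + 1 + e) % 2 = 0
  · refine ⟨(6 * F + 1 + e - 2 * (4 * F + 1)) / 2, by omega, ?_⟩
    unfold f1
    split_ifs <;> omega
  by_cases h5 : e ≤ 4 * F
  · refine ⟨(4 * F + 1) + (4 * F - e), by omega, ?_⟩
    unfold f1
    split_ifs <;> omega
  by_cases h6 : e ≤ 6 * F
  · refine ⟨(4 * F + 1) + (8 * F + 2 - e), by omega, ?_⟩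
    unfold f1
    split_ifs <;> omega
  by_cases h7 : (e - (6 * F + 2)) % 4 = 0
  · refine ⟨2 * (4 * F + 1) + (e - (6 * F + 2)) / 2, by omega, ?_⟩
    unfold f1
    split_ifs <;> omega
  · refine ⟨2 * (4 * F + 1) + (e - 2 * F) / 2, by omega, ?_⟩
    unfold f1
    split_ifs <;> omega

theorem f3_add {F e : ℕ} (he : e < 3 * (4 * F + 3)) :
    ∃ l < 3 * (4 * F + 3), l + f3 F l = (3 * (4 * F + 3) - 1) / 2 + e := by
  have e0 : (3 * (4 * F + 3) - 1) / 2 = 6 * F + 4 := by omega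
  rw [e0]
  by_cases h2 : e ≤ 2 * F + 1
  · refine ⟨(4 * F + 3) + 2 * e, by omega, ?_⟩
    unfold f3
    split_ifs <;> omega
  by_cases h3 : 10 * F + 7 ≤ e
  · refine ⟨2 * (4 * F + 3) + 2 * (e - (10 * F + 7)), by omega, ?_⟩
    unfold f3
    split_ifs <;> omega
  by_cases h4 : (6 * F + 4 + e) % 2 = 0
  · refine ⟨(6 * F + 4 + e - 2 * (4 * F + 3)) / 2, by omega, ?_⟩
    unfold f3
    split_ifs <;> omega
  by_cases h5 : e ≤ 4 * F + 4
  · refine ⟨(4 * F + 3) + (4 * F + 4 - e), by omega, ?_⟩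
    unfold f3
    split_ifs <;> omega
  by_cases h6 : e ≤ 6 * F + 4
  · refine ⟨(4 * F + 3) + (8 * F + 6 - e), by omega, ?_⟩
    unfold f3
    split_ifs <;> omega
  by_cases h7 : (e - (6 * F + 4)) % 4 = 1
  · refine ⟨2 * (4 * F + 3) + (e - (6 * F + 3)) / 2, by omega, ?_⟩
    unfold f3
    split_ifs <;> omega
  · refine ⟨2 * (4 * F + 3) + (e - (2 * F + 1)) / 2, by omega, ?_⟩
    unfold f3
    split_ifs <;> omega

end Tr

/-- **`P(3M,M)`.** -/
theorem blk_triangles {M : ℕ} (hM : M % 2 = 1) : Blk (3 * M) M := by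
  by_cases h : M % 4 = 1
  · obtain ⟨F, rfl⟩ : ∃ F, M = 4 * F + 1 := ⟨M / 4, by omega⟩
    exact Tr.blk_of hM (Tr.f1 F) (fun _ hv => Tr.f1_onto hv) (fun _ he => Tr.f1_add he)
      (fun _ hc => Tr.f1_sum hc)
  · obtain ⟨F, rfl⟩ : ∃ F, M = 4 * F + 3 := ⟨M / 4, by omega⟩
    exact Tr.blk_of hM (Tr.f3 F) (fun _ hv => Tr.f3_onto hv) (fun _ he => Tr.f3_add he)
      (fun _ hc => Tr.f3_sum hc)

end Pool.Agent.Helper89.EM
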