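import Pool.Agent.Helper89.EM.Tables
import Pool.Agent.Helper89.EM.Tri
import Pool.Agent.Helper89.EM.SeedDef
import Pool.Agent.Helper92.EM.Engine2

/-!
# Seeds and their products
-/

set_option autoImplicit false

namespace Pool.Agent.Helper89.EM

theorem tri_cases {n k : ℕ} (h : n ∣ k) (hd : ¬ 3 * n ∣ k) :
    n ≡ k [MOD 3 * n] ∨ n + k ≡ 0 [MOD 3 * n] := by
  obtain ⟨t, rfl⟩ := h
  have ht : t % 3 ≠ 0 := fun h0 => hd (by
    obtain ⟨u, rfl⟩ := Nat.dvd_of_mod_eq_zero h0
    exact ⟨u, by ring⟩)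
  have h3 := Nat.div_add_mod t 3
  rcases (by omega : t % 3 = 1 ∨ t % 3 = 2) with h1 | h1
  · left
    rw [h1] at h3
    refine (Nat.modEq_iff_dvd' ?_).2 ⟨t / 3, ?_⟩
    · exact Nat.le_mul_of_pos_right n (by omega)
    · rw [← h3]
      have e : n * (3 * (t / 3) + 1) = n + 3 * n * (t / 3) := by ring
      rw [e, Nat.add_sub_cancel_left, h3]
  · right
    rw [h1] at h3
    rw [Nat.modEq_zero_iff_dvd]
    refine ⟨t / 3 + 1, ?_⟩
    rw [← h3]
    have e : (3 * (t / 3) + 2) / 3 = t / 3 := by omega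
    rw [e]
    ring

/-- Tripling, with the triangles. -/
theorem Blk.tri {n k : ℕ} (hn : n % 2 = 1) (h : n ∣ k ∨ Blk n k) :
    3 * n ∣ k ∨ Blk (3 * n) k := by
  by_cases hd : 3 * n ∣ k
  · exact Or.inl hd
  · right
    rcases h with h | h
    · rcases tri_cases h hd with h1 | h1
      · exact (blk_triangles hn).congr h1
      · exact (blk_triangles hn).neg h1
    · exact h.three hn hd

theorem SEM.tri {n k : ℕ} (hn : n % 2 = 1) (h : n ∣ k ∨ SEM n k) :
    3 * n ∣ k ∨ SEM (3 * n) k := by
  by_cases hd : 3 * n ∣ k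
  · exact Or.inl hd
  · right
    rcases h with h | h
    · have h2 : SEM (3 * n) n := SEM.of_blk (by omega) (blk_triangles hn)
      rcases tri_cases h hd with h1 | h1
      · exact h2.congr h1
      · exact h2.neg h1
    · exact h.three (by omega) hd

/-- All `k`, for `n = 3^a m`. -/
theorem blk_pow {m k : ℕ} (hm : m % 2 = 1) (h23 : m ≤ 23) (a : ℕ) :
    (3 ^ a * m ∣ k ∨ Blk (3 ^ a * m) k) ∧ (3 ^ a * m) % 2 = 1 := by
  induction a with
  | zero =>
    rw [pow_zero, one_mul]
    refine ⟨?_, hm⟩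
    by_cases hd : m ∣ k
    · exact Or.inl hd
    · refine Or.inr (blk_small hm ?_ h23 hd)
      by_contra h3
      have h4 : m = 1 := by omega
      subst h4
      exact hd (one_dvd k)
  | succ a ih =>
    rw [pow_succ', mul_assoc]
    exact ⟨Blk.tri ih.2 ih.1, by omega⟩

theorem Seed.blk {k q : ℕ} (h : Seed k q) : Blk q k := by
  obtain ⟨h1, h3, h⟩ := h
  rcases h with ⟨h', b, m, hm, rfl⟩ | ⟨h', q', hq', rfl⟩ | ⟨z, h⟩ | ⟨z, h⟩ | ⟨z, h⟩ | ⟨z, h⟩ |
    ⟨z, h⟩ | ⟨z, h⟩
  · have hm2 : m % 2 = 1 := by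
      by_contra hm2
      rw [Nat.mul_mod, show m % 2 = 0 by omega] at h1
      simp at h1
    exact (blk_pow hm2 hm b).1.resolve_left h'
  · exact (Blk.tri (by omega) (Or.inl hq')).resolve_left h'
  · exact rel_one (A := 1) (T := 1) (z := z) (by norm_num) h1 isCoprime_one_left
      (by push_cast; linear_combination h) (by norm_num) (by norm_num) (by norm_num) (by norm_num)
  · exact rel_one (A := 1) (T := -1) (z := z) (by norm_num) h1 isCoprime_one_left
      (by push_cast; linear_combination h) (by norm_num) (by norm_num) (by norm_num) (by norm_num)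
  · exact rel_two (A := 1) (T := 2) (z := z) (by norm_num) h1 isCoprime_one_left
      (by push_cast; linear_combination h) (by norm_num) (by norm_num) (by norm_num) (by norm_num)
  · exact rel_two (A := 1) (T := -2) (z := z) (by norm_num) h1 isCoprime_one_left
      (by push_cast; linear_combination h) (by norm_num) (by norm_num) (by norm_num) (by norm_num)
  · exact rel_half (A := 2) (T := 1) (z := z) (by norm_num) h1
      ((Int.isCoprime_iff_gcd_eq_one).2 (by
        rw [Int.gcd_eq_natAbs]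
        simp only [Int.natAbs_natCast]
        exact (Nat.coprime_two_left).2 (Nat.odd_iff.2 h1)))
      (by push_cast; linear_combination h) (by norm_num) (by norm_num) (by norm_num) (by norm_num)
  · exact rel_half (A := 2) (T := -1) (z := z) (by norm_num) h1
      ((Int.isCoprime_iff_gcd_eq_one).2 (by
        rw [Int.gcd_eq_natAbs]
        simp only [Int.natAbs_natCast]
        exact (Nat.coprime_two_left).2 (Nat.odd_iff.2 h1)))
      (by push_cast; linear_combination h) (by norm_num) (by norm_num) (by norm_num) (by norm_num)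

theorem Seed.not_dvd {k q : ℕ} (h : Seed k q) : ¬ q ∣ k := by
  obtain ⟨h1, h3, h⟩ := h
  have key : ∀ c : ℤ, c ≠ 0 → |c| < q → ¬ (q : ℤ) ∣ c := by
    intro c hc hc' hd
    have := Int.le_of_dvd (abs_pos.2 hc) ((dvd_abs _ _).2 hd)
    omega
  rcases h with ⟨h', _⟩ | ⟨h', _⟩ | h | h | h | h | h | h
  · exact h'
  · exact h'
  all_goals
    intro hk
    have hk' : (q : ℤ) ∣ (k : ℤ) := Int.natCast_dvd_natCast.2 hk
  · refine key (-1) (by norm_num) (by rw [abs_neg, abs_one]; omega) ?_
    have := dvd_sub h hk'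
    rwa [sub_sub_cancel_left] at this
  · refine key 1 (by norm_num) (by rw [abs_one]; omega) ?_
    have := dvd_sub h hk'
    rwa [add_sub_cancel_left] at this
  · refine key (-2) (by norm_num) (by rw [abs_neg, abs_two]; omega) ?_
    have := dvd_sub h hk'
    rwa [sub_sub_cancel_left] at this
  · refine key 2 (by norm_num) (by rw [abs_two]; omega) ?_
    have := dvd_sub h hk'
    rwa [add_sub_cancel_left] at this
  · refine key (-1) (by norm_num) (by rw [abs_neg, abs_one]; omega) ?_
    have := dvd_sub h (dvd_mul_of_dvd_right hk' 2)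
    rwa [sub_sub_cancel_left] at this
  · refine key 1 (by norm_num) (by rw [abs_one]; omega) ?_
    have := dvd_sub h (dvd_mul_of_dvd_right hk' 2)
    rwa [add_sub_cancel_left] at this

theorem blk_prod {k : ℕ} : ∀ qs : List ℕ, qs ≠ [] → qs.Pairwise Nat.Coprime →
    (∀ q ∈ qs, Seed k q) → Blk qs.prod k ∧ ¬ qs.prod ∣ k ∧ qs.prod % 2 = 1 := by
  intro qs
  induction qs with
  | nil => intro h; exact absurd rfl h
  | cons q qs ih =>
    intro _ hc hs
    have hq := hs q (by simp)
    rw [List.pairwise_cons] at hc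
    rw [List.prod_cons]
    by_cases hqs : qs = []
    · subst hqs
      rw [List.prod_nil, mul_one]
      exact ⟨hq.blk, hq.not_dvd, hq.1⟩
    · obtain ⟨h1, h2, h3⟩ := ih hqs hc.2 (fun q' hq' => hs q' (by simp [hq']))
      have hcop : Nat.Coprime q qs.prod := by
        rw [Nat.coprime_list_prod_right_iff]
        exact hc.1
      have hpos : 0 < qs.prod := by omega
      refine ⟨?_, ?_, ?_⟩
      · refine Rel.comp hq.1 h3 hq.blk ?_
        rw [one_mul]
        exact Rel.of_blk hpos hcop h1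
      · intro hd
        exact hq.not_dvd ((dvd_mul_right _ _).trans hd)
      · rw [Nat.mul_mod, hq.1, h3]

theorem blk_tri {k m : ℕ} (hm : m % 2 = 1) (hd : ¬ m ∣ k) (h : Blk m k) (a : ℕ) :
    Blk (3 ^ a * m) k ∧ (3 ^ a * m) % 2 = 1 := by
  induction a with
  | zero => simpa using ⟨h, hm⟩
  | succ a ih =>
    have e : 3 ^ (a + 1) * m = 3 * (3 ^ a * m) := by ring
    rw [e]
    refine ⟨ih.1.three ih.2 ?_, by omega⟩
    intro hd'
    exact hd (((dvd_mul_left m (3 ^ a)).mul_left 3).trans hd')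

theorem Good.blk {k M : ℕ} (h : Good k M) : Blk M k ∧ M % 2 = 1 := by
  obtain ⟨a, qs, h1, h2, h3, rfl⟩ := h
  obtain ⟨h4, h5, h6⟩ := blk_prod qs h1 h2 h3
  exact blk_tri h6 h5 h4 a

end Pool.Agent.Helper89.EM
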