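import Pool.Agent.Helper89.EM.Net1

/-!
# The case `2k < m < 3k`, `k` even
-/

set_option autoImplicit false
set_option linter.unusedVariables false

namespace Pool.Agent.Helper89.EM

/-- edge condition with propositions -/
def Cd (P Q : Prop) (d : ℤ) : Prop :=
  (P ∧ Q ∧ (d = 2 ∨ d = -2)) ∨ (¬ (P ∧ Q) ∧ (d = 1 ∨ d = -1))

theorem rel_base {m r k : ℕ} (hr : r % 2 = 1) (hm0 : 0 < m) (hkm : k < m) (X Y : ℕ → ℤ)
    (P Q : ℕ → Prop) [DecidablePred P] [DecidablePred Q]
    (hu : ∀ I, I + 1 < m → Cd (P I) (P (I + 1)) (X (I + 1) - X I))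
    (hu' : Cd (P (m - 1)) (P 0) (X 0 + 1 - X (m - 1)))
    (hs : ∀ I, I < m → Cd (P I) (Q I) (Y I - X I))
    (hv : ∀ I, I + k < m → Cd (Q I) (Q (I + k)) (Y (I + k) - Y I))
    (hv' : ∀ I, I < m → m ≤ I + k → Cd (Q I) (Q (I + k - m)) (Y (I + k - m) + 1 - Y I)) :
    Rel m r k := by
  have key : ∀ {p q : Bool} {d : ℤ}, Ed p q d → ∃ s : ℤ, (s = 1 ∨ s = -1) ∧
      (r : ℤ) ∣ d - s * (if p && q then 2 else 1) := by
    rintro p q d ⟨s, hs, h⟩
    exact ⟨s, hs, 0, by rw [h]; ring⟩
  have dm : ∀ {n c d : ℕ}, c < m → n = m * d + c → n / m = d ∧ n % m = c := by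
    intro n c d hc h
    subst h
    exact ⟨by rw [Nat.mul_add_div hm0, Nat.div_eq_of_lt hc, add_zero],
      by rw [Nat.mul_add_mod, Nat.mod_eq_of_lt hc]⟩
  refine engine (m := m) (r := r) (k := k) hr (fun i => X (i % m) + ((i / m : ℕ) : ℤ))
    (fun i => Y (i % m) + ((i / m : ℕ) : ℤ)) (fun i => decide (P (i % m)))
    (fun i => decide (Q (i % m))) (A := 1) isCoprime_one_left ?_ ?_ ?_ ?_ ?_ ?_ ?_
  · intro i
    refine ⟨0, ?_⟩
    simp only [Nat.add_mod_right, Nat.add_div_right i hm0]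
    push_cast
    ring
  · intro i
    refine ⟨0, ?_⟩
    simp only [Nat.add_mod_right, Nat.add_div_right i hm0]
    push_cast
    ring
  · intro i
    simp only [Nat.add_mod_right]
  · intro i
    simp only [Nat.add_mod_right]
  · intro i
    have hI := Nat.mod_lt i hm0
    have hd := Nat.div_add_mod i m
    show ∃ s : ℤ, (s = 1 ∨ s = -1) ∧ (r : ℤ) ∣
      X ((i + 1) % m) + (((i + 1) / m : ℕ) : ℤ) - (X (i % m) + ((i / m : ℕ) : ℤ)) -
        s * (if decide (P (i % m)) && decide (P ((i + 1) % m)) then 2 else 1)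
    generalize i % m = I at *
    generalize i / m = q at *
    by_cases h1 : I + 1 < m
    · obtain ⟨e1, e2⟩ := dm (n := i + 1) (c := I + 1) (d := q) h1 (by omega)
      rw [e1, e2, show X (I + 1) + (q : ℤ) - (X I + (q : ℤ)) = X (I + 1) - X I by ring]
      exact key (ed_intro (hu I h1))
    · have h2 : I = m - 1 := by omega
      obtain ⟨e1, e2⟩ := dm (n := i + 1) (c := 0) (d := q + 1) hm0
        (by rw [mul_add, mul_one]; omega)
      rw [e1, e2, h2]
      push_cast
      rw [show X 0 + ((q : ℤ) + 1) - (X (m - 1) + (q : ℤ)) = X 0 + 1 - X (m - 1) by ring]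
      exact key (ed_intro hu')
  · intro i
    have hI := Nat.mod_lt i hm0
    show ∃ s : ℤ, (s = 1 ∨ s = -1) ∧ (r : ℤ) ∣
      Y (i % m) + ((i / m : ℕ) : ℤ) - (X (i % m) + ((i / m : ℕ) : ℤ)) -
        s * (if decide (P (i % m)) && decide (Q (i % m)) then 2 else 1)
    rw [show Y (i % m) + ((i / m : ℕ) : ℤ) - (X (i % m) + ((i / m : ℕ) : ℤ)) =
      Y (i % m) - X (i % m) by ring]
    exact key (ed_intro (hs _ hI))
  · intro i
    have hI := Nat.mod_lt i hm0
    have hd := Nat.div_add_mod i m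
    show ∃ s : ℤ, (s = 1 ∨ s = -1) ∧ (r : ℤ) ∣
      Y ((i + k) % m) + (((i + k) / m : ℕ) : ℤ) - (Y (i % m) + ((i / m : ℕ) : ℤ)) -
        s * (if decide (Q (i % m)) && decide (Q ((i + k) % m)) then 2 else 1)
    generalize i % m = I at *
    generalize i / m = q at *
    by_cases h1 : I + k < m
    · obtain ⟨e1, e2⟩ := dm (n := i + k) (c := I + k) (d := q) h1 (by omega)
      rw [e1, e2, show Y (I + k) + (q : ℤ) - (Y I + (q : ℤ)) = Y (I + k) - Y I by ring]
      exact key (ed_intro (hv I h1))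
    · obtain ⟨e1, e2⟩ := dm (n := i + k) (c := I + k - m) (d := q + 1) (by omega)
        (by rw [mul_add, mul_one]; omega)
      rw [e1, e2]
      push_cast
      rw [show Y (I + k - m) + ((q : ℤ) + 1) - (Y I + (q : ℤ)) = Y (I + k - m) + 1 - Y I by ring]
      exact key (ed_intro (hv' I hI (by omega)))

namespace Gp

/-- isolated inner vertices -/
def T (m k g I : ℕ) : Prop :=
  (k + g + 2 ≤ I ∧ I + 2 ≤ m) ∨ I = g ∨ I = k ∨ ((g = 1 ∨ g + 1 = k) ∧ (I = k + g + 1 ∨ I + 1 = m))

instance (m k g : ℕ) : DecidablePred (T m k g) := fun I => by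
  unfold T
  infer_instance

/-- outer vertices of depth one -/
def N (m k g I : ℕ) : Prop := I = 0 ∨ I + 1 = m ∨ I = k + g ∨ I = k + g + 1

instance (m k g : ℕ) : DecidablePred (N m k g) := fun I => by
  unfold N
  infer_instance

/-- flips -/
def fl (k g I : ℕ) : ℤ := if k + g + 1 ≤ I then 1 else 0

/-- inner heights -/
def Y (m k g I : ℕ) : ℤ :=
  if T m k g I then ((I : ℤ) + 1 + fl k g I) % 2
  else if I = 0 then 2
  else if I + 1 = k then (if g = 1 then 0 else 2)
  else if I < k then 1 - (I : ℤ) % 2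
  else if I < k + g then (if I % 2 = 1 then 2 else -1)
  else if I = k + g + 1 then -1 else 1

/-- outer heights -/
def X (m k g I : ℕ) : ℤ :=
  if N m k g I then (if I = 0 then 0 else if I = k + g + 1 then 1 else -1)
  else ((I : ℤ) + fl k g I) % 2

theorem hu {m k g : ℕ} (hk : k % 2 = 0) (hk4 : 4 ≤ k) (hg : g % 2 = 1) (hgk : g < k)
    (hm : m = 2 * k + g) (I : ℕ) (h : I + 1 < m) :
    Cd (N m k g I) (N m k g (I + 1)) (X m k g (I + 1) - X m k g I) := by
  unfold Cd
  by_cases t1 : N m k g I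
  · by_cases t2 : N m k g (I + 1)
    · left
      refine ⟨t1, t2, ?_⟩
      unfold X
      rw [if_pos t1, if_pos t2]
      unfold N at t1 t2
      omega
    · right
      refine ⟨fun h => t2 h.2, ?_⟩
      unfold X
      rw [if_pos t1, if_neg t2]
      unfold N at t1 t2
      unfold fl
      push_cast
      omega
  · by_cases t2 : N m k g (I + 1)
    · right
      refine ⟨fun h => t1 h.1, ?_⟩
      unfold X
      rw [if_neg t1, if_pos t2]
      unfold N at t1 t2
      unfold fl
      push_cast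
      omega
    · right
      refine ⟨fun h => t1 h.1, ?_⟩
      unfold X
      rw [if_neg t1, if_neg t2]
      unfold N at t1 t2
      unfold fl
      push_cast
      omega

theorem hu' {m k g : ℕ} (hk : k % 2 = 0) (hk4 : 4 ≤ k) (hg : g % 2 = 1) (hgk : g < k)
    (hm : m = 2 * k + g) : Cd (N m k g (m - 1)) (N m k g 0) (X m k g 0 + 1 - X m k g (m - 1)) := by
  left
  have t1 : N m k g (m - 1) := Or.inr (Or.inl (by omega))
  have t2 : N m k g 0 := Or.inl rfl
  refine ⟨t1, t2, ?_⟩
  unfold X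
  rw [if_pos t1, if_pos t2]
  omega

theorem hs {m k g : ℕ} (hk : k % 2 = 0) (hk4 : 4 ≤ k) (hg : g % 2 = 1) (hgk : g < k)
    (hm : m = 2 * k + g) (I : ℕ) (h : I < m) :
    Cd (N m k g I) (¬ T m k g I) (Y m k g I - X m k g I) := by
  unfold Cd
  by_cases t1 : N m k g I
  · by_cases t2 : T m k g I
    · right
      refine ⟨fun h => h.2 t2, ?_⟩
      unfold X Y
      rw [if_pos t1, if_pos t2]
      unfold N at t1
      unfold T at t2
      unfold fl
      omega
    · left
      refine ⟨t1, t2, ?_⟩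
      unfold X Y
      rw [if_pos t1, if_neg t2]
      unfold N at t1
      unfold T at t2
      omega
  · by_cases t2 : T m k g I
    · right
      refine ⟨fun h => h.2 t2, ?_⟩
      unfold X Y
      rw [if_neg t1, if_pos t2]
      unfold N at t1
      unfold T at t2
      unfold fl
      omega
    · right
      refine ⟨fun h => t1 h.1, ?_⟩
      unfold X Y
      rw [if_neg t1, if_neg t2]
      unfold N at t1
      unfold T at t2
      unfold fl
      omega

theorem hv {m k g : ℕ} (hk : k % 2 = 0) (hk4 : 4 ≤ k) (hg : g % 2 = 1) (hgk : g < k)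
    (hm : m = 2 * k + g) (I : ℕ) (h : I + k < m) :
    Cd (¬ T m k g I) (¬ T m k g (I + k)) (Y m k g (I + k) - Y m k g I) := by
  unfold Cd
  by_cases t1 : T m k g I
  · by_cases t2 : T m k g (I + k)
    · right
      refine ⟨fun h => h.1 t1, ?_⟩
      unfold Y
      rw [if_pos t1, if_pos t2]
      unfold T at t1 t2
      unfold fl
      push_cast
      omega
    · right
      refine ⟨fun h => h.1 t1, ?_⟩
      unfold Y
      rw [if_pos t1, if_neg t2]
      unfold T at t1 t2
      unfold fl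
      push_cast
      omega
  · by_cases t2 : T m k g (I + k)
    · right
      refine ⟨fun h => h.2 t2, ?_⟩
      unfold Y
      rw [if_neg t1, if_pos t2]
      unfold T at t1 t2
      unfold fl
      push_cast
      omega
    · left
      refine ⟨t1, t2, ?_⟩
      unfold Y
      rw [if_neg t1, if_neg t2]
      unfold T at t1 t2
      push_cast
      omega

theorem hv' {m k g : ℕ} (hk : k % 2 = 0) (hk4 : 4 ≤ k) (hg : g % 2 = 1) (hgk : g < k)
    (hm : m = 2 * k + g) (I : ℕ) (h : I < m) (h' : m ≤ I + k) :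
    Cd (¬ T m k g I) (¬ T m k g (I + k - m)) (Y m k g (I + k - m) + 1 - Y m k g I) := by
  obtain ⟨J, hJ⟩ : ∃ J, J = I + k - m := ⟨_, rfl⟩
  rw [← hJ]
  have hJ' : I = J + k + g := by omega
  subst hJ'
  unfold Cd
  by_cases t1 : T m k g (J + k + g)
  · by_cases t2 : T m k g J
    · right
      refine ⟨fun h => h.1 t1, ?_⟩
      unfold Y
      rw [if_pos t1, if_pos t2]
      unfold T at t1 t2
      unfold fl
      push_cast
      omega
    · right
      refine ⟨fun h => h.1 t1, ?_⟩
      unfold Y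
      rw [if_pos t1, if_neg t2]
      unfold T at t1 t2
      unfold fl
      push_cast
      omega
  · by_cases t2 : T m k g J
    · right
      refine ⟨fun h => h.2 t2, ?_⟩
      unfold Y
      rw [if_neg t1, if_pos t2]
      unfold T at t1 t2
      unfold fl
      push_cast
      omega
    · left
      refine ⟨t1, t2, ?_⟩
      unfold Y
      rw [if_neg t1, if_neg t2]
      unfold T at t1 t2
      push_cast
      omega

end Gp

theorem rel_gap {m r k : ℕ} (hk : k % 2 = 0) (hk4 : 4 ≤ k) (hm : m % 2 = 1) (hm2 : 2 * k < m)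
    (hm3 : m < 3 * k) (hr : r % 2 = 1) : Rel m r k := by
  obtain ⟨g, hg⟩ : ∃ g, m = 2 * k + g := ⟨m - 2 * k, by omega⟩
  have hg2 : g % 2 = 1 := by omega
  have hgk : g < k := by omega
  exact rel_base hr (by omega) (by omega) (Gp.X m k g) (Gp.Y m k g) (Gp.N m k g)
    (fun I => ¬ Gp.T m k g I) (Gp.hu hk hk4 hg2 hgk hg) (Gp.hu' hk hk4 hg2 hgk hg)
    (Gp.hs hk hk4 hg2 hgk hg) (Gp.hv hk hk4 hg2 hgk hg) (Gp.hv' hk hk4 hg2 hgk hg)

end Pool.Agent.Helper89.EM
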