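import Pool.Agent.Helper89.EM.Family
import Pool.Agent.Helper89.EM.Graph
import Pool.Agent.Helper89.EM.Gap
import Pool.Agent.Helper92.EM.Even

/-!
# Persistence: all odd multiples
-/

set_option autoImplicit false

namespace Pool.Agent.Helper89.EM

/-- The bound: `2k < m`, or `k ≤ m` if `4` does not divide `k`. -/
def Big (k m : ℕ) : Prop := 2 * k < m ∨ (k % 4 ≠ 0 ∧ k ≤ m)

theorem rel_persist {m r k : ℕ} (hm : m % 2 = 1) (hr : r % 2 = 1) (hk : 1 ≤ k) (h : Big k m) :
    Rel m r k := by
  have h1 : (1 : ℤ) ≤ m := by omega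
  by_cases h2 : k % 2 = 1
  · have hkm : (k : ℤ) ≤ m := by rcases h with h | h <;> omega
    exact rel_one (A := 1) (T := k) (z := 0) hm hr isCoprime_one_left (by ring) (by norm_num)
      (by omega) (by rw [abs_one]; exact h1) (by rw [abs_of_nonneg (by omega)]; exact hkm)
  · by_cases h4 : k % 4 = 2
    · have hkm : (k : ℤ) ≤ m := by rcases h with h | h <;> omega
      exact rel_two (A := 1) (T := k) (z := 0) hm hr isCoprime_one_left (by ring) (by norm_num)
        (by omega) (by rw [abs_one]; exact h1) (by rw [abs_of_nonneg (by omega)]; omega)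
    · have h5 : k % 4 = 0 := by omega
      rcases h with h | h
      · by_cases h6 : 3 * k ≤ m
        · exact rel_even (by omega) (by omega) hm h6 hr
        · exact rel_gap (by omega) (by omega) hm h (by omega) hr
      · exact absurd h5 h.1

/-- Persistence, for graphs. -/
theorem persistence {m r k : ℕ} (hm : m % 2 = 1) (hr : r % 2 = 1) (hk0 : 1 ≤ k) (hk : 2 * k < m)
    (h : IsSuperEdgeMagic (GP m k)) : IsSuperEdgeMagic (GP (m * r) k) := by
  have h1 := sem_of_isSuperEdgeMagic (by omega) hk0 hk h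
  have h2 := h1.lift (by omega : 0 < r) (rel_persist hm hr hk0 (Or.inl hk))
  have h3 : m ≤ m * r := Nat.le_mul_of_pos_right m (by omega)
  refine isSuperEdgeMagic_of_sem (by omega) ?_ h2
  intro hd
  have := Nat.le_of_dvd (by omega) hd
  omega

theorem family {n k M : ℕ} (hn : n % 2 = 1) (hk0 : 1 ≤ k) (hk : 2 * k < n) (hM : Good k M)
    (hd : M ∣ n) (hb : M = n ∨ Big k M) : IsSuperEdgeMagic (GP n k) := by
  obtain ⟨h1, h2⟩ := hM.blk
  obtain ⟨r, rfl⟩ := hd
  have hr : r % 2 = 1 := by
    by_contra hr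
    have : (M * r) % 2 = 0 := by
      rw [Nat.mul_mod, show r % 2 = 0 by omega]
      simp
    omega
  have hS : SEM M k := SEM.of_blk (by omega) h1
  have hS2 : SEM (M * r) k := by
    rcases hb with hb | hb
    · rwa [← hb]
    · exact hS.lift (by omega) (rel_persist h2 hr hk0 hb)
  refine isSuperEdgeMagic_of_sem (by omega) ?_ hS2
  intro hd
  have := Nat.le_of_dvd (by omega) hd
  omega

/-- `2k+1` is a seed for `k`. -/
theorem good_self {k : ℕ} (hk : 1 ≤ k) : Good k (2 * k + 1) := by
  refine ⟨0, [2 * k + 1], by simp, by simp, ?_, by simp⟩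
  intro q hq
  rw [List.mem_singleton] at hq
  subst hq
  exact ⟨by omega, by omega, Or.inr (Or.inr (Or.inr (Or.inr (Or.inr (Or.inr (Or.inr ⟨1, by omega⟩))))))⟩

end Pool.Agent.Helper89.EM
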