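import Pool.Agent.Helper89.EM.ZeroAll
import Pool.Agent.Helper89.EM.AllK

/-!
# `P(n,k)` for `gcd(k,n)^2 ≥ n`
-/

set_option autoImplicit false

namespace Pool.Agent.Helper89.EM

theorem SEM.vert {m r j : ℕ} (hm : m % 2 = 1) (hm5 : 5 ≤ m) (hr : r % 2 = 1) (hrm : r ≤ m)
    (hj : Nat.Coprime j r) : SEM (m * r) (m * j) := by
  have h0 : SEM m (m * j) := (sem_zero_all hm hm5).congr (by simp [Nat.ModEq])
  exact h0.lift (by omega) (rel_vert hm hr hrm hj)

/-- `P(n,k)` for `gcd(k,n)^2 ≥ n`. -/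
theorem graph_short {n k : ℕ} (hn : n % 2 = 1) (hk0 : 1 ≤ k) (hk : 2 * k < n)
    (h : n ≤ Nat.gcd k n ^ 2) : IsSuperEdgeMagic (GP n k) := by
  obtain ⟨m, hm⟩ : ∃ m, m = Nat.gcd k n := ⟨_, rfl⟩
  have hm0 : 0 < m := by
    rw [hm]
    exact Nat.gcd_pos_of_pos_left _ hk0
  obtain ⟨r, hr⟩ : m ∣ n := hm ▸ Nat.gcd_dvd_right k n
  obtain ⟨j, hj⟩ : m ∣ k := hm ▸ Nat.gcd_dvd_left k n
  have hcop : Nat.Coprime j r := by
    have h1 : Nat.gcd (m * j) (m * r) = m := by
      rw [← hr, ← hj]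
      exact hm.symm
    rw [Nat.gcd_mul_left] at h1
    have h2 : m * Nat.gcd j r = m * 1 := by omega
    exact Nat.eq_of_mul_eq_mul_left hm0 h2
  rw [← hm, hr, pow_two] at h
  have hrm : r ≤ m := Nat.le_of_mul_le_mul_left h hm0
  have hodd : m % 2 = 1 ∧ r % 2 = 1 := by
    rw [hr, Nat.mul_mod] at hn
    rcases Nat.mod_two_eq_zero_or_one m with h1 | h1 <;>
    rcases Nat.mod_two_eq_zero_or_one r with h2 | h2 <;> simp [h1, h2] at hn ⊢
  have hj0 : 1 ≤ j := by
    rcases Nat.eq_zero_or_pos j with h1 | h1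
    · rw [h1, mul_zero] at hj
      omega
    · exact h1
  have hjr : 2 * j < r := by
    have h1 : m * (2 * j) < m * r := by
      calc m * (2 * j) = 2 * (m * j) := by ring
        _ = 2 * k := by rw [hj]
        _ < n := hk
        _ = m * r := hr
    exact Nat.lt_of_mul_lt_mul_left h1
  by_cases hm5 : 5 ≤ m
  · refine graph_of hk0 hk (Or.inr ?_)
    rw [hr, hj]
    exact SEM.vert hodd.1 hm5 hodd.2 hrm hcop
  · have h1 : m = 3 ∧ r = 3 := by omega
    have h2 : j = 1 := by omega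
    obtain ⟨h3, h4⟩ := h1
    subst h3 h4 h2
    refine graph_of hk0 hk (Or.inr ?_)
    rw [hr, hj]
    exact SEM.of_blk (by norm_num) (blk_small (r := 9) (by norm_num) (by norm_num) (by norm_num)
      (by norm_num))

end Pool.Agent.Helper89.EM
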