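import Pool.Agent.Helper89.EM.Three

/-!
# Block labellings of `P(r,k)` for all odd `r ≤ 23`
-/

set_option autoImplicit false

namespace Pool.Agent.Helper89.EM

/-- checker for block labellings given by lists -/
def chk (r k : ℕ) (P Q : List ℕ) : Bool :=
  (List.range r).all fun e =>
    (List.range r).any (fun i => P.getD (i % r) 0 == e) &&
    (List.range r).any (fun i => Q.getD (i % r) 0 == e) &&
    (List.range r).any (fun i => P.getD (i % r) 0 + P.getD ((i + 1) % r) 0 == (r - 1) / 2 + e) &&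
    (List.range r).any (fun i => P.getD (i % r) 0 + Q.getD (i % r) 0 == (r - 1) / 2 + e) &&
    (List.range r).any (fun i => Q.getD (i % r) 0 + Q.getD ((i + k) % r) 0 == (r - 1) / 2 + e)

theorem blk_of_chk {r k : ℕ} {P Q : List ℕ} (hr : 0 < r) (h : chk r k P Q = true) : Blk r k := by
  have H : ∀ e < r,
      (∃ i < r, P.getD (i % r) 0 = e) ∧ (∃ i < r, Q.getD (i % r) 0 = e) ∧
      (∃ i < r, P.getD (i % r) 0 + P.getD ((i + 1) % r) 0 = (r - 1) / 2 + e) ∧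
      (∃ i < r, P.getD (i % r) 0 + Q.getD (i % r) 0 = (r - 1) / 2 + e) ∧
      (∃ i < r, Q.getD (i % r) 0 + Q.getD ((i + k) % r) 0 = (r - 1) / 2 + e) := by
    intro e he
    unfold chk at h
    rw [List.all_eq_true] at h
    have h1 := h e (List.mem_range.2 he)
    simp only [Bool.and_eq_true, List.any_eq_true, List.mem_range, beq_iff_eq] at h1
    obtain ⟨⟨⟨⟨h1, h2⟩, h3⟩, h4⟩, h5⟩ := h1
    exact ⟨h1, h2, h3, h4, h5⟩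
  have key : ∀ i a : ℕ, ∃ j, (i + 1 * j) % r = a % r := by
    intro i a
    refine ⟨a + (r - 1) * i, ?_⟩
    obtain ⟨r', rfl⟩ : ∃ r', r = r' + 1 := ⟨r - 1, by omega⟩
    have e1 : i + 1 * (a + (r' + 1 - 1) * i) = a + (r' + 1) * i := by
      rw [Nat.add_sub_cancel]
      ring
    rw [e1, Nat.add_mul_mod_self_left]
  have key2 : ∀ i a c : ℕ, i % r = a % r → (i + c) % r = (a + c) % r := by
    intro i a c h
    exact Nat.ModEq.add_right c h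
  refine ⟨fun i => P.getD (i % r) 0, fun i => Q.getD (i % r) 0, ?_, ?_, ?_, ?_, ?_, ?_, ?_⟩
  · intro i
    simp
  · intro i
    simp
  · intro i e he
    obtain ⟨a, -, ha⟩ := (H e he).1
    obtain ⟨j, hj⟩ := key i a
    exact ⟨j, by show P.getD ((i + 1 * j) % r) 0 = e; rw [hj, ha]⟩
  · intro i e he
    obtain ⟨a, -, ha⟩ := (H e he).2.1
    obtain ⟨j, hj⟩ := key i a
    exact ⟨j, by show Q.getD ((i + 1 * j) % r) 0 = e; rw [hj, ha]⟩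
  · intro i e he
    obtain ⟨a, -, ha⟩ := (H e he).2.2.1
    obtain ⟨j, hj⟩ := key i a
    refine ⟨j, ?_⟩
    show P.getD ((i + 1 * j) % r) 0 + P.getD ((i + 1 * j + 1) % r) 0 = _
    rw [key2 _ _ 1 hj, hj, ha]
  · intro i e he
    obtain ⟨a, -, ha⟩ := (H e he).2.2.2.1
    obtain ⟨j, hj⟩ := key i a
    refine ⟨j, ?_⟩
    show P.getD ((i + 1 * j) % r) 0 + Q.getD ((i + 1 * j) % r) 0 = _
    rw [hj, ha]
  · intro i e he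
    obtain ⟨a, -, ha⟩ := (H e he).2.2.2.2
    obtain ⟨j, hj⟩ := key i a
    refine ⟨j, ?_⟩
    show Q.getD ((i + 1 * j) % r) 0 + Q.getD ((i + 1 * j + k) % r) 0 = _
    rw [key2 _ _ k hj, hj, ha]

theorem b_5_1 : Blk 5 1 := blk_of_chk (P := [2, 0, 3, 1, 4])
  (Q := [0, 3, 1, 4, 2]) (by norm_num) (by decide)

theorem b_5_2 : Blk 5 2 := blk_of_chk (P := [2, 0, 3, 1, 4])
  (Q := [0, 4, 3, 2, 1]) (by norm_num) (by decide)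

theorem b_7_1 : Blk 7 1 := blk_of_chk (P := [3, 0, 4, 1, 5, 2, 6])
  (Q := [0, 4, 1, 5, 2, 6, 3]) (by norm_num) (by decide)

theorem b_7_2 : Blk 7 2 := blk_of_chk (P := [3, 0, 4, 1, 5, 2, 6])
  (Q := [1, 6, 4, 2, 0, 5, 3]) (by norm_num) (by decide)

theorem b_7_3 : Blk 7 3 := blk_of_chk (P := [3, 0, 4, 1, 5, 2, 6])
  (Q := [6, 5, 4, 3, 2, 1, 0]) (by norm_num) (by decide)

theorem b_9_1 : Blk 9 1 := blk_of_chk (P := [4, 0, 5, 1, 6, 2, 7, 3, 8])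
  (Q := [0, 5, 1, 6, 2, 7, 3, 8, 4]) (by norm_num) (by decide)

theorem b_9_2 : Blk 9 2 := blk_of_chk (P := [4, 0, 5, 1, 6, 2, 7, 3, 8])
  (Q := [5, 6, 7, 3, 1, 8, 4, 2, 0]) (by norm_num) (by decide)

theorem b_9_3 : Blk 9 3 := blk_of_chk (P := [4, 0, 5, 1, 6, 2, 7, 3, 8])
  (Q := [8, 6, 3, 4, 5, 7, 0, 1, 2]) (by norm_num) (by decide)

theorem b_9_4 : Blk 9 4 := blk_of_chk (P := [4, 0, 5, 1, 6, 2, 7, 3, 8])
  (Q := [8, 7, 6, 5, 4, 3, 2, 1, 0]) (by norm_num) (by decide)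

theorem b_11_1 : Blk 11 1 := blk_of_chk (P := [5, 0, 6, 1, 7, 2, 8, 3, 9, 4, 10])
  (Q := [0, 6, 1, 7, 2, 8, 3, 9, 4, 10, 5]) (by norm_num) (by decide)

theorem b_11_2 : Blk 11 2 := blk_of_chk (P := [5, 0, 6, 1, 7, 2, 8, 3, 9, 4, 10])
  (Q := [6, 7, 2, 4, 8, 10, 1, 3, 5, 9, 0]) (by norm_num) (by decide)

theorem b_11_3 : Blk 11 3 := blk_of_chk (P := [5, 0, 6, 1, 7, 2, 8, 3, 9, 4, 10])
  (Q := [10, 8, 7, 5, 0, 3, 1, 9, 2, 6, 4]) (by norm_num) (by decide)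

theorem b_11_4 : Blk 11 4 := blk_of_chk (P := [0, 10, 5, 9, 4, 8, 3, 2, 7, 1, 6])
  (Q := [5, 4, 2, 6, 8, 1, 10, 9, 3, 7, 0]) (by norm_num) (by decide)

theorem b_11_5 : Blk 11 5 := blk_of_chk (P := [5, 0, 6, 1, 7, 2, 8, 3, 9, 4, 10])
  (Q := [10, 9, 8, 7, 6, 5, 4, 3, 2, 1, 0]) (by norm_num) (by decide)

theorem b_13_1 : Blk 13 1 := blk_of_chk (P := [6, 0, 7, 1, 8, 2, 9, 3, 10, 4, 11, 5, 12])
  (Q := [0, 7, 1, 8, 2, 9, 3, 10, 4, 11, 5, 12, 6]) (by norm_num) (by decide)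

theorem b_13_2 : Blk 13 2 := blk_of_chk (P := [6, 0, 7, 1, 8, 2, 9, 3, 10, 4, 11, 5, 12])
  (Q := [9, 12, 2, 5, 8, 11, 1, 4, 7, 10, 0, 3, 6]) (by norm_num) (by decide)

theorem b_13_3 : Blk 13 3 := blk_of_chk (P := [6, 0, 7, 1, 8, 2, 9, 3, 10, 4, 11, 5, 12])
  (Q := [0, 7, 4, 8, 10, 12, 1, 5, 2, 9, 6, 11, 3]) (by norm_num) (by decide)

theorem b_13_4 : Blk 13 4 := blk_of_chk (P := [6, 0, 7, 1, 8, 2, 9, 3, 10, 4, 11, 5, 12])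
  (Q := [2, 9, 3, 6, 10, 4, 8, 11, 5, 12, 0, 7, 1]) (by norm_num) (by decide)

theorem b_13_5 : Blk 13 5 := blk_of_chk (P := [6, 0, 7, 1, 8, 2, 9, 3, 10, 4, 11, 5, 12])
  (Q := [9, 6, 11, 10, 5, 7, 8, 4, 0, 12, 1, 3, 2]) (by norm_num) (by decide)

theorem b_13_6 : Blk 13 6 := blk_of_chk (P := [6, 0, 7, 1, 8, 2, 9, 3, 10, 4, 11, 5, 12])
  (Q := [12, 11, 10, 9, 8, 7, 6, 5, 4, 3, 2, 1, 0]) (by norm_num) (by decide)

theorem b_15_1 : Blk 15 1 := blk_of_chk (P := [7, 0, 8, 1, 9, 2, 10, 3, 11, 4, 12, 5, 13, 6, 14])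
  (Q := [0, 8, 1, 9, 2, 10, 3, 11, 4, 12, 5, 13, 6, 14, 7]) (by norm_num) (by decide)

theorem b_15_2 : Blk 15 2 := blk_of_chk (P := [7, 0, 8, 1, 9, 2, 10, 3, 11, 4, 12, 5, 13, 6, 14])
  (Q := [5, 13, 9, 8, 1, 12, 11, 4, 0, 14, 7, 3, 2, 10, 6]) (by norm_num) (by decide)

theorem b_15_3 : Blk 15 3 := blk_of_chk (P := [7, 0, 8, 1, 9, 2, 10, 3, 11, 4, 12, 5, 13, 6, 14])
  (Q := [0, 14, 3, 12, 1, 10, 9, 13, 7, 11, 5, 4, 8, 2, 6]) (by norm_num) (by decide)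

theorem b_15_4 : Blk 15 4 := blk_of_chk (P := [7, 0, 8, 1, 9, 2, 10, 3, 11, 4, 12, 5, 13, 6, 14])
  (Q := [2, 10, 0, 14, 7, 9, 11, 4, 3, 8, 1, 12, 5, 13, 6]) (by norm_num) (by decide)

theorem b_15_5 : Blk 15 5 := blk_of_chk (P := [7, 0, 8, 1, 9, 2, 10, 3, 11, 4, 12, 5, 13, 6, 14])
  (Q := [12, 8, 7, 13, 1, 9, 11, 10, 5, 14, 0, 2, 4, 3, 6]) (by norm_num) (by decide)

theorem b_15_6 : Blk 15 6 := blk_of_chk (P := [7, 0, 8, 1, 9, 2, 10, 3, 11, 4, 12, 5, 13, 6, 14])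
  (Q := [10, 8, 1, 14, 12, 5, 3, 11, 9, 7, 0, 13, 6, 4, 2]) (by norm_num) (by decide)

theorem b_15_7 : Blk 15 7 := blk_of_chk (P := [7, 0, 8, 1, 9, 2, 10, 3, 11, 4, 12, 5, 13, 6, 14])
  (Q := [14, 13, 12, 11, 10, 9, 8, 7, 6, 5, 4, 3, 2, 1, 0]) (by norm_num) (by decide)

theorem b_17_1 : Blk 17 1 := blk_of_chk (P := [8, 0, 9, 1, 10, 2, 11, 3, 12, 4, 13, 5, 14, 6, 15, 7, 16])
  (Q := [0, 9, 1, 10, 2, 11, 3, 12, 4, 13, 5, 14, 6, 15, 7, 16, 8]) (by norm_num) (by decide)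

theorem b_17_2 : Blk 17 2 := blk_of_chk (P := [8, 0, 9, 1, 10, 2, 11, 3, 12, 4, 13, 5, 14, 6, 15, 7, 16])
  (Q := [4, 8, 12, 16, 3, 7, 11, 15, 2, 6, 10, 14, 1, 5, 9, 13, 0]) (by norm_num) (by decide)

theorem b_17_3 : Blk 17 3 := blk_of_chk (P := [8, 0, 9, 1, 10, 2, 11, 3, 12, 4, 13, 5, 14, 6, 15, 7, 16])
  (Q := [11, 15, 14, 8, 0, 10, 2, 13, 12, 16, 4, 9, 7, 5, 3, 1, 6]) (by norm_num) (by decide)

theorem b_17_4 : Blk 17 4 := blk_of_chk (P := [8, 0, 9, 1, 10, 2, 11, 3, 12, 4, 13, 5, 14, 6, 15, 7, 16])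
  (Q := [0, 12, 7, 14, 13, 9, 11, 6, 1, 15, 4, 16, 10, 8, 5, 3, 2]) (by norm_num) (by decide)

theorem b_17_5 : Blk 17 5 := blk_of_chk (P := [0, 12, 11, 7, 4, 16, 5, 3, 6, 8, 14, 10, 9, 1, 15, 2, 13])
  (Q := [11, 0, 8, 1, 5, 6, 10, 14, 15, 16, 2, 13, 4, 9, 3, 12, 7]) (by norm_num) (by decide)

theorem b_17_6 : Blk 17 6 := blk_of_chk (P := [8, 0, 9, 1, 10, 2, 11, 3, 12, 4, 13, 5, 14, 6, 15, 7, 16])
  (Q := [0, 14, 3, 9, 10, 16, 11, 6, 12, 13, 2, 8, 5, 15, 1, 4, 7]) (by norm_num) (by decide)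

theorem b_17_7 : Blk 17 7 := blk_of_chk (P := [8, 0, 9, 1, 10, 2, 11, 3, 12, 4, 13, 5, 14, 6, 15, 7, 16])
  (Q := [0, 12, 2, 9, 4, 16, 13, 14, 1, 15, 10, 11, 6, 3, 7, 8, 5]) (by norm_num) (by decide)

theorem b_17_8 : Blk 17 8 := blk_of_chk (P := [8, 0, 9, 1, 10, 2, 11, 3, 12, 4, 13, 5, 14, 6, 15, 7, 16])
  (Q := [16, 15, 14, 13, 12, 11, 10, 9, 8, 7, 6, 5, 4, 3, 2, 1, 0]) (by norm_num) (by decide)

theorem b_19_1 : Blk 19 1 := blk_of_chk (P := [9, 0, 10, 1, 11, 2, 12, 3, 13, 4, 14, 5, 15, 6, 16, 7, 17, 8, 18])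
  (Q := [0, 10, 1, 11, 2, 12, 3, 13, 4, 14, 5, 15, 6, 16, 7, 17, 8, 18, 9]) (by norm_num) (by decide)

theorem b_19_2 : Blk 19 2 := blk_of_chk (P := [9, 0, 10, 1, 11, 2, 12, 3, 13, 4, 14, 5, 15, 6, 16, 7, 17, 8, 18])
  (Q := [14, 9, 4, 18, 13, 8, 3, 17, 12, 7, 2, 16, 11, 6, 1, 15, 10, 5, 0]) (by norm_num) (by decide)

theorem b_19_3 : Blk 19 3 := blk_of_chk (P := [9, 0, 10, 1, 11, 2, 12, 3, 13, 4, 14, 5, 15, 6, 16, 7, 17, 8, 18])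
  (Q := [0, 10, 4, 12, 1, 13, 8, 14, 5, 15, 2, 16, 7, 17, 11, 18, 9, 3, 6]) (by norm_num) (by decide)

theorem b_19_4 : Blk 19 4 := blk_of_chk (P := [9, 0, 10, 1, 11, 2, 12, 3, 13, 4, 14, 5, 15, 6, 16, 7, 17, 8, 18])
  (Q := [1, 17, 4, 8, 13, 10, 14, 15, 0, 16, 2, 6, 12, 9, 7, 18, 5, 11, 3]) (by norm_num) (by decide)

theorem b_19_5 : Blk 19 5 := blk_of_chk (P := [9, 0, 10, 1, 11, 2, 12, 3, 13, 4, 14, 5, 15, 6, 16, 7, 17, 8, 18])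
  (Q := [0, 17, 15, 12, 1, 14, 2, 7, 6, 16, 9, 10, 3, 18, 11, 4, 5, 13, 8]) (by norm_num) (by decide)

theorem b_19_6 : Blk 19 6 := blk_of_chk (P := [9, 0, 10, 1, 11, 2, 12, 3, 13, 4, 14, 5, 15, 6, 16, 7, 17, 8, 18])
  (Q := [13, 9, 1, 17, 15, 11, 3, 14, 10, 8, 5, 16, 12, 4, 0, 18, 7, 6, 2]) (by norm_num) (by decide)

theorem b_19_7 : Blk 19 7 := blk_of_chk (P := [9, 0, 10, 1, 11, 2, 12, 3, 13, 4, 14, 5, 15, 6, 16, 7, 17, 8, 18])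
  (Q := [0, 17, 4, 18, 13, 14, 15, 12, 10, 16, 8, 6, 11, 7, 9, 5, 1, 2, 3]) (by norm_num) (by decide)

theorem b_19_8 : Blk 19 8 := blk_of_chk (P := [9, 0, 10, 1, 11, 2, 12, 3, 13, 4, 14, 5, 15, 6, 16, 7, 17, 8, 18])
  (Q := [0, 10, 4, 14, 2, 18, 15, 16, 13, 17, 11, 12, 7, 6, 8, 9, 1, 3, 5]) (by norm_num) (by decide)

theorem b_19_9 : Blk 19 9 := blk_of_chk (P := [9, 0, 10, 1, 11, 2, 12, 3, 13, 4, 14, 5, 15, 6, 16, 7, 17, 8, 18])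
  (Q := [18, 17, 16, 15, 14, 13, 12, 11, 10, 9, 8, 7, 6, 5, 4, 3, 2, 1, 0]) (by norm_num) (by decide)

theorem b_21_1 : Blk 21 1 := blk_of_chk (P := [10, 0, 11, 1, 12, 2, 13, 3, 14, 4, 15, 5, 16, 6, 17, 7, 18, 8, 19, 9, 20])
  (Q := [0, 11, 1, 12, 2, 13, 3, 14, 4, 15, 5, 16, 6, 17, 7, 18, 8, 19, 9, 20, 10]) (by norm_num) (by decide)

theorem b_21_2 : Blk 21 2 := blk_of_chk (P := [10, 0, 11, 1, 12, 2, 13, 3, 14, 4, 15, 5, 16, 6, 17, 7, 18, 8, 19, 9, 20])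
  (Q := [19, 17, 1, 13, 18, 16, 0, 12, 10, 15, 6, 11, 9, 14, 5, 3, 8, 20, 4, 2, 7]) (by norm_num) (by decide)

theorem b_21_3 : Blk 21 3 := blk_of_chk (P := [10, 0, 11, 1, 12, 2, 13, 3, 14, 4, 15, 5, 16, 6, 17, 7, 18, 8, 19, 9, 20])
  (Q := [2, 10, 9, 15, 18, 11, 1, 12, 3, 17, 14, 20, 7, 13, 5, 4, 0, 16, 8, 19, 6]) (by norm_num) (by decide)

theorem b_21_4 : Blk 21 4 := blk_of_chk (P := [10, 0, 11, 1, 12, 2, 13, 3, 14, 4, 15, 5, 16, 6, 17, 7, 18, 8, 19, 9, 20])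
  (Q := [3, 18, 5, 13, 14, 8, 16, 17, 11, 19, 6, 7, 1, 9, 10, 4, 12, 20, 0, 15, 2]) (by norm_num) (by decide)

theorem b_21_5 : Blk 21 5 := blk_of_chk (P := [10, 0, 11, 1, 12, 2, 13, 3, 14, 4, 15, 5, 16, 6, 17, 7, 18, 8, 19, 9, 20])
  (Q := [17, 10, 0, 16, 1, 12, 2, 15, 8, 20, 13, 14, 4, 19, 6, 5, 3, 18, 11, 7, 9]) (by norm_num) (by decide)

theorem b_21_6 : Blk 21 6 := blk_of_chk (P := [10, 0, 11, 1, 12, 2, 13, 3, 14, 4, 15, 5, 16, 6, 17, 7, 18, 8, 19, 9, 20])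
  (Q := [14, 18, 1, 12, 16, 20, 3, 7, 11, 15, 5, 9, 13, 17, 0, 4, 8, 19, 2, 6, 10]) (by norm_num) (by decide)

theorem b_21_7 : Blk 21 7 := blk_of_chk (P := [10, 0, 11, 1, 12, 2, 13, 3, 14, 4, 15, 5, 16, 6, 17, 7, 18, 8, 19, 9, 20])
  (Q := [15, 12, 16, 10, 2, 19, 3, 14, 5, 6, 0, 17, 7, 18, 1, 13, 8, 20, 11, 4, 9]) (by norm_num) (by decide)

theorem b_21_8 : Blk 21 8 := blk_of_chk (P := [10, 0, 11, 1, 12, 2, 13, 3, 14, 4, 15, 5, 16, 6, 17, 7, 18, 8, 19, 9, 20])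
  (Q := [6, 20, 3, 14, 18, 17, 15, 9, 13, 7, 10, 16, 8, 12, 0, 19, 11, 5, 4, 1, 2]) (by norm_num) (by decide)

theorem b_21_9 : Blk 21 9 := blk_of_chk (P := [10, 0, 11, 1, 12, 2, 13, 3, 14, 4, 15, 5, 16, 6, 17, 7, 18, 8, 19, 9, 20])
  (Q := [5, 17, 1, 20, 18, 16, 14, 19, 10, 15, 13, 11, 9, 7, 12, 3, 8, 6, 4, 2, 0]) (by norm_num) (by decide)

theorem b_21_10 : Blk 21 10 := blk_of_chk (P := [10, 0, 11, 1, 12, 2, 13, 3, 14, 4, 15, 5, 16, 6, 17, 7, 18, 8, 19, 9, 20])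
  (Q := [20, 19, 18, 17, 16, 15, 14, 13, 12, 11, 10, 9, 8, 7, 6, 5, 4, 3, 2, 1, 0]) (by norm_num) (by decide)

theorem b_23_1 : Blk 23 1 := blk_of_chk (P := [11, 0, 12, 1, 13, 2, 14, 3, 15, 4, 16, 5, 17, 6, 18, 7, 19, 8, 20, 9, 21, 10, 22])
  (Q := [0, 12, 1, 13, 2, 14, 3, 15, 4, 16, 5, 17, 6, 18, 7, 19, 8, 20, 9, 21, 10, 22, 11]) (by norm_num) (by decide)

theorem b_23_2 : Blk 23 2 := blk_of_chk (P := [11, 0, 12, 1, 13, 2, 14, 3, 15, 4, 16, 5, 17, 6, 18, 7, 19, 8, 20, 9, 21, 10, 22])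
  (Q := [17, 11, 5, 22, 16, 10, 4, 21, 15, 9, 3, 20, 14, 8, 2, 19, 13, 7, 1, 18, 12, 6, 0]) (by norm_num) (by decide)

theorem b_23_3 : Blk 23 3 := blk_of_chk (P := [11, 0, 12, 1, 13, 2, 14, 3, 15, 4, 16, 5, 17, 6, 18, 7, 19, 8, 20, 9, 21, 10, 22])
  (Q := [2, 11, 4, 14, 1, 15, 19, 17, 6, 8, 13, 22, 5, 18, 0, 12, 7, 20, 3, 16, 9, 21, 10]) (by norm_num) (by decide)

theorem b_23_4 : Blk 23 4 := blk_of_chk (P := [11, 0, 12, 1, 13, 2, 14, 3, 15, 4, 16, 5, 17, 6, 18, 7, 19, 8, 20, 9, 21, 10, 22])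
  (Q := [18, 21, 19, 16, 2, 12, 4, 8, 17, 20, 14, 22, 11, 7, 1, 9, 6, 15, 13, 3, 5, 10, 0]) (by norm_num) (by decide)

theorem b_23_5 : Blk 23 5 := blk_of_chk (P := [11, 0, 12, 1, 13, 2, 14, 3, 15, 4, 16, 5, 17, 6, 18, 7, 19, 8, 20, 9, 21, 10, 22])
  (Q := [15, 22, 18, 16, 2, 10, 6, 13, 17, 19, 3, 8, 11, 12, 7, 20, 14, 21, 4, 5, 0, 1, 9]) (by norm_num) (by decide)

theorem b_23_6 : Blk 23 6 := blk_of_chk (P := [11, 0, 12, 1, 13, 2, 14, 3, 15, 4, 16, 5, 17, 6, 18, 7, 19, 8, 20, 9, 21, 10, 22])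
  (Q := [14, 20, 21, 15, 5, 22, 0, 12, 4, 7, 16, 8, 13, 17, 11, 10, 2, 19, 6, 3, 1, 18, 9]) (by norm_num) (by decide)

theorem b_23_7 : Blk 23 7 := blk_of_chk (P := [11, 0, 12, 1, 13, 2, 14, 3, 15, 4, 16, 5, 17, 6, 18, 7, 19, 8, 20, 9, 21, 10, 22])
  (Q := [19, 13, 9, 17, 20, 18, 5, 11, 16, 22, 0, 12, 15, 21, 10, 8, 6, 14, 4, 3, 2, 1, 7]) (by norm_num) (by decide)

theorem b_23_8 : Blk 23 8 := blk_of_chk (P := [11, 0, 12, 1, 13, 2, 14, 3, 15, 4, 16, 5, 17, 6, 18, 7, 19, 8, 20, 9, 21, 10, 22])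
  (Q := [3, 19, 16, 20, 0, 21, 17, 22, 18, 13, 14, 6, 15, 12, 8, 9, 10, 7, 4, 11, 1, 2, 5]) (by norm_num) (by decide)

theorem b_23_9 : Blk 23 9 := blk_of_chk (P := [11, 0, 12, 1, 13, 2, 14, 3, 15, 4, 16, 5, 17, 6, 18, 7, 19, 8, 20, 9, 21, 10, 22])
  (Q := [15, 17, 21, 22, 19, 12, 14, 8, 16, 18, 9, 11, 2, 6, 0, 13, 10, 7, 1, 4, 3, 20, 5]) (by norm_num) (by decide)

theorem b_23_10 : Blk 23 10 := blk_of_chk (P := [11, 0, 12, 1, 13, 2, 14, 3, 15, 4, 16, 5, 17, 6, 18, 7, 19, 8, 20, 9, 21, 10, 22])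
  (Q := [3, 20, 0, 21, 18, 22, 19, 16, 13, 17, 14, 12, 15, 9, 7, 11, 10, 8, 6, 4, 2, 1, 5]) (by norm_num) (by decide)

theorem b_23_11 : Blk 23 11 := blk_of_chk (P := [11, 0, 12, 1, 13, 2, 14, 3, 15, 4, 16, 5, 17, 6, 18, 7, 19, 8, 20, 9, 21, 10, 22])
  (Q := [22, 21, 20, 19, 18, 17, 16, 15, 14, 13, 12, 11, 10, 9, 8, 7, 6, 5, 4, 3, 2, 1, 0]) (by norm_num) (by decide)


/-- Block labellings exist for all odd `r ≤ 23` and all `k` not divisible by `r`. -/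
theorem blk_small {r k : ℕ} (h1 : r % 2 = 1) (h3 : 3 ≤ r) (h23 : r ≤ 23) (hk : ¬ r ∣ k) : Blk r k := by
  have hk0 : k % r ≠ 0 := fun h => hk (Nat.dvd_of_mod_eq_zero h)
  have hk1 : k % r < r := Nat.mod_lt _ (by omega)
  suffices H : ∀ κ, 0 < κ → 2 * κ < r → Blk r κ by
    rcases Nat.lt_or_ge (2 * (k % r)) r with h | h
    · exact Blk.congr (Nat.mod_modEq k r) (H _ (by omega) h)
    · have h4 : Blk r (r - k % r) := H _ (by omega) (by omega)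
      refine Blk.congr (Nat.mod_modEq k r) (Blk.neg ?_ h4)
      rw [Nat.sub_add_cancel hk1.le]
      exact (Nat.modEq_zero_iff_dvd).2 (dvd_refl r)
  intro κ hκ0 hκ
  have hr : r = 3 ∨ r = 5 ∨ r = 7 ∨ r = 9 ∨ r = 11 ∨ r = 13 ∨ r = 15 ∨ r = 17 ∨ r = 19 ∨ r = 21 ∨ r = 23 := by
    omega
  rcases hr with rfl | rfl | rfl | rfl | rfl | rfl | rfl | rfl | rfl | rfl | rfl
  · have : κ = 1 := by omega
    subst this
    exact rel_three (m := 1) (by norm_num) (by norm_num)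
  · have hh : κ = 1 ∨ κ = 2 := by omega
    rcases hh with rfl | rfl
    · exact b_5_1
    · exact b_5_2
  · have hh : κ = 1 ∨ κ = 2 ∨ κ = 3 := by omega
    rcases hh with rfl | rfl | rfl
    · exact b_7_1
    · exact b_7_2
    · exact b_7_3
  · have hh : κ = 1 ∨ κ = 2 ∨ κ = 3 ∨ κ = 4 := by omega
    rcases hh with rfl | rfl | rfl | rfl
    · exact b_9_1
    · exact b_9_2
    · exact b_9_3
    · exact b_9_4
  · have hh : κ = 1 ∨ κ = 2 ∨ κ = 3 ∨ κ = 4 ∨ κ = 5 := by omega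
    rcases hh with rfl | rfl | rfl | rfl | rfl
    · exact b_11_1
    · exact b_11_2
    · exact b_11_3
    · exact b_11_4
    · exact b_11_5
  · have hh : κ = 1 ∨ κ = 2 ∨ κ = 3 ∨ κ = 4 ∨ κ = 5 ∨ κ = 6 := by omega
    rcases hh with rfl | rfl | rfl | rfl | rfl | rfl
    · exact b_13_1
    · exact b_13_2
    · exact b_13_3
    · exact b_13_4
    · exact b_13_5
    · exact b_13_6
  · have hh : κ = 1 ∨ κ = 2 ∨ κ = 3 ∨ κ = 4 ∨ κ = 5 ∨ κ = 6 ∨ κ = 7 := by omega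
    rcases hh with rfl | rfl | rfl | rfl | rfl | rfl | rfl
    · exact b_15_1
    · exact b_15_2
    · exact b_15_3
    · exact b_15_4
    · exact b_15_5
    · exact b_15_6
    · exact b_15_7
  · have hh : κ = 1 ∨ κ = 2 ∨ κ = 3 ∨ κ = 4 ∨ κ = 5 ∨ κ = 6 ∨ κ = 7 ∨ κ = 8 := by omega
    rcases hh with rfl | rfl | rfl | rfl | rfl | rfl | rfl | rfl
    · exact b_17_1
    · exact b_17_2
    · exact b_17_3
    · exact b_17_4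
    · exact b_17_5
    · exact b_17_6
    · exact b_17_7
    · exact b_17_8
  · have hh : κ = 1 ∨ κ = 2 ∨ κ = 3 ∨ κ = 4 ∨ κ = 5 ∨ κ = 6 ∨ κ = 7 ∨ κ = 8 ∨ κ = 9 := by omega
    rcases hh with rfl | rfl | rfl | rfl | rfl | rfl | rfl | rfl | rfl
    · exact b_19_1
    · exact b_19_2
    · exact b_19_3
    · exact b_19_4
    · exact b_19_5
    · exact b_19_6
    · exact b_19_7
    · exact b_19_8
    · exact b_19_9
  · have hh : κ = 1 ∨ κ = 2 ∨ κ = 3 ∨ κ = 4 ∨ κ = 5 ∨ κ = 6 ∨ κ = 7 ∨ κ = 8 ∨ κ = 9 ∨ κ = 10 := by omega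
    rcases hh with rfl | rfl | rfl | rfl | rfl | rfl | rfl | rfl | rfl | rfl
    · exact b_21_1
    · exact b_21_2
    · exact b_21_3
    · exact b_21_4
    · exact b_21_5
    · exact b_21_6
    · exact b_21_7
    · exact b_21_8
    · exact b_21_9
    · exact b_21_10
  · have hh : κ = 1 ∨ κ = 2 ∨ κ = 3 ∨ κ = 4 ∨ κ = 5 ∨ κ = 6 ∨ κ = 7 ∨ κ = 8 ∨ κ = 9 ∨ κ = 10 ∨ κ = 11 := by omega
    rcases hh with rfl | rfl | rfl | rfl | rfl | rfl | rfl | rfl | rfl | rfl | rfl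
    · exact b_23_1
    · exact b_23_2
    · exact b_23_3
    · exact b_23_4
    · exact b_23_5
    · exact b_23_6
    · exact b_23_7
    · exact b_23_8
    · exact b_23_9
    · exact b_23_10
    · exact b_23_11

end Pool.Agent.Helper89.EM
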