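import Pool.Agent.Helper89.EM.Basic

/-!
# The graphs `P(M,0)`, with loops at the inner vertices
-/

set_option autoImplicit false
set_option linter.unusedVariables false

namespace Pool.Agent.Helper89.EM

theorem sem_zero {M s : ℕ} (hM : 0 < M) (X Y : ℕ → ℕ)
    (h1 : ∀ t < 2 * M, ∃ i < M, X i = t ∨ Y i = t)
    (h2 : ∀ t < 3 * M, (∃ i, i + 1 < M ∧ X i + X (i + 1) = s + t) ∨ X (M - 1) + X 0 = s + t ∨
      (∃ i < M, X i + Y i = s + t) ∨ ∃ i < M, 2 * Y i = s + t) : SEM M 0 := by
  refine ⟨s, fun i => X (i % M), fun i => Y (i % M), fun i => by simp, fun i => by simp, ?_, ?_⟩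
  · intro t ht
    obtain ⟨i, hi, h⟩ := h1 t ht
    refine ⟨i, ?_⟩
    simp only [Nat.mod_eq_of_lt hi]
    exact h
  · intro t ht
    rcases h2 t ht with ⟨i, hi, h⟩ | h | ⟨i, hi, h⟩ | ⟨i, hi, h⟩
    · refine ⟨i, Or.inl ?_⟩
      simp only [Nat.mod_eq_of_lt hi, Nat.mod_eq_of_lt (by omega : i < M)]
      exact h
    · refine ⟨M - 1, Or.inl ?_⟩
      simp only [Nat.mod_eq_of_lt (by omega : M - 1 < M), show M - 1 + 1 = M by omega, Nat.mod_self]
      exact h
    · refine ⟨i, Or.inr (Or.inl ?_)⟩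
      simp only [Nat.mod_eq_of_lt hi]
      exact h
    · refine ⟨i, Or.inr (Or.inr ?_)⟩
      simp only [Nat.add_zero, Nat.mod_eq_of_lt hi]
      rw [← two_mul]
      exact h

namespace Z0

/-- two stretches of `4 u` vertices with slope one per four steps, and the rest -/
def val (u f : ℕ) (P F Q G : ℕ → ℕ) (i : ℕ) : ℕ :=
  if i < 4 * u then P (i % 4) + i / 4
  else if i < 4 * u + f then F (i - 4 * u)
  else if i < 8 * u + f then Q ((i - 4 * u - f) % 4) + (i - 4 * u - f) / 4
  else G (i - 8 * u - f)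

theorem val_a {u f j c : ℕ} {P F Q G : ℕ → ℕ} (hj : j < u) (hc : c < 4) :
    val u f P F Q G (4 * j + c) = P c + j := by
  unfold val
  rw [if_pos (by omega), show (4 * j + c) % 4 = c by omega, show (4 * j + c) / 4 = j by omega]

theorem val_b {u f q : ℕ} {P F Q G : ℕ → ℕ} (hq : q < f) :
    val u f P F Q G (4 * u + q) = F q := by
  unfold val
  rw [if_neg (by omega), if_pos (by omega), show 4 * u + q - 4 * u = q by omega]

theorem val_c {u f j c : ℕ} {P F Q G : ℕ → ℕ} (hj : j < u) (hc : c < 4) :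
    val u f P F Q G (4 * u + f + (4 * j + c)) = Q c + j := by
  unfold val
  rw [if_neg (by omega), if_neg (by omega), if_pos (by omega),
    show 4 * u + f + (4 * j + c) - 4 * u - f = 4 * j + c by omega,
    show (4 * j + c) % 4 = c by omega, show (4 * j + c) / 4 = j by omega]

theorem val_d {u f q : ℕ} {P F Q G : ℕ → ℕ} :
    val u f P F Q G (8 * u + f + q) = G q := by
  unfold val
  rw [if_neg (by omega), if_neg (by omega), if_neg (by omega),
    show 8 * u + f + q - 8 * u - f = q by omega]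

end Z0

end Pool.Agent.Helper89.EM
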