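import Pool.Agent.Helper89.EM.Zero

/-!
# The graphs `P(8u+9,0)`
-/

set_option autoImplicit false
set_option linter.unusedVariables false

namespace Pool.Agent.Helper89.EM

namespace Z0

/-- first stretch -/
def z9xa (u : ℕ) : ℕ → ℕ
  | 0 => 0
  | 1 => 4 * u + 6
  | 2 => 2 * u + 3
  | _ => 14 * u + 16

/-- first rest -/
def z9xf (u : ℕ) : ℕ → ℕ
  | 0 => u
  | 1 => 15 * u + 16
  | 2 => u + 1
  | _ => 3 * u + 4

/-- second stretch -/
def z9xb (u : ℕ) : ℕ → ℕ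
  | 0 => 15 * u + 17
  | 1 => 7 * u + 8
  | 2 => u + 2
  | _ => 3 * u + 5

/-- second rest -/
def z9xg (u : ℕ) : ℕ → ℕ
  | 0 => 6 * u + 6
  | 1 => 16 * u + 17
  | 2 => 10 * u + 10
  | 3 => 4 * u + 5
  | _ => 8 * u + 8

/-- first stretch -/
def z9ya (u : ℕ) : ℕ → ℕ
  | 0 => 8 * u + 9
  | 1 => 6 * u + 7
  | 2 => 12 * u + 13
  | _ => 10 * u + 11

/-- first rest -/
def z9yf (u : ℕ) : ℕ → ℕ
  | 0 => 9 * u + 9
  | 1 => 3 * u + 3
  | 2 => 11 * u + 11
  | _ => 7 * u + 7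

/-- second stretch -/
def z9yb (u : ℕ) : ℕ → ℕ
  | 0 => 11 * u + 12
  | 1 => 13 * u + 13
  | 2 => 5 * u + 6
  | _ => 9 * u + 10

/-- second rest -/
def z9yg (u : ℕ) : ℕ → ℕ
  | 0 => 14 * u + 14
  | 1 => 12 * u + 12
  | 2 => 14 * u + 15
  | 3 => 2 * u + 2
  | _ => 14 * u + 13

theorem sem_zero_9 {u : ℕ} (hu : 2 ≤ u) : SEM (8 * u + 9) 0 := by
  obtain ⟨X, hX⟩ : ∃ X, X = val u 4 (z9xa u) (z9xf u) (z9xb u) (z9xg u) := ⟨_, rfl⟩
  obtain ⟨Y, hY⟩ : ∃ Y, Y = val u 4 (z9ya u) (z9yf u) (z9yb u) (z9yg u) := ⟨_, rfl⟩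
  have xa0 : ∀ j < u, X (4 * j + 0) = 0 + j := fun j hj => by
    rw [hX, val_a hj (by norm_num)]; rfl
  have xb0 : ∀ j < u, X (4 * u + 4 + (4 * j + 0)) = 15 * u + 17 + j := fun j hj => by
    rw [hX, val_c hj (by norm_num)]; rfl
  have xa1 : ∀ j < u, X (4 * j + 1) = 4 * u + 6 + j := fun j hj => by
    rw [hX, val_a hj (by norm_num)]; rfl
  have xb1 : ∀ j < u, X (4 * u + 4 + (4 * j + 1)) = 7 * u + 8 + j := fun j hj => by
    rw [hX, val_c hj (by norm_num)]; rfl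
  have xa2 : ∀ j < u, X (4 * j + 2) = 2 * u + 3 + j := fun j hj => by
    rw [hX, val_a hj (by norm_num)]; rfl
  have xb2 : ∀ j < u, X (4 * u + 4 + (4 * j + 2)) = u + 2 + j := fun j hj => by
    rw [hX, val_c hj (by norm_num)]; rfl
  have xa3 : ∀ j < u, X (4 * j + 3) = 14 * u + 16 + j := fun j hj => by
    rw [hX, val_a hj (by norm_num)]; rfl
  have xb3 : ∀ j < u, X (4 * u + 4 + (4 * j + 3)) = 3 * u + 5 + j := fun j hj => by
    rw [hX, val_c hj (by norm_num)]; rfl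
  have xf0 : X (4 * u + 0) = u := by
    rw [hX, val_b (by norm_num)]; rfl
  have xf1 : X (4 * u + 1) = 15 * u + 16 := by
    rw [hX, val_b (by norm_num)]; rfl
  have xf2 : X (4 * u + 2) = u + 1 := by
    rw [hX, val_b (by norm_num)]; rfl
  have xf3 : X (4 * u + 3) = 3 * u + 4 := by
    rw [hX, val_b (by norm_num)]; rfl
  have xg0 : X (8 * u + 4 + 0) = 6 * u + 6 := by
    rw [hX, val_d]; rfl
  have xg1 : X (8 * u + 4 + 1) = 16 * u + 17 := by
    rw [hX, val_d]; rfl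
  have xg2 : X (8 * u + 4 + 2) = 10 * u + 10 := by
    rw [hX, val_d]; rfl
  have xg3 : X (8 * u + 4 + 3) = 4 * u + 5 := by
    rw [hX, val_d]; rfl
  have xg4 : X (8 * u + 4 + 4) = 8 * u + 8 := by
    rw [hX, val_d]; rfl
  have ya0 : ∀ j < u, Y (4 * j + 0) = 8 * u + 9 + j := fun j hj => by
    rw [hY, val_a hj (by norm_num)]; rfl
  have yb0 : ∀ j < u, Y (4 * u + 4 + (4 * j + 0)) = 11 * u + 12 + j := fun j hj => by
    rw [hY, val_c hj (by norm_num)]; rfl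
  have ya1 : ∀ j < u, Y (4 * j + 1) = 6 * u + 7 + j := fun j hj => by
    rw [hY, val_a hj (by norm_num)]; rfl
  have yb1 : ∀ j < u, Y (4 * u + 4 + (4 * j + 1)) = 13 * u + 13 + j := fun j hj => by
    rw [hY, val_c hj (by norm_num)]; rfl
  have ya2 : ∀ j < u, Y (4 * j + 2) = 12 * u + 13 + j := fun j hj => by
    rw [hY, val_a hj (by norm_num)]; rfl
  have yb2 : ∀ j < u, Y (4 * u + 4 + (4 * j + 2)) = 5 * u + 6 + j := fun j hj => by
    rw [hY, val_c hj (by norm_num)]; rfl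
  have ya3 : ∀ j < u, Y (4 * j + 3) = 10 * u + 11 + j := fun j hj => by
    rw [hY, val_a hj (by norm_num)]; rfl
  have yb3 : ∀ j < u, Y (4 * u + 4 + (4 * j + 3)) = 9 * u + 10 + j := fun j hj => by
    rw [hY, val_c hj (by norm_num)]; rfl
  have yf0 : Y (4 * u + 0) = 9 * u + 9 := by
    rw [hY, val_b (by norm_num)]; rfl
  have yf1 : Y (4 * u + 1) = 3 * u + 3 := by
    rw [hY, val_b (by norm_num)]; rfl
  have yf2 : Y (4 * u + 2) = 11 * u + 11 := by
    rw [hY, val_b (by norm_num)]; rfl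
  have yf3 : Y (4 * u + 3) = 7 * u + 7 := by
    rw [hY, val_b (by norm_num)]; rfl
  have yg0 : Y (8 * u + 4 + 0) = 14 * u + 14 := by
    rw [hY, val_d]; rfl
  have yg1 : Y (8 * u + 4 + 1) = 12 * u + 12 := by
    rw [hY, val_d]; rfl
  have yg2 : Y (8 * u + 4 + 2) = 14 * u + 15 := by
    rw [hY, val_d]; rfl
  have yg3 : Y (8 * u + 4 + 3) = 2 * u + 2 := by
    rw [hY, val_d]; rfl
  have yg4 : Y (8 * u + 4 + 4) = 14 * u + 13 := by
    rw [hY, val_d]; rfl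
  have x0 : X 0 = 0 := by
    have := xa0 0 (by omega)
    simpa using this
  have ea0 : ∀ j < u, X ((4 * j + 0)) + X ((4 * j + 0) + 1) = 4 * u + 6 + 2 * j := by
    intro j hj; rw [xa0 j hj, show (4 * j + 0) + 1 = (4 * j + 1) by ring, xa1 j hj] <;> omega
  have ea1 : ∀ j < u, X ((4 * j + 1)) + X ((4 * j + 1) + 1) = 6 * u + 9 + 2 * j := by
    intro j hj; rw [xa1 j hj, show (4 * j + 1) + 1 = (4 * j + 2) by ring, xa2 j hj] <;> omega
  have ea2 : ∀ j < u, X ((4 * j + 2)) + X ((4 * j + 2) + 1) = 16 * u + 19 + 2 * j := by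
    intro j hj; rw [xa2 j hj, show (4 * j + 2) + 1 = (4 * j + 3) by ring, xa3 j hj] <;> omega
  have ea3 : ∀ j, j + 1 < u → X ((4 * j + 3)) + X ((4 * j + 3) + 1) = 14 * u + 17 + 2 * j := by
    intro j hj; rw [xa3 j (by omega), show (4 * j + 3) + 1 = (4 * (j + 1) + 0) by ring, xa0 (j + 1) hj] <;> omega
  have sa0 : ∀ j < u, X ((4 * j + 0)) + Y ((4 * j + 0)) = 8 * u + 9 + 2 * j := by
    intro j hj; rw [xa0 j hj, ya0 j hj] <;> omega
  have la0 : ∀ j < u, 2 * Y ((4 * j + 0)) = 16 * u + 18 + 2 * j := by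
    intro j hj; rw [ya0 j hj] <;> omega
  have sa1 : ∀ j < u, X ((4 * j + 1)) + Y ((4 * j + 1)) = 10 * u + 13 + 2 * j := by
    intro j hj; rw [xa1 j hj, ya1 j hj] <;> omega
  have la1 : ∀ j < u, 2 * Y ((4 * j + 1)) = 12 * u + 14 + 2 * j := by
    intro j hj; rw [ya1 j hj] <;> omega
  have sa2 : ∀ j < u, X ((4 * j + 2)) + Y ((4 * j + 2)) = 14 * u + 16 + 2 * j := by
    intro j hj; rw [xa2 j hj, ya2 j hj] <;> omega
  have la2 : ∀ j < u, 2 * Y ((4 * j + 2)) = 24 * u + 26 + 2 * j := by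
    intro j hj; rw [ya2 j hj] <;> omega
  have sa3 : ∀ j < u, X ((4 * j + 3)) + Y ((4 * j + 3)) = 24 * u + 27 + 2 * j := by
    intro j hj; rw [xa3 j hj, ya3 j hj] <;> omega
  have la3 : ∀ j < u, 2 * Y ((4 * j + 3)) = 20 * u + 22 + 2 * j := by
    intro j hj; rw [ya3 j hj] <;> omega
  have eb0 : ∀ j < u, X (4 * u + 4 + (4 * j + 0)) + X (4 * u + 4 + (4 * j + 0) + 1) = 22 * u + 25 + 2 * j := by
    intro j hj; rw [xb0 j hj, show 4 * u + 4 + (4 * j + 0) + 1 = 4 * u + 4 + (4 * j + 1) by ring, xb1 j hj] <;> omega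
  have eb1 : ∀ j < u, X (4 * u + 4 + (4 * j + 1)) + X (4 * u + 4 + (4 * j + 1) + 1) = 8 * u + 10 + 2 * j := by
    intro j hj; rw [xb1 j hj, show 4 * u + 4 + (4 * j + 1) + 1 = 4 * u + 4 + (4 * j + 2) by ring, xb2 j hj] <;> omega
  have eb2 : ∀ j < u, X (4 * u + 4 + (4 * j + 2)) + X (4 * u + 4 + (4 * j + 2) + 1) = 4 * u + 7 + 2 * j := by
    intro j hj; rw [xb2 j hj, show 4 * u + 4 + (4 * j + 2) + 1 = 4 * u + 4 + (4 * j + 3) by ring, xb3 j hj] <;> omega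
  have eb3 : ∀ j, j + 1 < u → X (4 * u + 4 + (4 * j + 3)) + X (4 * u + 4 + (4 * j + 3) + 1) = 18 * u + 23 + 2 * j := by
    intro j hj; rw [xb3 j (by omega), show 4 * u + 4 + (4 * j + 3) + 1 = 4 * u + 4 + (4 * (j + 1) + 0) by ring, xb0 (j + 1) hj] <;> omega
  have sb0 : ∀ j < u, X (4 * u + 4 + (4 * j + 0)) + Y (4 * u + 4 + (4 * j + 0)) = 26 * u + 29 + 2 * j := by
    intro j hj; rw [xb0 j hj, yb0 j hj] <;> omega
  have lb0 : ∀ j < u, 2 * Y (4 * u + 4 + (4 * j + 0)) = 22 * u + 24 + 2 * j := by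
    intro j hj; rw [yb0 j hj] <;> omega
  have sb1 : ∀ j < u, X (4 * u + 4 + (4 * j + 1)) + Y (4 * u + 4 + (4 * j + 1)) = 20 * u + 21 + 2 * j := by
    intro j hj; rw [xb1 j hj, yb1 j hj] <;> omega
  have lb1 : ∀ j < u, 2 * Y (4 * u + 4 + (4 * j + 1)) = 26 * u + 26 + 2 * j := by
    intro j hj; rw [yb1 j hj] <;> omega
  have sb2 : ∀ j < u, X (4 * u + 4 + (4 * j + 2)) + Y (4 * u + 4 + (4 * j + 2)) = 6 * u + 8 + 2 * j := by
    intro j hj; rw [xb2 j hj, yb2 j hj] <;> omega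
  have lb2 : ∀ j < u, 2 * Y (4 * u + 4 + (4 * j + 2)) = 10 * u + 12 + 2 * j := by
    intro j hj; rw [yb2 j hj] <;> omega
  have sb3 : ∀ j < u, X (4 * u + 4 + (4 * j + 3)) + Y (4 * u + 4 + (4 * j + 3)) = 12 * u + 15 + 2 * j := by
    intro j hj; rw [xb3 j hj, yb3 j hj] <;> omega
  have lb3 : ∀ j < u, 2 * Y (4 * u + 4 + (4 * j + 3)) = 18 * u + 20 + 2 * j := by
    intro j hj; rw [yb3 j hj] <;> omega
  have ka : X (4 * (u - 1) + 3) + X (4 * (u - 1) + 3 + 1) = 16 * u + 15 := by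
    rw [xa3 (u - 1) (by omega), show 4 * (u - 1) + 3 + 1 = 4 * u + 0 by omega, xf0] <;> omega
  have kf0 : X (4 * u + 0) + X (4 * u + 0 + 1) = 16 * u + 16 := by
    rw [xf0, show 4 * u + 0 + 1 = 4 * u + 1 by ring, xf1] <;> omega
  have kf1 : X (4 * u + 1) + X (4 * u + 1 + 1) = 16 * u + 17 := by
    rw [xf1, show 4 * u + 1 + 1 = 4 * u + 2 by ring, xf2] <;> omega
  have kf2 : X (4 * u + 2) + X (4 * u + 2 + 1) = 4 * u + 5 := by
    rw [xf2, show 4 * u + 2 + 1 = 4 * u + 3 by ring, xf3] <;> omega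
  have kf3 : X (4 * u + 3) + X (4 * u + 3 + 1) = 18 * u + 21 := by
    rw [xf3, show 4 * u + 3 + 1 = 4 * u + 4 + (4 * 0 + 0) by ring, xb0 0 (by omega)] <;> omega
  have kb : X (4 * u + 4 + (4 * (u - 1) + 3)) + X (4 * u + 4 + (4 * (u - 1) + 3) + 1) = 10 * u + 10 := by
    rw [xb3 (u - 1) (by omega), show 4 * u + 4 + (4 * (u - 1) + 3) + 1 = 8 * u + 4 + 0 by omega, xg0] <;> omega
  have kg0 : X (8 * u + 4 + 0) + X (8 * u + 4 + 0 + 1) = 22 * u + 23 := by
    rw [xg0, show 8 * u + 4 + 0 + 1 = 8 * u + 4 + 1 by ring, xg1] <;> omega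
  have kg1 : X (8 * u + 4 + 1) + X (8 * u + 4 + 1 + 1) = 26 * u + 27 := by
    rw [xg1, show 8 * u + 4 + 1 + 1 = 8 * u + 4 + 2 by ring, xg2] <;> omega
  have kg2 : X (8 * u + 4 + 2) + X (8 * u + 4 + 2 + 1) = 14 * u + 15 := by
    rw [xg2, show 8 * u + 4 + 2 + 1 = 8 * u + 4 + 3 by ring, xg3] <;> omega
  have kg3 : X (8 * u + 4 + 3) + X (8 * u + 4 + 3 + 1) = 12 * u + 13 := by
    rw [xg3, show 8 * u + 4 + 3 + 1 = 8 * u + 4 + 4 by ring, xg4] <;> omega
  have kz : X (8 * u + 9 - 1) + X 0 = 8 * u + 8 := by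
    rw [show 8 * u + 9 - 1 = 8 * u + 4 + 4 by omega, xg4, x0] <;> omega
  have sf0 : X (4 * u + 0) + Y (4 * u + 0) = 10 * u + 9 := by
    rw [xf0, yf0] <;> omega
  have lf0 : 2 * Y (4 * u + 0) = 18 * u + 18 := by
    rw [yf0] <;> omega
  have sf1 : X (4 * u + 1) + Y (4 * u + 1) = 18 * u + 19 := by
    rw [xf1, yf1] <;> omega
  have lf1 : 2 * Y (4 * u + 1) = 6 * u + 6 := by
    rw [yf1] <;> omega
  have sf2 : X (4 * u + 2) + Y (4 * u + 2) = 12 * u + 12 := by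
    rw [xf2, yf2] <;> omega
  have lf2 : 2 * Y (4 * u + 2) = 22 * u + 22 := by
    rw [yf2] <;> omega
  have sf3 : X (4 * u + 3) + Y (4 * u + 3) = 10 * u + 11 := by
    rw [xf3, yf3] <;> omega
  have lf3 : 2 * Y (4 * u + 3) = 14 * u + 14 := by
    rw [yf3] <;> omega
  have sg0 : X (8 * u + 4 + 0) + Y (8 * u + 4 + 0) = 20 * u + 20 := by
    rw [xg0, yg0] <;> omega
  have lg0 : 2 * Y (8 * u + 4 + 0) = 28 * u + 28 := by
    rw [yg0] <;> omega
  have sg1 : X (8 * u + 4 + 1) + Y (8 * u + 4 + 1) = 28 * u + 29 := by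
    rw [xg1, yg1] <;> omega
  have lg1 : 2 * Y (8 * u + 4 + 1) = 24 * u + 24 := by
    rw [yg1] <;> omega
  have sg2 : X (8 * u + 4 + 2) + Y (8 * u + 4 + 2) = 24 * u + 25 := by
    rw [xg2, yg2] <;> omega
  have lg2 : 2 * Y (8 * u + 4 + 2) = 28 * u + 30 := by
    rw [yg2] <;> omega
  have sg3 : X (8 * u + 4 + 3) + Y (8 * u + 4 + 3) = 6 * u + 7 := by
    rw [xg3, yg3] <;> omega
  have lg3 : 2 * Y (8 * u + 4 + 3) = 4 * u + 4 := by
    rw [yg3] <;> omega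
  have sg4 : X (8 * u + 4 + 4) + Y (8 * u + 4 + 4) = 22 * u + 21 := by
    rw [xg4, yg4] <;> omega
  have lg4 : 2 * Y (8 * u + 4 + 4) = 28 * u + 26 := by
    rw [yg4] <;> omega
  clear hX hY
  refine sem_zero (s := 4 * u + 4) (by omega) X Y ?_ ?_
  · intro t ht
    by_cases h0 : t < u
    · exact ⟨4 * (t - (0)) + 0, by omega, Or.inl (by rw [xa0 _ (by omega)] <;> omega)⟩
    by_cases h1 : t < u + 1
    · exact ⟨4 * u + 0, by omega, Or.inl (by rw [xf0] <;> omega)⟩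
    by_cases h2 : t < u + 2
    · exact ⟨4 * u + 2, by omega, Or.inl (by rw [xf2] <;> omega)⟩
    by_cases h3 : t < 2 * u + 2
    · exact ⟨4 * u + 4 + (4 * (t - (u + 2)) + 2), by omega, Or.inl (by rw [xb2 _ (by omega)] <;> omega)⟩
    by_cases h4 : t < 2 * u + 3
    · exact ⟨8 * u + 4 + 3, by omega, Or.inr (by rw [yg3] <;> omega)⟩
    by_cases h5 : t < 3 * u + 3
    · exact ⟨4 * (t - (2 * u + 3)) + 2, by omega, Or.inl (by rw [xa2 _ (by omega)] <;> omega)⟩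
    by_cases h6 : t < 3 * u + 4
    · exact ⟨4 * u + 1, by omega, Or.inr (by rw [yf1] <;> omega)⟩
    by_cases h7 : t < 3 * u + 5
    · exact ⟨4 * u + 3, by omega, Or.inl (by rw [xf3] <;> omega)⟩
    by_cases h8 : t < 4 * u + 5
    · exact ⟨4 * u + 4 + (4 * (t - (3 * u + 5)) + 3), by omega, Or.inl (by rw [xb3 _ (by omega)] <;> omega)⟩
    by_cases h9 : t < 4 * u + 6
    · exact ⟨8 * u + 4 + 3, by omega, Or.inl (by rw [xg3] <;> omega)⟩
    by_cases h10 : t < 5 * u + 6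
    · exact ⟨4 * (t - (4 * u + 6)) + 1, by omega, Or.inl (by rw [xa1 _ (by omega)] <;> omega)⟩
    by_cases h11 : t < 6 * u + 6
    · exact ⟨4 * u + 4 + (4 * (t - (5 * u + 6)) + 2), by omega, Or.inr (by rw [yb2 _ (by omega)] <;> omega)⟩
    by_cases h12 : t < 6 * u + 7
    · exact ⟨8 * u + 4 + 0, by omega, Or.inl (by rw [xg0] <;> omega)⟩
    by_cases h13 : t < 7 * u + 7
    · exact ⟨4 * (t - (6 * u + 7)) + 1, by omega, Or.inr (by rw [ya1 _ (by omega)] <;> omega)⟩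
    by_cases h14 : t < 7 * u + 8
    · exact ⟨4 * u + 3, by omega, Or.inr (by rw [yf3] <;> omega)⟩
    by_cases h15 : t < 8 * u + 8
    · exact ⟨4 * u + 4 + (4 * (t - (7 * u + 8)) + 1), by omega, Or.inl (by rw [xb1 _ (by omega)] <;> omega)⟩
    by_cases h16 : t < 8 * u + 9
    · exact ⟨8 * u + 4 + 4, by omega, Or.inl (by rw [xg4] <;> omega)⟩
    by_cases h17 : t < 9 * u + 9
    · exact ⟨4 * (t - (8 * u + 9)) + 0, by omega, Or.inr (by rw [ya0 _ (by omega)] <;> omega)⟩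
    by_cases h18 : t < 9 * u + 10
    · exact ⟨4 * u + 0, by omega, Or.inr (by rw [yf0] <;> omega)⟩
    by_cases h19 : t < 10 * u + 10
    · exact ⟨4 * u + 4 + (4 * (t - (9 * u + 10)) + 3), by omega, Or.inr (by rw [yb3 _ (by omega)] <;> omega)⟩
    by_cases h20 : t < 10 * u + 11
    · exact ⟨8 * u + 4 + 2, by omega, Or.inl (by rw [xg2] <;> omega)⟩
    by_cases h21 : t < 11 * u + 11
    · exact ⟨4 * (t - (10 * u + 11)) + 3, by omega, Or.inr (by rw [ya3 _ (by omega)] <;> omega)⟩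
    by_cases h22 : t < 11 * u + 12
    · exact ⟨4 * u + 2, by omega, Or.inr (by rw [yf2] <;> omega)⟩
    by_cases h23 : t < 12 * u + 12
    · exact ⟨4 * u + 4 + (4 * (t - (11 * u + 12)) + 0), by omega, Or.inr (by rw [yb0 _ (by omega)] <;> omega)⟩
    by_cases h24 : t < 12 * u + 13
    · exact ⟨8 * u + 4 + 1, by omega, Or.inr (by rw [yg1] <;> omega)⟩
    by_cases h25 : t < 13 * u + 13
    · exact ⟨4 * (t - (12 * u + 13)) + 2, by omega, Or.inr (by rw [ya2 _ (by omega)] <;> omega)⟩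
    by_cases h26 : t < 14 * u + 13
    · exact ⟨4 * u + 4 + (4 * (t - (13 * u + 13)) + 1), by omega, Or.inr (by rw [yb1 _ (by omega)] <;> omega)⟩
    by_cases h27 : t < 14 * u + 14
    · exact ⟨8 * u + 4 + 4, by omega, Or.inr (by rw [yg4] <;> omega)⟩
    by_cases h28 : t < 14 * u + 15
    · exact ⟨8 * u + 4 + 0, by omega, Or.inr (by rw [yg0] <;> omega)⟩
    by_cases h29 : t < 14 * u + 16
    · exact ⟨8 * u + 4 + 2, by omega, Or.inr (by rw [yg2] <;> omega)⟩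
    by_cases h30 : t < 15 * u + 16
    · exact ⟨4 * (t - (14 * u + 16)) + 3, by omega, Or.inl (by rw [xa3 _ (by omega)] <;> omega)⟩
    by_cases h31 : t < 15 * u + 17
    · exact ⟨4 * u + 1, by omega, Or.inl (by rw [xf1] <;> omega)⟩
    by_cases h32 : t < 16 * u + 17
    · exact ⟨4 * u + 4 + (4 * (t - (15 * u + 17)) + 0), by omega, Or.inl (by rw [xb0 _ (by omega)] <;> omega)⟩
    exact ⟨8 * u + 4 + 1, by omega, Or.inl (by rw [xg1] <;> omega)⟩
  · intro t ht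
    generalize hv : 4 * u + 4 + t = v
    by_cases hp : v % 2 = 0
    · by_cases h0 : v < 4 * u + 6
      · exact Or.inr (Or.inr (Or.inr ⟨8 * u + 4 + 3, by omega, by rw [lg3] <;> omega⟩))
      by_cases h1 : v < 6 * u + 6
      · exact Or.inl ⟨(4 * ((v - (4 * u + 6)) / 2) + 0), by omega, by rw [ea0 _ (by omega)] <;> omega⟩
      by_cases h2 : v < 6 * u + 8
      · exact Or.inr (Or.inr (Or.inr ⟨4 * u + 1, by omega, by rw [lf1] <;> omega⟩))
      by_cases h3 : v < 8 * u + 8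
      · exact Or.inr (Or.inr (Or.inl ⟨4 * u + 4 + (4 * ((v - (6 * u + 8)) / 2) + 2), by omega, by rw [sb2 _ (by omega)] <;> omega⟩))
      by_cases h4 : v < 8 * u + 10
      · exact Or.inr (Or.inl (by rw [kz] <;> omega))
      by_cases h5 : v < 10 * u + 10
      · exact Or.inl ⟨4 * u + 4 + (4 * ((v - (8 * u + 10)) / 2) + 1), by omega, by rw [eb1 _ (by omega)] <;> omega⟩
      by_cases h6 : v < 10 * u + 12
      · exact Or.inl ⟨4 * u + 4 + (4 * (u - 1) + 3), by omega, by rw [kb] <;> omega⟩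
      by_cases h7 : v < 12 * u + 12
      · exact Or.inr (Or.inr (Or.inr ⟨4 * u + 4 + (4 * ((v - (10 * u + 12)) / 2) + 2), by omega, by rw [lb2 _ (by omega)] <;> omega⟩))
      by_cases h8 : v < 12 * u + 14
      · exact Or.inr (Or.inr (Or.inl ⟨4 * u + 2, by omega, by rw [sf2] <;> omega⟩))
      by_cases h9 : v < 14 * u + 14
      · exact Or.inr (Or.inr (Or.inr ⟨(4 * ((v - (12 * u + 14)) / 2) + 1), by omega, by rw [la1 _ (by omega)] <;> omega⟩))
      by_cases h10 : v < 14 * u + 16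
      · exact Or.inr (Or.inr (Or.inr ⟨4 * u + 3, by omega, by rw [lf3] <;> omega⟩))
      by_cases h11 : v < 16 * u + 16
      · exact Or.inr (Or.inr (Or.inl ⟨(4 * ((v - (14 * u + 16)) / 2) + 2), by omega, by rw [sa2 _ (by omega)] <;> omega⟩))
      by_cases h12 : v < 16 * u + 18
      · exact Or.inl ⟨4 * u + 0, by omega, by rw [kf0] <;> omega⟩
      by_cases h13 : v < 18 * u + 18
      · exact Or.inr (Or.inr (Or.inr ⟨(4 * ((v - (16 * u + 18)) / 2) + 0), by omega, by rw [la0 _ (by omega)] <;> omega⟩))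
      by_cases h14 : v < 18 * u + 20
      · exact Or.inr (Or.inr (Or.inr ⟨4 * u + 0, by omega, by rw [lf0] <;> omega⟩))
      by_cases h15 : v < 20 * u + 20
      · exact Or.inr (Or.inr (Or.inr ⟨4 * u + 4 + (4 * ((v - (18 * u + 20)) / 2) + 3), by omega, by rw [lb3 _ (by omega)] <;> omega⟩))
      by_cases h16 : v < 20 * u + 22
      · exact Or.inr (Or.inr (Or.inl ⟨8 * u + 4 + 0, by omega, by rw [sg0] <;> omega⟩))
      by_cases h17 : v < 22 * u + 22
      · exact Or.inr (Or.inr (Or.inr ⟨(4 * ((v - (20 * u + 22)) / 2) + 3), by omega, by rw [la3 _ (by omega)] <;> omega⟩))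
      by_cases h18 : v < 22 * u + 24
      · exact Or.inr (Or.inr (Or.inr ⟨4 * u + 2, by omega, by rw [lf2] <;> omega⟩))
      by_cases h19 : v < 24 * u + 24
      · exact Or.inr (Or.inr (Or.inr ⟨4 * u + 4 + (4 * ((v - (22 * u + 24)) / 2) + 0), by omega, by rw [lb0 _ (by omega)] <;> omega⟩))
      by_cases h20 : v < 24 * u + 26
      · exact Or.inr (Or.inr (Or.inr ⟨8 * u + 4 + 1, by omega, by rw [lg1] <;> omega⟩))
      by_cases h21 : v < 26 * u + 26
      · exact Or.inr (Or.inr (Or.inr ⟨(4 * ((v - (24 * u + 26)) / 2) + 2), by omega, by rw [la2 _ (by omega)] <;> omega⟩))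
      by_cases h22 : v < 28 * u + 26
      · exact Or.inr (Or.inr (Or.inr ⟨4 * u + 4 + (4 * ((v - (26 * u + 26)) / 2) + 1), by omega, by rw [lb1 _ (by omega)] <;> omega⟩))
      by_cases h23 : v < 28 * u + 28
      · exact Or.inr (Or.inr (Or.inr ⟨8 * u + 4 + 4, by omega, by rw [lg4] <;> omega⟩))
      by_cases h24 : v < 28 * u + 30
      · exact Or.inr (Or.inr (Or.inr ⟨8 * u + 4 + 0, by omega, by rw [lg0] <;> omega⟩))
      exact Or.inr (Or.inr (Or.inr ⟨8 * u + 4 + 2, by omega, by rw [lg2] <;> omega⟩))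
    · by_cases h0 : v < 4 * u + 7
      · exact Or.inl ⟨4 * u + 2, by omega, by rw [kf2] <;> omega⟩
      by_cases h1 : v < 6 * u + 7
      · exact Or.inl ⟨4 * u + 4 + (4 * ((v - (4 * u + 7)) / 2) + 2), by omega, by rw [eb2 _ (by omega)] <;> omega⟩
      by_cases h2 : v < 6 * u + 9
      · exact Or.inr (Or.inr (Or.inl ⟨8 * u + 4 + 3, by omega, by rw [sg3] <;> omega⟩))
      by_cases h3 : v < 8 * u + 9
      · exact Or.inl ⟨(4 * ((v - (6 * u + 9)) / 2) + 1), by omega, by rw [ea1 _ (by omega)] <;> omega⟩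
      by_cases h4 : v < 10 * u + 9
      · exact Or.inr (Or.inr (Or.inl ⟨(4 * ((v - (8 * u + 9)) / 2) + 0), by omega, by rw [sa0 _ (by omega)] <;> omega⟩))
      by_cases h5 : v < 10 * u + 11
      · exact Or.inr (Or.inr (Or.inl ⟨4 * u + 0, by omega, by rw [sf0] <;> omega⟩))
      by_cases h6 : v < 10 * u + 13
      · exact Or.inr (Or.inr (Or.inl ⟨4 * u + 3, by omega, by rw [sf3] <;> omega⟩))
      by_cases h7 : v < 12 * u + 13
      · exact Or.inr (Or.inr (Or.inl ⟨(4 * ((v - (10 * u + 13)) / 2) + 1), by omega, by rw [sa1 _ (by omega)] <;> omega⟩))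
      by_cases h8 : v < 12 * u + 15
      · exact Or.inl ⟨8 * u + 4 + 3, by omega, by rw [kg3] <;> omega⟩
      by_cases h9 : v < 14 * u + 15
      · exact Or.inr (Or.inr (Or.inl ⟨4 * u + 4 + (4 * ((v - (12 * u + 15)) / 2) + 3), by omega, by rw [sb3 _ (by omega)] <;> omega⟩))
      by_cases h10 : v < 14 * u + 17
      · exact Or.inl ⟨8 * u + 4 + 2, by omega, by rw [kg2] <;> omega⟩
      by_cases h11 : v < 16 * u + 15
      · exact Or.inl ⟨(4 * ((v - (14 * u + 17)) / 2) + 3), by omega, by rw [ea3 _ (by omega)] <;> omega⟩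
      by_cases h12 : v < 16 * u + 17
      · exact Or.inl ⟨4 * (u - 1) + 3, by omega, by rw [ka] <;> omega⟩
      by_cases h13 : v < 16 * u + 19
      · exact Or.inl ⟨4 * u + 1, by omega, by rw [kf1] <;> omega⟩
      by_cases h14 : v < 18 * u + 19
      · exact Or.inl ⟨(4 * ((v - (16 * u + 19)) / 2) + 2), by omega, by rw [ea2 _ (by omega)] <;> omega⟩
      by_cases h15 : v < 18 * u + 21
      · exact Or.inr (Or.inr (Or.inl ⟨4 * u + 1, by omega, by rw [sf1] <;> omega⟩))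
      by_cases h16 : v < 18 * u + 23
      · exact Or.inl ⟨4 * u + 3, by omega, by rw [kf3] <;> omega⟩
      by_cases h17 : v < 20 * u + 21
      · exact Or.inl ⟨4 * u + 4 + (4 * ((v - (18 * u + 23)) / 2) + 3), by omega, by rw [eb3 _ (by omega)] <;> omega⟩
      by_cases h18 : v < 22 * u + 21
      · exact Or.inr (Or.inr (Or.inl ⟨4 * u + 4 + (4 * ((v - (20 * u + 21)) / 2) + 1), by omega, by rw [sb1 _ (by omega)] <;> omega⟩))
      by_cases h19 : v < 22 * u + 23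
      · exact Or.inr (Or.inr (Or.inl ⟨8 * u + 4 + 4, by omega, by rw [sg4] <;> omega⟩))
      by_cases h20 : v < 22 * u + 25
      · exact Or.inl ⟨8 * u + 4 + 0, by omega, by rw [kg0] <;> omega⟩
      by_cases h21 : v < 24 * u + 25
      · exact Or.inl ⟨4 * u + 4 + (4 * ((v - (22 * u + 25)) / 2) + 0), by omega, by rw [eb0 _ (by omega)] <;> omega⟩
      by_cases h22 : v < 24 * u + 27
      · exact Or.inr (Or.inr (Or.inl ⟨8 * u + 4 + 2, by omega, by rw [sg2] <;> omega⟩))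
      by_cases h23 : v < 26 * u + 27
      · exact Or.inr (Or.inr (Or.inl ⟨(4 * ((v - (24 * u + 27)) / 2) + 3), by omega, by rw [sa3 _ (by omega)] <;> omega⟩))
      by_cases h24 : v < 26 * u + 29
      · exact Or.inl ⟨8 * u + 4 + 1, by omega, by rw [kg1] <;> omega⟩
      by_cases h25 : v < 28 * u + 29
      · exact Or.inr (Or.inr (Or.inl ⟨4 * u + 4 + (4 * ((v - (26 * u + 29)) / 2) + 0), by omega, by rw [sb0 _ (by omega)] <;> omega⟩))
      exact Or.inr (Or.inr (Or.inl ⟨8 * u + 4 + 1, by omega, by rw [sg1] <;> omega⟩))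

end Z0

end Pool.Agent.Helper89.EM
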