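import Pool.Agent.Helper89.EM.Zero5
import Pool.Agent.Helper89.EM.Zero7
import Pool.Agent.Helper89.EM.Zero9
import Pool.Agent.Helper89.EM.Zero11
import Pool.Agent.Helper92.EM.Engine2

/-!
# Inner cycles of length at most the square root of `n`
-/

set_option autoImplicit false

namespace Pool.Agent.Helper89.EM

theorem sem_zero_big {M : ℕ} (hM : M % 2 = 1) (h : 21 ≤ M) : SEM M 0 := by
  rcases (by omega : M % 8 = 5 ∨ M % 8 = 7 ∨ M % 8 = 1 ∨ M % 8 = 3) with h8 | h8 | h8 | h8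
  · obtain ⟨u, rfl⟩ : ∃ u, M = 8 * u + 5 := ⟨M / 8, by omega⟩
    exact Z0.sem_zero_5 (by omega)
  · obtain ⟨u, rfl⟩ : ∃ u, M = 8 * u + 7 := ⟨M / 8, by omega⟩
    exact Z0.sem_zero_7 (by omega)
  · obtain ⟨u, rfl⟩ : ∃ u, M = 8 * u + 9 := ⟨M / 8 - 1, by omega⟩
    exact Z0.sem_zero_9 (by omega)
  · obtain ⟨u, rfl⟩ : ∃ u, M = 8 * u + 11 := ⟨M / 8 - 1, by omega⟩
    exact Z0.sem_zero_11 (by omega)

/-- checker for `P(n,0)` labellings given by lists -/
def chk0 (n s : ℕ) (P Q : List ℕ) : Bool :=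
  ((List.range (2 * n)).all fun t => (List.range n).any fun i =>
    P.getD i 0 == t || Q.getD i 0 == t) &&
  ((List.range (3 * n)).all fun t => (List.range n).any fun i =>
    (P.getD i 0 + P.getD ((i + 1) % n) 0 == s + t) || (P.getD i 0 + Q.getD i 0 == s + t) ||
      (2 * Q.getD i 0 == s + t))

theorem sem_of_chk0 {n s : ℕ} {P Q : List ℕ} (hn : 0 < n) (h : chk0 n s P Q = true) : SEM n 0 := by
  unfold chk0 at h
  rw [Bool.and_eq_true, List.all_eq_true, List.all_eq_true] at h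
  obtain ⟨h1, h2⟩ := h
  refine sem_zero (s := s) hn (fun i => P.getD i 0) (fun i => Q.getD i 0) ?_ ?_
  · intro t ht
    have h3 := h1 t (List.mem_range.2 ht)
    rw [List.any_eq_true] at h3
    obtain ⟨i, hi, h4⟩ := h3
    rw [Bool.or_eq_true, beq_iff_eq, beq_iff_eq] at h4
    exact ⟨i, List.mem_range.1 hi, h4⟩
  · intro t ht
    have h3 := h2 t (List.mem_range.2 ht)
    rw [List.any_eq_true] at h3
    obtain ⟨i, hi, h4⟩ := h3
    have hi' := List.mem_range.1 hi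
    rw [Bool.or_eq_true, Bool.or_eq_true, beq_iff_eq, beq_iff_eq, beq_iff_eq] at h4
    rcases h4 with (h4 | h4) | h4
    · by_cases h5 : i + 1 < n
      · rw [Nat.mod_eq_of_lt h5] at h4
        exact Or.inl ⟨i, h5, h4⟩
      · have h6 : i = n - 1 := by omega
        rw [show i + 1 = n by omega, Nat.mod_self, h6] at h4
        exact Or.inr (Or.inl h4)
    · exact Or.inr (Or.inr (Or.inl ⟨i, hi', h4⟩))
    · exact Or.inr (Or.inr (Or.inr ⟨i, hi', h4⟩))

theorem z_5 : SEM 5 0 := sem_of_chk0 (s := 2)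
  (P := [9, 7, 8, 5, 0])
  (Q := [1, 4, 6, 2, 3])
  (by norm_num) (by decide +kernel)

theorem z_7 : SEM 7 0 := sem_of_chk0 (s := 3)
  (P := [13, 10, 11, 0, 12, 1, 6])
  (Q := [9, 7, 4, 5, 8, 2, 3])
  (by norm_num) (by decide +kernel)

theorem z_9 : SEM 9 0 := sem_of_chk0 (s := 4)
  (P := [0, 9, 12, 11, 8, 5, 17, 1, 16])
  (Q := [10, 6, 15, 14, 3, 2, 7, 4, 13])
  (by norm_num) (by decide +kernel)

theorem z_11 : SEM 11 0 := sem_of_chk0 (s := 5)
  (P := [2, 21, 6, 13, 20, 1, 19, 10, 12, 0, 11])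
  (Q := [3, 4, 9, 18, 17, 8, 16, 14, 5, 7, 15])
  (by norm_num) (by decide +kernel)

theorem z_13 : SEM 13 0 := sem_of_chk0 (s := 6)
  (P := [2, 14, 4, 24, 1, 25, 12, 23, 8, 0, 9, 13, 11])
  (Q := [19, 5, 7, 15, 6, 16, 3, 20, 21, 17, 18, 10, 22])
  (by norm_num) (by decide +kernel)

theorem z_15 : SEM 15 0 := sem_of_chk0 (s := 7)
  (P := [0, 7, 1, 8, 2, 9, 5, 29, 4, 27, 14, 3, 26, 17, 28])
  (Q := [25, 6, 22, 13, 16, 18, 11, 10, 15, 24, 21, 12, 23, 20, 19])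
  (by norm_num) (by decide +kernel)

theorem z_17 : SEM 17 0 := sem_of_chk0 (s := 8)
  (P := [24, 2, 7, 27, 31, 17, 19, 22, 33, 18, 3, 32, 1, 30, 13, 0, 29])
  (Q := [14, 25, 4, 10, 26, 8, 28, 23, 21, 5, 11, 12, 16, 9, 6, 15, 20])
  (by norm_num) (by decide +kernel)

theorem z_19 : SEM 19 0 := sem_of_chk0 (s := 9)
  (P := [17, 4, 20, 3, 37, 25, 27, 36, 12, 31, 0, 33, 18, 35, 24, 26, 1, 34, 2])
  (Q := [22, 5, 9, 14, 8, 32, 7, 29, 13, 16, 15, 28, 19, 6, 30, 23, 10, 21, 11])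
  (by norm_num) (by decide +kernel)

theorem sem_zero_all {M : ℕ} (hM : M % 2 = 1) (h : 5 ≤ M) : SEM M 0 := by
  by_cases h21 : 21 ≤ M
  · exact sem_zero_big hM h21
  · rcases (by omega : M = 5 ∨ M = 7 ∨ M = 9 ∨ M = 11 ∨ M = 13 ∨ M = 15 ∨ M = 17 ∨ M = 19) with
      rfl | rfl | rfl | rfl | rfl | rfl | rfl | rfl
    exacts [z_5, z_7, z_9, z_11, z_13, z_15, z_17, z_19]

/-- Coverings of `P(m,0)`. -/
theorem rel_vert {m r j : ℕ} (hm : m % 2 = 1) (hr : r % 2 = 1) (hrm : r ≤ m)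
    (hj : Nat.Coprime j r) : Rel m r (m * j) := by
  obtain ⟨u, v, huv⟩ := (Nat.isCoprime_iff_coprime.2 hj)
  -- `u j + v r = 1`; reduce `u` modulo `r`, make it odd
  have hr0 : (0 : ℤ) < r := by omega
  have h1 := Int.emod_nonneg u hr0.ne'
  have h2 := Int.emod_lt_of_pos u hr0
  have h3 := Int.mul_ediv_add_emod u r
  obtain ⟨A, w, hA, hA2, hA'⟩ : ∃ A w : ℤ, A = u + r * w ∧ A % 2 = 1 ∧ |A| ≤ r := by
    rcases Int.emod_two_eq_zero_or_one (u % r) with h | h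
    · refine ⟨u % r - r, -(u / r) - 1, by linear_combination h3, by omega, ?_⟩
      rw [abs_le]
      constructor <;> omega
    · refine ⟨u % r, -(u / r), by linear_combination h3, h, ?_⟩
      rw [abs_le]
      constructor <;> omega
  have hAj : A * j = 1 + r * (w * j - v) := by
    rw [hA]
    linear_combination huv
  refine rel_one (A := A) (T := m) (z := w * j - v) hm hr ⟨j, -(w * j - v), ?_⟩ ?_ hA2 (by omega)
    ?_ ?_
  · linear_combination hAj
  · push_cast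
    linear_combination (m : ℤ) * hAj
  · have : (r : ℤ) ≤ m := by exact_mod_cast hrm
    omega
  · rw [abs_of_nonneg (by omega)]

end Pool.Agent.Helper89.EM
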